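import Pool.Graph.R_seed8.H821R2.Defs

/-!
Manifolds whose curvature operator is `k`-positive.
-/

open Bundle Manifold ContDiff VectorField Metric
open scoped Topology

set_option autoImplicit false

noncomputable section

namespace Pool.Agent.H781.S22

open Pool.Agent.H821R2

/-- the pairs `i < j` in `Fin N`; they index the basis `e_i ∧ e_j` of `Λ²` -/
abbrev Pr (N : ℕ) : Type := {p : Fin N × Fin N // p.1 < p.2}

variable {E : Type*} [NormedAddCommGroup E] [NormedSpace ℝ E]
  {H : Type*} [TopologicalSpace H] {I : ModelWithCorners ℝ E H}
  {M : Type*} [TopologicalSpace M] [ChartedSpace H M] [IsManifold I ∞ M]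

/-- `f 0, …, f (N-1)` is an orthonormal family of tangent vectors at `x` (so an orthonormal basis
of `T_x M` when `M` has dimension `N`) -/
def IsOrthonormalFrame (g : ContMDiffRiemannianMetric I ∞ E (fun x : M => TangentSpace I x))
    {N : ℕ} (x : M) (f : Fin N → TangentSpace I x) : Prop :=
  ∀ i j, g.inner x (f i) (f j) = if i = j then 1 else 0

/-- The matrix of the curvature operator at `x` in the orthonormal basis `f i ∧ f j` (`i < j`) of
`Λ² T_x M`: its entry at `(a ∧ b, c ∧ d)` is `⟨R(a, b) d, c⟩`. -/
def curvMatrix (g : ContMDiffRiemannianMetric I ∞ E (fun x : M => TangentSpace I x))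
    (R : CurvField I M) {N : ℕ} (x : M) (f : Fin N → TangentSpace I x) :
    Matrix (Pr N) (Pr N) ℝ :=
  Matrix.of fun p q => g.inner x (R x (f p.1.1) (f p.1.2) (f q.1.2)) (f q.1.1)

/-- The curvature operator of the `N`-dimensional Riemannian manifold `(M, g)` is `k`-positive: the
Levi-Civita connection and the Riemann tensor exist, and for them, at every point `x`, in every
orthonormal frame of `T_x M` (and there is one), the matrix of the curvature operator is symmetric
and any `k` of its eigenvalues (counted with multiplicity) have positive sum. -/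
def IsKPositive (N k : ℕ)
    (g : ContMDiffRiemannianMetric I ∞ E (fun x : M => TangentSpace I x)) : Prop :=
  (∃ (cov : CovariantDerivative I E (TangentSpace I : M → Type _)) (R : CurvField I M),
    IsLeviCivita g cov ∧ IsRiemannTensor cov R) ∧
  ∀ (cov : CovariantDerivative I E (TangentSpace I : M → Type _)) (R : CurvField I M),
    IsLeviCivita g cov → IsRiemannTensor cov R → ∀ x : M,
      (∃ f : Fin N → TangentSpace I x, IsOrthonormalFrame g x f) ∧
      ∀ f : Fin N → TangentSpace I x, IsOrthonormalFrame g x f →
        ∃ h : (curvMatrix g R x f).IsHermitian,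
          ∀ t : Finset (Pr N), t.card = k → 0 < ∑ i ∈ t, h.eigenvalues i

end Pool.Agent.H781.S22
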