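import Pool.Graph.R_seed8.H893R5.HO.Grp

/-!
Momentum data on `S² × S²` (rotations of both factors).
-/

open Bundle Manifold ContDiff ContinuousLinearMap Filter VectorField Metric
open scoped Topology RealInnerProductSpace

set_option autoImplicit false
set_option synthInstance.maxHeartbeats 400000
set_option maxHeartbeats 4000000
set_option linter.unusedSectionVars false

noncomputable section

namespace Pool.Agent.H781.S22

open Pool.Agent.H893R5.HO Pool.Agent.H821R2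

theorem cr3_adj (w x a : U3) : ⟪cr3 w x, a⟫ = ⟪w, cr3 x a⟫ := by
  rw [inner_U3, inner_U3]
  simp
  ring

theorem cr3_orth (w x : U3) : ⟪x, cr3 w x⟫ = 0 := by
  rw [inner_U3]
  simp
  ring

theorem cr3_norm (x a : U3) : ⟪x, a⟫ ^ 2 + ⟪cr3 x a, cr3 x a⟫ = ⟪x, x⟫ * ⟪a, a⟫ := by
  rw [inner_U3, inner_U3, inner_U3, inner_U3]
  simp
  ring

theorem cr3_add_left (a b c : U3) : cr3 (a + b) c = cr3 a c + cr3 b c := by
  refine ext_U3 ?_ ?_ ?_ <;> simp <;> ring

theorem cr3_add_right (a b c : U3) : cr3 a (b + c) = cr3 a b + cr3 a c := by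
  refine ext_U3 ?_ ?_ ?_ <;> simp <;> ring

theorem cr3_smul_left (r : ℝ) (a c : U3) : cr3 (r • a) c = r • cr3 a c := by
  refine ext_U3 ?_ ?_ ?_ <;> simp <;> ring

theorem cr3_smul_right (r : ℝ) (a c : U3) : cr3 a (r • c) = r • cr3 a c := by
  refine ext_U3 ?_ ?_ ?_ <;> simp <;> ring

/-- rotations of both factors -/
def R22 : U3 × U3 →L[ℝ] U3 × U3 →L[ℝ] U3 × U3 :=
  bilin (LinearMap.mk₂ ℝ (fun w z => (cr3 w.1 z.1, cr3 w.2 z.2))
    (fun z z' p => Prod.ext (cr3_add_left _ _ _) (cr3_add_left _ _ _))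
    (fun c z p => Prod.ext (cr3_smul_left _ _ _) (cr3_smul_left _ _ _))
    (fun z p p' => Prod.ext (cr3_add_right _ _ _) (cr3_add_right _ _ _))
    (fun c z p => Prod.ext (cr3_smul_right _ _ _) (cr3_smul_right _ _ _)))

theorem R22_apply (w z : U3 × U3) : R22 w z = (cr3 w.1 z.1, cr3 w.2 z.2) := rfl

/-- The manifold `S² × S²`. -/
abbrev M22 : Type := sphere (0 : U3) 1 × sphere (0 : U3) 1

/-- The model with corners of `S² × S²`. -/
abbrev I22 : ModelWithCorners ℝ (EuclideanSpace ℝ (Fin 2) × EuclideanSpace ℝ (Fin 2))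
    (ModelProd (EuclideanSpace ℝ (Fin 2)) (EuclideanSpace ℝ (Fin 2))) := (𝓡 2).prod (𝓡 2)

/-- the inclusion `S² × S² ⊂ ℝ³ × ℝ³` -/
abbrev X22 : Emb I22 M22 (U3 × U3) := sph 2 2 U3 U3

/-- momentum data on `S² × S²` -/
def m22 : Mom (U3 × U3) X22 where
  Q := sB U3 U3
  Qsymm a b := by rw [sB_apply, sB_apply, real_inner_comm, real_inner_comm b.2]
  R := R22
  J := R22
  adj w z a := by
    change sB U3 U3 (R22 w z) a = sB U3 U3 w (R22 z a)
    rw [sB_apply, sB_apply, R22_apply, R22_apply, cr3_adj, cr3_adj]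
  tan p w := by
    rw [sph_P]
    exact ⟨cr3_orth w.1 _, cr3_orth w.2 _⟩
  Jinj p a ha h := by
    rw [sph_P] at ha
    have h1 : cr3 (p.1 : U3) a.1 = 0 := congrArg Prod.fst h
    have h2 : cr3 (p.2 : U3) a.2 = 0 := congrArg Prod.snd h
    have k1 := cr3_norm (p.1 : U3) a.1
    have k2 := cr3_norm (p.2 : U3) a.2
    rw [ha.1, h1, inner_self_sph] at k1
    rw [ha.2, h2, inner_self_sph] at k2
    have l1 : ⟪a.1, a.1⟫ = 0 := by simpa using k1.symm
    have l2 : ⟪a.2, a.2⟫ = 0 := by simpa using k2.symm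
    exact Prod.ext (inner_self_eq_zero.1 l1) (inner_self_eq_zero.1 l2)

theorem m22_R (w z : U3 × U3) : m22.R w z = (cr3 w.1 z.1, cr3 w.2 z.2) := rfl

theorem m22_J (z a : U3 × U3) : m22.J z a = (cr3 z.1 a.1, cr3 z.2 a.2) := rfl

theorem m22_Q (a b : U3 × U3) : m22.Q a b = ⟪a.1, b.1⟫ + ⟪a.2, b.2⟫ := rfl

theorem m22_dj (z a w : U3 × U3) : m22.dj z a w =
    (cr3 (cr3 w.1 z.1) a.1, cr3 (cr3 w.2 z.2) a.2) := rfl

theorem m22_ddj (z a w w' : U3 × U3) : m22.ddj z a w w' =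
    (cr3 (cr3 w'.1 (cr3 w.1 z.1)) a.1, cr3 (cr3 w'.2 (cr3 w.2 z.2)) a.2) := rfl

theorem jacobi3 (w w' x : U3) : cr3 w' (cr3 w x) - cr3 w (cr3 w' x) = cr3 (cr3 w' w) x := by
  refine ext_U3 ?_ ?_ ?_ <;> simp <;> ring

theorem m22_br (w w' z : U3 × U3) : m22.R w' (m22.R w z) - m22.R w (m22.R w' z) =
    m22.R (cr6 w' w) z :=
  Prod.ext (jacobi3 w.1 w'.1 z.1) (jacobi3 w.2 w'.2 z.2)

theorem m22_sep (u v : U3 × U3) (h : ∀ w, m22.Q w u = m22.Q w v) : u = v := by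
  refine Prod.ext ?_ ?_
  · refine ext_inner_left ℝ fun e => ?_
    have h2 : sB U3 U3 (e, 0) u = sB U3 U3 (e, 0) v := h (e, 0)
    simpa [sB_apply] using h2
  · refine ext_inner_left ℝ fun e => ?_
    have h2 : sB U3 U3 (0, e) u = sB U3 U3 (0, e) v := h (0, e)
    simpa [sB_apply] using h2

end Pool.Agent.H781.S22
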