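import Pool.Agent.H781.S22.Spec

/-!
The coefficients of the curvature form of the explicit metric.
-/

open Bundle Manifold ContDiff ContinuousLinearMap Filter VectorField Metric
open scoped Topology RealInnerProductSpace

set_option autoImplicit false
set_option synthInstance.maxHeartbeats 400000
set_option maxHeartbeats 4000000
set_option linter.unusedSectionVars false
set_option linter.unusedVariables false
set_option linter.unusedSimpArgs false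

noncomputable section

namespace Pool.Agent.H781.S22

open Pool.Agent.H893R5.HO Pool.Agent.H821R2 Pool.Agent.H821R3 HopfPP

/-- `G = (1-u²)Γ` -/
def Gf (u : ℝ) : ℝ := (1 - u ^ 2) * Ga u
/-- derivative -/
def Gf1 (u : ℝ) : ℝ := (1 - u ^ 2) * Ga1 u - 2 * u * Ga u
/-- derivative -/
def Gf2 (u : ℝ) : ℝ := (1 - u ^ 2) * Ga2 u - 4 * u * Ga1 u - 2 * Ga u

/-- scaled curvature coefficient -/
def PX (u : ℝ) : ℝ := -(Gf u * ph2 u + 1 / 2 * Gf1 u * ph1 u) * ph u / 2 + Gf u * ph1 u ^ 2 / 4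
/-- scaled curvature coefficient -/
def PY (u : ℝ) : ℝ := Gf u / 4 - ph u * ph1 u * Gf1 u / 4
/-- scaled curvature coefficient -/
def PM (u : ℝ) : ℝ := (Gf1 u * ph u - Gf u * ph1 u) / 4
/-- scaled curvature coefficient -/
def PW (u : ℝ) : ℝ := ph u - 3 / 4 * Gf u - Gf u * ph1 u ^ 2 / 4
/-- scaled curvature coefficient -/
def PZ (u : ℝ) : ℝ := -(1 / 2) * Gf2 u * ph u ^ 2

theorem jt_c0 (u : ℝ) : (SD.jt u).c0 = 1 / ph u := (one_div _).symm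

theorem jt_c1 (u : ℝ) : (SD.jt u).c1 = -ph1 u / ph u ^ 2 := rfl

theorem jt_c2 (u : ℝ) : (SD.jt u).c2 = -ph2 u / ph u ^ 2 + 2 * ph1 u ^ 2 / ph u ^ 3 := by
  have hp := (ph_pos u).ne'
  change (-ph2 u * ph u ^ 2 - -ph1 u * (2 * ph u * ph1 u)) / (ph u ^ 2) ^ 2 = _
  field_simp
  ring

theorem jt_e0 (u : ℝ) : (SD.jt u).e0 * (1 - u ^ 2) = 1 / Ga u - Ga u := by
  have h := SD_DD u
  have h2 : DD (SD.jt u) u = Ga u + (SD.jt u).e0 * (1 - u ^ 2) := rfl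
  rw [h2] at h
  rw [one_div]
  linarith

theorem jt_e1 (u : ℝ) : (SD.jt u).e1 * (1 - u ^ 2) =
    2 * u * (SD.jt u).e0 - Ga1 u / Ga u ^ 2 - Ga1 u := by
  have h := SD_D1 u
  have h2 : D1 (SD.jt u) u = Ga1 u + (SD.jt u).e1 * (1 - u ^ 2) - 2 * u * (SD.jt u).e0 := rfl
  rw [h2] at h
  rw [neg_div] at h
  linarith

theorem jt_e2 (u : ℝ) : (SD.jt u).e2 * (1 - u ^ 2) =
    4 * u * (SD.jt u).e1 + 2 * (SD.jt u).e0 - Ga2 u / Ga u ^ 2 + 2 * Ga1 u ^ 2 / Ga u ^ 3 -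
      Ga2 u := by
  have hG := (Ga_pos u).ne'
  have h2 := Ga_ka u
  have h3 := Ga1_ka u
  have h6 := Ga2_ka u
  have h4 : ka u * (1 - u ^ 2) = 1 - Ga u := by linarith
  have h5 : ka1 u * (1 - u ^ 2) = 2 * u * ka u - Ga1 u := by linarith
  have h7 : ka2 u * (1 - u ^ 2) = 4 * u * ka1 u + 2 * ka u - Ga2 u := by linarith
  have e2 : (SD.jt u).e2 = ka2 u * ((Ga u)⁻¹ + 1) + ka1 u * (-Ga1 u / Ga u ^ 2) +
    (ka1 u * (-Ga1 u / Ga u ^ 2) +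
      ka u * ((-Ga2 u * Ga u ^ 2 - -Ga1 u * (2 * Ga u * Ga1 u)) / (Ga u ^ 2) ^ 2)) := rfl
  have e1 : (SD.jt u).e1 = ka1 u * ((Ga u)⁻¹ + 1) + ka u * (-Ga1 u / Ga u ^ 2) := rfl
  have e0 : (SD.jt u).e0 = ka u * ((Ga u)⁻¹ + 1) := rfl
  rw [e2, e1, e0]
  have : (ka2 u * ((Ga u)⁻¹ + 1) + ka1 u * (-Ga1 u / Ga u ^ 2) +
    (ka1 u * (-Ga1 u / Ga u ^ 2) +
      ka u * ((-Ga2 u * Ga u ^ 2 - -Ga1 u * (2 * Ga u * Ga1 u)) / (Ga u ^ 2) ^ 2))) *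
      (1 - u ^ 2) = (ka2 u * (1 - u ^ 2)) * ((Ga u)⁻¹ + 1) +
      2 * (ka1 u * (1 - u ^ 2)) * (-Ga1 u / Ga u ^ 2) +
      (ka u * (1 - u ^ 2)) * ((-Ga2 u * Ga u ^ 2 - -Ga1 u * (2 * Ga u * Ga1 u)) /
        (Ga u ^ 2) ^ 2) := by ring
  rw [this, h4, h5, h7]
  field_simp
  ring

theorem cX_eq (u : ℝ) : cX (SD.jt u) u = Ga u * PX u / ph u ^ 4 := by
  have hp := (ph_pos u).ne'
  have a0 : (SD.jt u).a0 = Ga u := rfl
  have a1 : (SD.jt u).a1 = Ga1 u := rfl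
  rw [cX, jt_c0, jt_c1, jt_c2, a0, a1, PX, Gf, Gf1]
  field_simp
  ring

theorem cW_eq (u : ℝ) : cW (SD.jt u) u = PW u / ph u ^ 5 +
    3 / 4 * (1 - u ^ 2) * Ga u / ph u ^ 5 := by
  have hp := (ph_pos u).ne'
  have a0 : (SD.jt u).a0 = Ga u := rfl
  rw [cW, jt_c0, jt_c1, a0, PW, Gf]
  field_simp
  ring

theorem cM_eq (u : ℝ) : cM (SD.jt u) u = 6 * PM u / ph u ^ 4 -
    3 / 2 * (1 - u ^ 2) * Ga1 u / ph u ^ 3 := by
  have hp := (ph_pos u).ne'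
  have a0 : (SD.jt u).a0 = Ga u := rfl
  rw [cM, jt_c0, jt_c1, a0, PM, Gf, Gf1]
  field_simp
  ring

theorem cY_eq (u : ℝ) : cY (SD.jt u) u = PY u / (Ga u * ph u ^ 4) := by
  have hp := (ph_pos u).ne'
  have hG := (Ga_pos u).ne'
  have a0 : (SD.jt u).a0 = Ga u := rfl
  have a1 : (SD.jt u).a1 = Ga1 u := rfl
  have key : cY (SD.jt u) u = -(1 / 4) * (SD.jt u).a0 * (SD.jt u).c0 * (SD.jt u).c1 *
      ((1 - u ^ 2) * (-(Ga1 u / Ga u ^ 2) - Ga1 u) + 2 * u * (1 / Ga u - Ga u)) -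
      1 / 4 * (1 - u ^ 2) * (SD.jt u).a0 * (SD.jt u).a1 * (SD.jt u).c0 * (SD.jt u).c1 -
      1 / 2 * u * (SD.jt u).a0 ^ 2 * (SD.jt u).c0 * (SD.jt u).c1 +
      1 / 4 * (1 - u ^ 2) * (SD.jt u).c0 ^ 4 := by
    rw [cY]
    linear_combination (-(1 / 4) * (SD.jt u).a0 * (SD.jt u).c0 * (SD.jt u).c1 * (1 - u ^ 2)) *
      jt_e1 u + (-(1 / 4) * (SD.jt u).a0 * (SD.jt u).c0 * (SD.jt u).c1 * (2 * u)) * jt_e0 u
  rw [key, jt_c0, jt_c1, a0, a1, PY, Gf, Gf1]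
  field_simp
  ring

theorem cZ_eq (u : ℝ) : cZ (SD.jt u) u = PZ u / ph u ^ 3 +
    3 / 4 * (1 - u ^ 2) * Ga1 u ^ 2 / (Ga u * ph u) := by
  have hp := (ph_pos u).ne'
  have hG := (Ga_pos u).ne'
  have a0 : (SD.jt u).a0 = Ga u := rfl
  have a1 : (SD.jt u).a1 = Ga1 u := rfl
  have a2 : (SD.jt u).a2 = Ga2 u := rfl
  have key : cZ (SD.jt u) u =
      1 / 2 * (SD.jt u).a0 ^ 2 * (SD.jt u).c0 * (1 - u ^ 2) *
        (-(Ga2 u / Ga u ^ 2) + 2 * Ga1 u ^ 2 / Ga u ^ 3 - Ga2 u) +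
      (-(3 / 2) * u * (SD.jt u).a0 ^ 2 * (SD.jt u).c0 +
        1 / 4 * (SD.jt u).a0 * (SD.jt u).a1 * (SD.jt u).c0 * (1 - u ^ 2)) *
        (-(Ga1 u / Ga u ^ 2) - Ga1 u) +
      ((SD.jt u).a0 ^ 2 * (SD.jt u).c0 + 1 / 2 * u * (SD.jt u).a0 * (SD.jt u).a1 *
        (SD.jt u).c0) * (1 / Ga u - Ga u) +
      1 / 2 * (1 - u ^ 2) * (SD.jt u).a0 ^ 2 * (SD.jt u).a2 * (SD.jt u).c0 +
      1 / 4 * (1 - u ^ 2) * (SD.jt u).a0 * (SD.jt u).a1 ^ 2 * (SD.jt u).c0 -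
      u * (SD.jt u).a0 ^ 2 * (SD.jt u).a1 * (SD.jt u).c0 + (SD.jt u).a0 ^ 3 * (SD.jt u).c0 := by
    rw [cZ]
    linear_combination (1 / 2 * (SD.jt u).a0 ^ 2 * (SD.jt u).c0 * (1 - u ^ 2)) * jt_e2 u +
      (-(3 / 2) * u * (SD.jt u).a0 ^ 2 * (SD.jt u).c0 +
        1 / 4 * (SD.jt u).a0 * (SD.jt u).a1 * (SD.jt u).c0 * (1 - u ^ 2)) * jt_e1 u +
      ((SD.jt u).a0 ^ 2 * (SD.jt u).c0 + 1 / 2 * u * (SD.jt u).a0 * (SD.jt u).a1 *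
        (SD.jt u).c0) * jt_e0 u
  rw [key, jt_c0, a0, a1, a2, PZ, Gf2]
  field_simp
  ring

end Pool.Agent.H781.S22
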