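import Pool.Agent.H781.S22.Basic

/-!
The `SO(3)`-invariant cometric `a(u)|M|² + b(u)⟨M,x⟩² + c(u)|L+M|²` on `S² × S²`,
`u = ⟨x,y⟩`, and its first two derivatives.
-/

open Bundle Manifold ContDiff ContinuousLinearMap Filter VectorField Metric
open scoped Topology RealInnerProductSpace

set_option autoImplicit false
set_option synthInstance.maxHeartbeats 400000
set_option maxHeartbeats 4000000
set_option linter.unusedSectionVars false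

noncomputable section

namespace Pool.Agent.H781.S22

open Pool.Agent.H893R5.HO Pool.Agent.H821R2

/-- ambient space -/
abbrev A6 : Type := U3 × U3

/-- the invariant `⟨x,y⟩` -/
def uu (z : A6) : ℝ := ⟪z.1, z.2⟫

/-- polarisation of `uu` -/
def Bu (z ζ : A6) : ℝ := ⟪z.1, ζ.2⟫ + ⟪ζ.1, z.2⟫

theorem smooth_uu : ContDiff ℝ ∞ uu := contDiff_fst.inner ℝ contDiff_snd

/-- `(L,M) ↦ (L+M, L+M)` -/
def T1 : A6 →L[ℝ] A6 :=
  (ContinuousLinearMap.fst ℝ U3 U3 + ContinuousLinearMap.snd ℝ U3 U3).prod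
    (ContinuousLinearMap.fst ℝ U3 U3 + ContinuousLinearMap.snd ℝ U3 U3)

/-- `(L,M) ↦ (0, M)` -/
def T2 : A6 →L[ℝ] A6 := (0 : A6 →L[ℝ] U3).prod (ContinuousLinearMap.snd ℝ U3 U3)

/-- `(L,M) ↦ (0, ⟨M,x⟩ x)` -/
def T3 (z : A6) : A6 →L[ℝ] A6 :=
  ((innerSL ℝ z.1).comp (ContinuousLinearMap.snd ℝ U3 U3)).smulRight ((0, z.1) : A6)

theorem T1_apply (d : A6) : T1 d = (d.1 + d.2, d.1 + d.2) := rfl

theorem T2_apply (d : A6) : T2 d = (0, d.2) := rfl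

theorem T3_apply (z d : A6) : T3 z d = (0, ⟪z.1, d.2⟫ • z.1) := by
  simp [T3]

theorem smooth_T3 : ContDiff ℝ ∞ T3 := by
  have h1 : ContDiff ℝ ∞ (fun z : A6 =>
      (innerSL ℝ z.1).comp (ContinuousLinearMap.snd ℝ U3 U3)) :=
    ((innerSL ℝ (E := U3)).contDiff.comp contDiff_fst).clm_comp contDiff_const
  have h3 : ContDiff ℝ ∞ (fun z : A6 => ((0, z.1) : A6)) :=
    contDiff_const.prodMk contDiff_fst
  exact h1.smulRight h3

/-- the momentum matrix of the cometric -/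
def Kc (a b c : ℝ → ℝ) (z : A6) : A6 →L[ℝ] A6 :=
  c (uu z) • T1 + a (uu z) • T2 + b (uu z) • T3 z

variable {a b c : ℝ → ℝ}

theorem Kc_apply (z d : A6) : Kc a b c z d = (c (uu z) • (d.1 + d.2),
    c (uu z) • (d.1 + d.2) + a (uu z) • d.2 + (b (uu z) * ⟪z.1, d.2⟫) • z.1) := by
  rw [Kc]
  simp only [_root_.add_apply, _root_.smul_apply, T1_apply, T2_apply, T3_apply]
  refine Prod.ext ?_ ?_
  · simp
  · simp [smul_smul]

theorem smooth_Kc (ha : ContDiff ℝ ∞ a) (hb : ContDiff ℝ ∞ b) (hc : ContDiff ℝ ∞ c) :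
    ContDiff ℝ ∞ (Kc a b c) :=
  (((hc.comp smooth_uu).smul contDiff_const).add ((ha.comp smooth_uu).smul contDiff_const)).add
    ((hb.comp smooth_uu).smul smooth_T3)

theorem hasFDerivAt_uu (z : A6) : ∃ D : A6 →L[ℝ] ℝ, HasFDerivAt uu D z ∧ ∀ ζ, D ζ = Bu z ζ := by
  have h := (hasFDerivAt_fst (𝕜 := ℝ) (p := z)).inner ℝ (hasFDerivAt_snd (𝕜 := ℝ) (p := z))
  refine ⟨_, h, fun ζ => ?_⟩
  simp [fderivInnerCLM_apply, Bu]

theorem hasFDerivAt_fu {f : ℝ → ℝ} {f1 : ℝ → ℝ} (hf : ∀ t, HasDerivAt f (f1 t) t) (z : A6) :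
    ∃ D : A6 →L[ℝ] ℝ, HasFDerivAt (fun z => f (uu z)) D z ∧ ∀ ζ, D ζ = f1 (uu z) * Bu z ζ := by
  obtain ⟨D, h1, h2⟩ := hasFDerivAt_uu z
  have h := (hf (uu z)).comp_hasFDerivAt z h1
  refine ⟨_, h, fun ζ => ?_⟩
  simp [h2]

/-- the derivative of `T3` -/
def S3 (z ζ d : A6) : A6 := (0, ⟪z.1, d.2⟫ • ζ.1 + ⟪ζ.1, d.2⟫ • z.1)

theorem hasFDerivAt_T3 (z d : A6) :
    ∃ D : A6 →L[ℝ] A6, HasFDerivAt (fun z => T3 z d) D z ∧ ∀ ζ, D ζ = S3 z ζ d := by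
  have h0 : HasFDerivAt (fun z : A6 => z.1) (ContinuousLinearMap.fst ℝ U3 U3) z := hasFDerivAt_fst
  have h1 := h0.inner ℝ (hasFDerivAt_const d.2 z)
  have h2 := h1.smul h0
  have h3 := (hasFDerivAt_const (0 : U3) z).prodMk h2
  have e : (fun z => T3 z d) = fun z : A6 => ((0 : U3), ⟪z.1, d.2⟫ • z.1) := by
    funext z; rw [T3_apply]
  rw [e]
  refine ⟨_, h3, fun ζ => ?_⟩
  simp [fderivInnerCLM_apply, S3]

/-- first derivative of the momentum matrix -/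
def K1e (a1 b b1 c1 : ℝ → ℝ) (z ζ d : A6) : A6 :=
  (c1 (uu z) * Bu z ζ) • T1 d + (a1 (uu z) * Bu z ζ) • T2 d + (b1 (uu z) * Bu z ζ) • T3 z d +
    b (uu z) • S3 z ζ d

/-- second derivative of the momentum matrix -/
def K2e (a1 a2 b b1 b2 c1 c2 : ℝ → ℝ) (z η ζ d : A6) : A6 :=
  (c2 (uu z) * Bu z η * Bu z ζ + c1 (uu z) * Bu η ζ) • T1 d +
  (a2 (uu z) * Bu z η * Bu z ζ + a1 (uu z) * Bu η ζ) • T2 d +
  (b2 (uu z) * Bu z η * Bu z ζ + b1 (uu z) * Bu η ζ) • T3 z d +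
  (b1 (uu z) * Bu z ζ) • S3 z η d + (b1 (uu z) * Bu z η) • S3 z ζ d + b (uu z) • S3 η ζ d

variable {a1 a2 b1 b2 c1 c2 : ℝ → ℝ}

theorem fderiv_Kc (hKs : ContDiff ℝ ∞ (Kc a b c))
    (ha : ∀ t, HasDerivAt a (a1 t) t) (hb : ∀ t, HasDerivAt b (b1 t) t)
    (hc : ∀ t, HasDerivAt c (c1 t) t) (z ζ d : A6) :
    fderiv ℝ (Kc a b c) z ζ d = K1e a1 b b1 c1 z ζ d := by
  have hK : HasFDerivAt (Kc a b c) (fderiv ℝ (Kc a b c) z) z :=
    (hKs.differentiable (by simp) z).hasFDerivAt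
  have h1 := hK.clm_apply (hasFDerivAt_const d z)
  obtain ⟨Da, ha1, ha2⟩ := hasFDerivAt_fu ha z
  obtain ⟨Db, hb1, hb2⟩ := hasFDerivAt_fu hb z
  obtain ⟨Dc, hc1, hc2⟩ := hasFDerivAt_fu hc z
  obtain ⟨DT, hT1, hT2⟩ := hasFDerivAt_T3 z d
  have h2 := ((hc1.smul_const (T1 d)).add (ha1.smul_const (T2 d))).add (hb1.smul hT1)
  have e : (fun z => Kc a b c z d) = fun z => c (uu z) • T1 d + a (uu z) • T2 d +
      b (uu z) • T3 z d := rfl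
  have h3 := h1.unique h2
  have h4 := congrArg (fun D : A6 →L[ℝ] A6 => D ζ) h3
  simp only [_root_.add_apply, ContinuousLinearMap.comp_apply, _root_.zero_apply,
    map_zero, zero_add, ContinuousLinearMap.flip_apply, ContinuousLinearMap.smulRight_apply,
    ha2, hb2, hc2, hT2, _root_.smul_apply] at h4
  rw [h4, K1e]
  abel

theorem Bu_comm (z ζ : A6) : Bu z ζ = Bu ζ z := add_comm _ _

theorem hasFDerivAt_Bu (z ζ : A6) :
    ∃ D : A6 →L[ℝ] ℝ, HasFDerivAt (fun z => Bu z ζ) D z ∧ ∀ η, D η = Bu η ζ := by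
  have h1 := (hasFDerivAt_fst (𝕜 := ℝ) (p := z)).inner ℝ (hasFDerivAt_const ζ.2 z)
  have h2 := (hasFDerivAt_const ζ.1 z).inner ℝ (hasFDerivAt_snd (𝕜 := ℝ) (p := z))
  refine ⟨_, h1.add h2, fun η => ?_⟩
  simp [fderivInnerCLM_apply, Bu]

theorem hasFDerivAt_S3 (z ζ d : A6) :
    ∃ D : A6 →L[ℝ] A6, HasFDerivAt (fun z => S3 z ζ d) D z ∧ ∀ η, D η = S3 η ζ d := by
  have h0 : HasFDerivAt (fun z : A6 => z.1) (ContinuousLinearMap.fst ℝ U3 U3) z := hasFDerivAt_fst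
  have h1 := (h0.inner ℝ (hasFDerivAt_const d.2 z)).smul_const ζ.1
  have h2 := h0.const_smul ⟪ζ.1, d.2⟫
  have h3 := (hasFDerivAt_const (0 : U3) z).prodMk (h1.add h2)
  refine ⟨_, h3, fun η => ?_⟩
  simp [fderivInnerCLM_apply, S3]

theorem fderiv2_Kc (hKs : ContDiff ℝ ∞ (Kc a b c))
    (ha : ∀ t, HasDerivAt a (a1 t) t) (ha' : ∀ t, HasDerivAt a1 (a2 t) t)
    (hb : ∀ t, HasDerivAt b (b1 t) t) (hb' : ∀ t, HasDerivAt b1 (b2 t) t)
    (hc : ∀ t, HasDerivAt c (c1 t) t) (hc' : ∀ t, HasDerivAt c1 (c2 t) t) (z η ζ d : A6) :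
    fderiv ℝ (fderiv ℝ (Kc a b c)) z η ζ d = K2e a1 a2 b b1 b2 c1 c2 z η ζ d := by
  have hs : ContDiff ℝ ∞ (fderiv ℝ (Kc a b c)) := hKs.fderiv_right (m := ∞) (by simp)
  have hK : HasFDerivAt (fderiv ℝ (Kc a b c)) (fderiv ℝ (fderiv ℝ (Kc a b c)) z) z :=
    (hs.differentiable (by simp) z).hasFDerivAt
  have h1 := (hK.clm_apply (hasFDerivAt_const ζ z)).clm_apply (hasFDerivAt_const d z)
  have e : (fun z => fderiv ℝ (Kc a b c) z ζ d) = fun z =>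
      (c1 (uu z) * Bu z ζ) • T1 d + (a1 (uu z) * Bu z ζ) • T2 d + (b1 (uu z) * Bu z ζ) • T3 z d +
      b (uu z) • S3 z ζ d := by
    funext z
    rw [fderiv_Kc hKs ha hb hc]
    rfl
  rw [e] at h1
  obtain ⟨Da, ha3, ha4⟩ := hasFDerivAt_fu ha' z
  obtain ⟨Db, hb3, hb4⟩ := hasFDerivAt_fu hb' z
  obtain ⟨Dc, hc3, hc4⟩ := hasFDerivAt_fu hc' z
  obtain ⟨Eb, hb5, hb6⟩ := hasFDerivAt_fu hb z
  obtain ⟨DT, hT1, hT2⟩ := hasFDerivAt_T3 z d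
  obtain ⟨DB, hB1, hB2⟩ := hasFDerivAt_Bu z ζ
  obtain ⟨DS, hS1, hS2⟩ := hasFDerivAt_S3 z ζ d
  have h2 := ((((hc3.mul hB1).smul_const (T1 d)).add ((ha3.mul hB1).smul_const (T2 d))).add
    ((hb3.mul hB1).smul hT1)).add (hb5.smul hS1)
  have h3 := h1.unique h2
  have h4 := congrArg (fun D : A6 →L[ℝ] A6 => D η) h3
  simp only [_root_.add_apply, ContinuousLinearMap.comp_apply, _root_.zero_apply,
    map_zero, zero_add, ContinuousLinearMap.flip_apply, ContinuousLinearMap.smulRight_apply,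
    ha4, hb4, hc4, hb6, hT2, hB2, hS2, _root_.smul_apply, smul_eq_mul, Pi.mul_apply] at h4
  rw [h4, K2e]
  module

end Pool.Agent.H781.S22
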