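import Pool.Agent.H781.S22.Comet
import Pool.Graph.R_seed8.H758R2.HO.PP

/-!
Coordinates with respect to an adapted orthonormal frame `(x, e, n)` of `ℝ³`.
-/

open Bundle Manifold ContDiff ContinuousLinearMap Filter VectorField Metric
open scoped Topology RealInnerProductSpace

set_option autoImplicit false
set_option synthInstance.maxHeartbeats 400000
set_option maxHeartbeats 4000000
set_option linter.unusedSectionVars false

noncomputable section

namespace Pool.Agent.H781.S22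

open Pool.Agent.H893R5.HO Pool.Agent.H821R2 HopfPP

/-- right-handed orthonormal frames of `ℝ³` -/
structure Fr (x e n : U3) : Prop where
  xx : ⟪x, x⟫ = 1
  ee : ⟪e, e⟫ = 1
  nn : ⟪n, n⟫ = 1
  xe : ⟪x, e⟫ = 0
  xn : ⟪x, n⟫ = 0
  en : ⟪e, n⟫ = 0
  hn : cr3 x e = n
  hx : cr3 e n = x
  he : cr3 n x = e

/-- coordinates -/
def co (x e n v : U3) : V ℝ := ![⟪x, v⟫, ⟪e, v⟫, ⟪n, v⟫]

/-- coordinates of pairs -/
def co6 (x e n : U3) (v : A6) : V6 ℝ := (co x e n v.1, co x e n v.2)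

theorem lagrange (a b c d : U3) : ⟪cr3 a b, cr3 c d⟫ = ⟪a, c⟫ * ⟪b, d⟫ - ⟪a, d⟫ * ⟪b, c⟫ := by
  simp only [inner_U3]
  simp
  ring

section

variable {x e n : U3} (F : Fr x e n)

include F

theorem Fr.expand (v : U3) : v = ⟪x, v⟫ • x + ⟪e, v⟫ • e + ⟪n, v⟫ • n := by
  have ho : Orthonormal ℝ ![x, e, n] := by
    rw [orthonormal_iff_ite]
    intro i j
    have ex := F.xe
    have nx := F.xn
    have ne := F.en
    rw [real_inner_comm] at ex nx ne
    fin_cases i <;> fin_cases j <;> simp [F.xe, F.xn, F.en, ex, nx, ne,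
      -inner_self_eq_norm_sq_to_K]
    · exact F.xx
    · exact F.ee
    · exact F.nn
  have hc : Fintype.card (Fin 3) = Module.finrank ℝ U3 := by simp
  obtain ⟨b, hb⟩ : ∃ b : OrthonormalBasis (Fin 3) ℝ U3, ⇑b = ![x, e, n] := by
    refine ⟨(basisOfOrthonormalOfCardEqFinrank ho hc).toOrthonormalBasis (by simpa using ho), ?_⟩
    simp
  have h := b.sum_repr' v
  rw [hb, Fin.sum_univ_three] at h
  exact h.symm

theorem Fr.dt_co (a b : U3) : dt (co x e n a) (co x e n b) = ⟪a, b⟫ := by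
  have ha := F.expand a
  conv_rhs => rw [ha]
  simp only [inner_add_left, real_inner_smul_left]
  simp [dt, co]

theorem Fr.cx_co (a b : U3) : cx (co x e n a) (co x e n b) = co x e n (cr3 a b) := by
  have h0 : ⟪x, cr3 a b⟫ = ⟪e, a⟫ * ⟪n, b⟫ - ⟪e, b⟫ * ⟪n, a⟫ := by
    rw [← F.hx, lagrange]
  have h1 : ⟪e, cr3 a b⟫ = ⟪n, a⟫ * ⟪x, b⟫ - ⟪n, b⟫ * ⟪x, a⟫ := by
    rw [← F.he, lagrange]
  have h2 : ⟪n, cr3 a b⟫ = ⟪x, a⟫ * ⟪e, b⟫ - ⟪x, b⟫ * ⟪e, a⟫ := by
    rw [← F.hn, lagrange]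
  simp only [co, h0, h1, h2]
  funext i
  fin_cases i
  · simp [cx]; ring
  · simp [cx]; ring
  · simp [cx]; ring

end

section

variable (x e n : U3)

theorem co_add (a b : U3) : co x e n (a + b) = co x e n a + co x e n b := by
  funext i; fin_cases i <;> simp [co, inner_add_right]

theorem co_sub (a b : U3) : co x e n (a - b) = co x e n a - co x e n b := by
  funext i; fin_cases i <;> simp [co, inner_sub_right]

theorem co_smul (r : ℝ) (a : U3) : co x e n (r • a) = r • co x e n a := by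
  funext i; fin_cases i <;> simp [co, real_inner_smul_right]

theorem co_zero : co x e n 0 = 0 := by
  funext i; fin_cases i <;> simp [co]

theorem co6_add (a b : A6) : co6 x e n (a + b) = co6 x e n a + co6 x e n b :=
  Prod.ext (co_add x e n _ _) (co_add x e n _ _)

theorem co6_sub (a b : A6) : co6 x e n (a - b) = co6 x e n a - co6 x e n b :=
  Prod.ext (co_sub x e n _ _) (co_sub x e n _ _)

theorem co6_smul (r : ℝ) (a : A6) : co6 x e n (r • a) = r • co6 x e n a :=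
  Prod.ext (co_smul x e n _ _) (co_smul x e n _ _)

end

/-! ### coordinate versions -/

/-- coordinate version of `Bu` -/
def Bc (z ζ : V6 ℝ) : ℝ := dt z.1 ζ.2 + dt ζ.1 z.2

/-- coordinate version of `T1` -/
def T1c (d : V6 ℝ) : V6 ℝ := (d.1 + d.2, d.1 + d.2)

/-- coordinate version of `T2` -/
def T2c (d : V6 ℝ) : V6 ℝ := (0, d.2)

/-- coordinate version of `T3` -/
def T3c (z d : V6 ℝ) : V6 ℝ := (0, dt z.1 d.2 • z.1)

/-- coordinate version of `S3` -/
def S3c (z ζ d : V6 ℝ) : V6 ℝ := (0, dt z.1 d.2 • ζ.1 + dt ζ.1 d.2 • z.1)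

/-- jets of the three coefficient functions -/
structure Jet where
  a0 : ℝ
  a1 : ℝ
  a2 : ℝ
  b0 : ℝ
  b1 : ℝ
  b2 : ℝ
  c0 : ℝ
  c1 : ℝ
  c2 : ℝ

/-- coordinate version of `Kc` -/
def K0c (j : Jet) (z d : V6 ℝ) : V6 ℝ := j.c0 • T1c d + j.a0 • T2c d + j.b0 • T3c z d

/-- coordinate version of `K1e` -/
def K1c (j : Jet) (z ζ d : V6 ℝ) : V6 ℝ :=
  (j.c1 * Bc z ζ) • T1c d + (j.a1 * Bc z ζ) • T2c d + (j.b1 * Bc z ζ) • T3c z d +
    j.b0 • S3c z ζ d

/-- coordinate version of `K2e` -/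
def K2c (j : Jet) (z η ζ d : V6 ℝ) : V6 ℝ :=
  (j.c2 * Bc z η * Bc z ζ + j.c1 * Bc η ζ) • T1c d +
  (j.a2 * Bc z η * Bc z ζ + j.a1 * Bc η ζ) • T2c d +
  (j.b2 * Bc z η * Bc z ζ + j.b1 * Bc η ζ) • T3c z d +
  (j.b1 * Bc z ζ) • S3c z η d + (j.b1 * Bc z η) • S3c z ζ d + j.b0 • S3c η ζ d

section

variable {x e n : U3} (F : Fr x e n)

include F

theorem Fr.Bc_co (z ζ : A6) : Bc (co6 x e n z) (co6 x e n ζ) = Bu z ζ := by
  simp only [Bc, Bu, co6, F.dt_co]

theorem Fr.cx6_co (a b : A6) : cx6 (co6 x e n a) (co6 x e n b) = co6 x e n (cr6 a b) := by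
  simp only [cx6, cr6, co6, F.cx_co]

theorem Fr.dt6_co (a b : A6) : dt6 (co6 x e n a) (co6 x e n b) = sB U3 U3 a b := by
  simp only [dt6, co6, F.dt_co, sB_apply]

omit F in
theorem T1_co (d : A6) : co6 x e n (T1 d) = T1c (co6 x e n d) := by
  simp only [co6, T1_apply, T1c, co_add]

omit F in
theorem T2_co (d : A6) : co6 x e n (T2 d) = T2c (co6 x e n d) := by
  simp only [co6, T2_apply, T2c, co_zero]

theorem Fr.T3_co (z d : A6) : co6 x e n (T3 z d) = T3c (co6 x e n z) (co6 x e n d) := by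
  simp only [co6, T3_apply, T3c, co_zero, co_smul, F.dt_co]

theorem Fr.S3_co (z ζ d : A6) :
    co6 x e n (S3 z ζ d) = S3c (co6 x e n z) (co6 x e n ζ) (co6 x e n d) := by
  simp only [co6, S3, S3c, co_zero, co_smul, co_add, F.dt_co]

end

/-- jets of functions at a point -/
def jet (a a1 a2 b b1 b2 c c1 c2 : ℝ → ℝ) (u : ℝ) : Jet :=
  ⟨a u, a1 u, a2 u, b u, b1 u, b2 u, c u, c1 u, c2 u⟩

section

variable {x e n : U3} (F : Fr x e n) (a a1 a2 b b1 b2 c c1 c2 : ℝ → ℝ)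

include F

theorem Fr.K0_co (z d : A6) : co6 x e n (Kc a b c z d) =
    K0c (jet a a1 a2 b b1 b2 c c1 c2 (uu z)) (co6 x e n z) (co6 x e n d) := by
  simp only [Kc, _root_.add_apply, _root_.smul_apply, co6_add, co6_smul, T1_co, T2_co, F.T3_co,
    K0c, jet]

theorem Fr.K1_co (z ζ d : A6) : co6 x e n (K1e a1 b b1 c1 z ζ d) =
    K1c (jet a a1 a2 b b1 b2 c c1 c2 (uu z)) (co6 x e n z) (co6 x e n ζ) (co6 x e n d) := by
  simp only [K1e, co6_add, co6_smul, T1_co, T2_co, F.T3_co, F.S3_co, K1c, jet, F.Bc_co]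

theorem Fr.K2_co (z η ζ d : A6) : co6 x e n (K2e a1 a2 b b1 b2 c1 c2 z η ζ d) =
    K2c (jet a a1 a2 b b1 b2 c c1 c2 (uu z)) (co6 x e n z) (co6 x e n η) (co6 x e n ζ)
      (co6 x e n d) := by
  simp only [K2e, co6_add, co6_smul, T1_co, T2_co, F.T3_co, F.S3_co, K2c, jet, F.Bc_co]

end

end Pool.Agent.H781.S22
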