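import Pool.Agent.H781.S22.Coord

/-!
Evaluation of the curvature expression in an adapted frame: vectors.
-/

open Bundle Manifold ContDiff ContinuousLinearMap Filter VectorField Metric
open scoped Topology RealInnerProductSpace

set_option autoImplicit false
set_option synthInstance.maxHeartbeats 400000
set_option maxHeartbeats 4000000
set_option linter.unusedSectionVars false
set_option linter.unusedVariables false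
set_option linter.unusedSimpArgs false

noncomputable section

namespace Pool.Agent.H781.S22

open Pool.Agent.H893R5.HO Pool.Agent.H821R2 HopfPP

/-- jets of `a`, `e = b + c`, `c` -/
structure Jt where
  a0 : ℝ
  a1 : ℝ
  a2 : ℝ
  e0 : ℝ
  e1 : ℝ
  e2 : ℝ
  c0 : ℝ
  c1 : ℝ
  c2 : ℝ

/-- conversion -/
def Jt.jet (j : Jt) : Jet :=
  ⟨j.a0, j.a1, j.a2, j.e0 - j.c0, j.e1 - j.c1, j.e2 - j.c2, j.c0, j.c1, j.c2⟩

/-- the base point -/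
def zc (k s : ℝ) : V6 ℝ := (![1, 0, 0], ![k, s, 0])

/-- the covectors -/
def ac (k s : ℝ) (x : Fin 4 → ℝ) : V6 ℝ :=
  (![0, -x 0 + x 2, -x 1 + k * x 3], ![-s * x 0, k * x 0, -x 3])

/-- momenta -/
def Jv (k s : ℝ) (x : Fin 4 → ℝ) : V6 ℝ := (![0, x 1 - k * x 3, x 2 - x 0], ![-s * x 3, k * x 3, x 0])

/-- the tangent vectors -/
def Zv (j : Jt) (k s : ℝ) (v : Fin 4 → ℝ) : V6 ℝ :=
  (![0, j.c0 * v 2, -j.c0 * v 1], ![-s * (j.a0 * v 0 + j.c0 * v 2), k * (j.a0 * v 0 + j.c0 * v 2),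
    -((j.a0 + j.e0 * s ^ 2) * v 3 + j.c0 * k * v 1)])

/-- first component of the derivative of the momenta -/
def lv (j : Jt) (k s : ℝ) (x v : Fin 4 → ℝ) : ℝ :=
  j.c0 * v 2 * (k * x 3 - x 1) + j.c0 * v 1 * (x 2 - x 0)

/-- second component of the derivative of the momenta -/
def mv (j : Jt) (k s : ℝ) (x v : Fin 4 → ℝ) : ℝ :=
  ((j.a0 + j.e0 * s ^ 2) * v 3 + j.c0 * k * v 1) * x 0 - (j.a0 * v 0 + j.c0 * v 2) * x 3

/-- derivative of the momenta -/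
def J1v (j : Jt) (k s : ℝ) (x v : Fin 4 → ℝ) : V6 ℝ :=
  (![lv j k s x v, 0, 0], ![k * mv j k s x v, s * mv j k s x v, 0])

/-- derivative of the field `W v` along `W w` -/
def thv (j : Jt) (k s : ℝ) (v w : Fin 4 → ℝ) : V6 ℝ :=
  (![-(j.c0 ^ 2 * v 1 * w 1) - j.c0 ^ 2 * v 2 * w 2, -(s * j.a0 * j.c1 * v 2 * w 0) - s * j.c0 ^
  2 * v 3 * w 1, k ^ 2 * s * j.e0 * j.c0 * v 0 * w 3 - k * s * j.c0 ^ 2 * v 0 * w 1 - s * j.a0 *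
  j.c0 * v 0 * w 3 + s * j.a0 * j.c0 * v 3 * w 0 + s * j.a0 * j.c1 * v 1 * w 0 - s * j.e0 * j.c0
  * v 0 * w 3], ![k ^ 3 * j.a0 * j.e0 * v 3 * w 3 - k ^ 2 * j.a0 * j.a1 * v 0 * w 0 - k ^ 2 *
  j.a0 * j.c0 * v 3 * w 1 - k ^ 2 * j.a0 * j.c1 * v 2 * w 0 + k ^ 2 * j.e0 * j.c0 * v 1 * w 3 + k
  ^ 2 * j.e0 * j.c0 * v 3 * w 1 - k ^ 2 * j.c0 ^ 2 * v 3 * w 1 - k * j.a0 ^ 2 * v 0 * w 0 - k *
  j.a0 ^ 2 * v 3 * w 3 - k * j.a0 * j.e0 * v 3 * w 3 - k * j.a0 * j.c0 * v 0 * w 2 - k * j.a0 *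
  j.c0 * v 2 * w 0 - k * j.c0 ^ 2 * v 1 * w 1 - k * j.c0 ^ 2 * v 2 * w 2 + j.a0 * j.a1 * v 0 * w
  0 - j.a0 * j.c0 * v 1 * w 3 + j.a0 * j.c1 * v 2 * w 0 - j.e0 * j.c0 * v 1 * w 3 - j.e0 * j.c0 *
  v 3 * w 1 + j.c0 ^ 2 * v 3 * w 1, k ^ 2 * s * j.a0 * j.e0 * v 3 * w 3 + k ^ 2 * s * j.e0 ^ 2 *
  v 3 * w 3 - k * s * j.a0 * j.a1 * v 0 * w 0 - k * s * j.a0 * j.c0 * v 3 * w 1 - k * s * j.a0 *
  j.c1 * v 2 * w 0 - k * s * j.c0 ^ 2 * v 3 * w 1 - s * j.a0 ^ 2 * v 0 * w 0 - s * j.a0 ^ 2 * v 3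
  * w 3 - 2 * s * j.a0 * j.e0 * v 3 * w 3 - s * j.a0 * j.c0 * v 0 * w 2 - s * j.a0 * j.c0 * v 2 *
  w 0 - s * j.e0 ^ 2 * v 3 * w 3 - s * j.c0 ^ 2 * v 2 * w 2, -(k ^ 3 * s * j.e0 ^ 2 * v 0 * w 3)
  + k ^ 3 * s * j.e0 * j.c0 * v 0 * w 3 - k ^ 2 * s * j.a0 * j.e1 * v 3 * w 0 + k ^ 2 * s * j.e0
  * j.c0 * v 0 * w 1 - k ^ 2 * s * j.c0 ^ 2 * v 0 * w 1 + k * s * j.a0 * j.e0 * v 0 * w 3 - 2 * k
  * s * j.a0 * j.e0 * v 3 * w 0 - k * s * j.a0 * j.c0 * v 0 * w 3 + k * s * j.a0 * j.c0 * v 3 * w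
  0 + k * s * j.a0 * j.c1 * v 1 * w 0 + k * s * j.e0 ^ 2 * v 0 * w 3 - k * s * j.e0 * j.c0 * v 0
  * w 3 + s * j.a0 * j.a1 * v 3 * w 0 + s * j.a0 * j.e1 * v 3 * w 0 + s * j.a0 * j.c0 * v 1 * w 0
  - s * j.e0 * j.c0 * v 0 * w 1 + s * j.c0 ^ 2 * v 2 * w 1])

theorem cx6_zc (k s : ℝ) (h : k ^ 2 + s ^ 2 = 1) (x : Fin 4 → ℝ) :
    cx6 (zc k s) (ac k s x) = Jv k s x := by
  refine Prod.ext ?_ ?_
  · funext i; fin_cases i <;> simp [cx6, cx, zc, ac, Jv] <;> ring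
  · funext i; fin_cases i
    · simp [cx6, cx, zc, ac, Jv]
    · simp [cx6, cx, zc, ac, Jv]
    · simp [cx6, cx, zc, ac, Jv]
      linear_combination (x 0) * h

theorem cx6_Zv (j : Jt) (k s : ℝ) (x v : Fin 4 → ℝ) :
    cx6 (Zv j k s v) (ac k s x) = J1v j k s x v := by
  refine Prod.ext ?_ ?_
  · funext i; fin_cases i <;> simp [cx6, cx, Zv, ac, J1v, lv, mv] <;> ring
  · funext i; fin_cases i <;> simp [cx6, cx, Zv, ac, J1v, lv, mv] <;> ring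

theorem W_eval (j : Jt) (k s : ℝ) (h : k ^ 2 + s ^ 2 = 1) (v : Fin 4 → ℝ) :
    cx6 (K0c j.jet (zc k s) (Jv k s v)) (zc k s) = Zv j k s v := by
  refine Prod.ext ?_ ?_
  · funext i; fin_cases i
    · simp [cx6, cx, zc, Jv, Zv, K0c, K1c, K2c, T1c, T2c, T3c, S3c, Bc, Jt.jet, dt]
      try ring
    · simp [cx6, cx, zc, Jv, Zv, K0c, K1c, K2c, T1c, T2c, T3c, S3c, Bc, Jt.jet, dt]
      try linear_combination (0) * h
    · simp [cx6, cx, zc, Jv, Zv, K0c, K1c, K2c, T1c, T2c, T3c, S3c, Bc, Jt.jet, dt]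
      try linear_combination (0) * h
  · funext i; fin_cases i
    · simp [cx6, cx, zc, Jv, Zv, K0c, K1c, K2c, T1c, T2c, T3c, S3c, Bc, Jt.jet, dt]
      try linear_combination (0) * h
    · simp [cx6, cx, zc, Jv, Zv, K0c, K1c, K2c, T1c, T2c, T3c, S3c, Bc, Jt.jet, dt]
      try linear_combination (0) * h
    · simp [cx6, cx, zc, Jv, Zv, K0c, K1c, K2c, T1c, T2c, T3c, S3c, Bc, Jt.jet, dt]
      try linear_combination (-(j.a0 * v 3)) * h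

theorem th_eval (j : Jt) (k s : ℝ) (h : k ^ 2 + s ^ 2 = 1) (v w : Fin 4 → ℝ) :
    cx6 (K1c j.jet (zc k s) (Zv j k s w) (Jv k s v) + K0c j.jet (zc k s) (J1v j k s v w)) (zc k s) +
      cx6 (K0c j.jet (zc k s) (Jv k s v)) (Zv j k s w) = thv j k s v w := by
  refine Prod.ext ?_ ?_
  · funext i; fin_cases i
    · simp [cx6, cx, zc, Jv, Zv, J1v, lv, mv, thv, K0c, K1c, K2c, T1c, T2c, T3c, S3c, Bc, Jt.jet, dt]
      try linear_combination (0) * h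
    · simp [cx6, cx, zc, Jv, Zv, J1v, lv, mv, thv, K0c, K1c, K2c, T1c, T2c, T3c, S3c, Bc, Jt.jet, dt]
      try linear_combination (0) * h
    · simp [cx6, cx, zc, Jv, Zv, J1v, lv, mv, thv, K0c, K1c, K2c, T1c, T2c, T3c, S3c, Bc, Jt.jet, dt]
      try linear_combination (-(s * j.e0 * j.c0 * v 0 * w 3)) * h
  · funext i; fin_cases i
    · simp [cx6, cx, zc, Jv, Zv, J1v, lv, mv, thv, K0c, K1c, K2c, T1c, T2c, T3c, S3c, Bc, Jt.jet, dt]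
      try linear_combination (-(k * j.a0 * j.e0 * v 3 * w 3) + j.a0 * j.a1 * v 0 * w 0 + j.a0 * j.c1 * v 2 * w 0 - j.e0 * j.c0 * v 1 * w 3 - j.e0 * j.c0 * v 3 * w 1 + j.c0 ^ 2 * v 3 * w 1) * h
    · simp [cx6, cx, zc, Jv, Zv, J1v, lv, mv, thv, K0c, K1c, K2c, T1c, T2c, T3c, S3c, Bc, Jt.jet, dt]
      try linear_combination (-(s * j.a0 * j.e0 * v 3 * w 3) - s * j.e0 ^ 2 * v 3 * w 3) * h
    · simp [cx6, cx, zc, Jv, Zv, J1v, lv, mv, thv, K0c, K1c, K2c, T1c, T2c, T3c, S3c, Bc, Jt.jet, dt]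
      try linear_combination (k * s * j.e0 ^ 2 * v 0 * w 3 - k * s * j.e0 * j.c0 * v 0 * w 3 + s * j.a0 * j.a1 * v 3 * w 0 + s * j.a0 * j.e1 * v 3 * w 0) * h

end Pool.Agent.H781.S22
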