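import Pool.Agent.H781.S22.Pos

/-!
Sums of three eigenvalues of the curvature operator.
-/

set_option autoImplicit false
set_option maxHeartbeats 4000000
set_option linter.unusedVariables false
set_option linter.unusedSimpArgs false

noncomputable section

namespace Pool.Agent.H781.S22

open scoped RealInnerProductSpace

/-- positive definiteness of a binary form -/
theorem bin_pos {a b c p q : ℝ} (ha : 0 < a) (hd : b ^ 2 < a * c) (h : ¬ (p = 0 ∧ q = 0)) :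
    0 < a * p ^ 2 + 2 * b * p * q + c * q ^ 2 := by
  have e : a * (a * p ^ 2 + 2 * b * p * q + c * q ^ 2) =
      (a * p + b * q) ^ 2 + (a * c - b ^ 2) * q ^ 2 := by ring
  have h1 : 0 < (a * p + b * q) ^ 2 + (a * c - b ^ 2) * q ^ 2 := by
    by_cases hq : q = 0
    · have hp : p ≠ 0 := fun hp => h ⟨hp, hq⟩
      rw [hq]
      have : 0 < (a * p) ^ 2 := by positivity
      simpa using this
    · have : 0 < (a * c - b ^ 2) * q ^ 2 := mul_pos (by linarith) (by positivity)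
      nlinarith [sq_nonneg (a * p + b * q)]
  rw [← e] at h1
  exact (pos_iff_pos_of_mul_pos h1).1 ha

theorem bin_nonneg {a b c p q : ℝ} (ha : 0 < a) (hd : b ^ 2 < a * c) :
    0 ≤ a * p ^ 2 + 2 * b * p * q + c * q ^ 2 := by
  by_cases h : p = 0 ∧ q = 0
  · rw [h.1, h.2]; simp
  · exact (bin_pos ha hd h).le

/-- the trace bound for the adjugate -/
theorem adj_bound {ι : Type*} (t : Finset ι) (p q : ι → ℝ)
    (hB : ∀ α β : ℝ, ∑ i ∈ t, (α * p i + β * q i) ^ 2 ≤ α ^ 2 + β ^ 2) {a b c : ℝ}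
    (hc : 0 < c) (hd : b ^ 2 < a * c) :
    ∑ i ∈ t, (c * p i ^ 2 - 2 * b * p i * q i + a * q i ^ 2) ≤ a + c := by
  have h1 := hB c (-b)
  have h2 := hB 0 1
  have e : c * ∑ i ∈ t, (c * p i ^ 2 - 2 * b * p i * q i + a * q i ^ 2) =
      ∑ i ∈ t, (c * p i + -b * q i) ^ 2 + (a * c - b ^ 2) * ∑ i ∈ t, (0 * p i + 1 * q i) ^ 2 := by
    rw [Finset.mul_sum, Finset.mul_sum, ← Finset.sum_add_distrib]
    refine Finset.sum_congr rfl fun i _ => ?_
    ring
  have h3 : c * ∑ i ∈ t, (c * p i ^ 2 - 2 * b * p i * q i + a * q i ^ 2) ≤ c * (a + c) := by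
    rw [e]
    nlinarith
  exact le_of_mul_le_mul_left h3 hc

/-- six coordinates of a bivector -/
structure Bi where
  o01 : ℝ
  o02 : ℝ
  o03 : ℝ
  o12 : ℝ
  o13 : ℝ
  o23 : ℝ

/-- the inner product of bivectors -/
def Bi.ip (a b : Bi) : ℝ :=
  a.o01 * b.o01 + a.o02 * b.o02 + a.o03 * b.o03 + a.o12 * b.o12 + a.o13 * b.o13 + a.o23 * b.o23

/-- a bivector as a vector of `ℝ⁶` -/
def Bi.vec (a : Bi) : EuclideanSpace ℝ (Fin 6) :=
  !₂[a.o01, a.o02, a.o03, a.o12, a.o13, a.o23]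

theorem Bi.inner_vec (a b : Bi) : ⟪a.vec, b.vec⟫ = a.ip b := by
  simp [Bi.vec, Bi.ip, PiLp.inner_apply, Fin.sum_univ_six]
  ring

/-- the curvature operator in coordinates -/
def Bi.Q (X Y Z W M : ℝ) (a : Bi) : ℝ :=
  X * (a.o01 ^ 2 + a.o02 ^ 2) + Y * (a.o13 ^ 2 + a.o23 ^ 2) + Z * a.o03 ^ 2 + W * a.o12 ^ 2 +
    4 * M * a.o03 * a.o12 - 2 * M * a.o01 * a.o23 + 2 * M * a.o02 * a.o13

/-- **Ky Fan type bound.** -/
theorem three_pos {X Y Z W M T : ℝ} (hT : 0 < T) (hC : T / 2 < X + Y) (hX : 0 < X + T / 2)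
    (hXY : M ^ 2 < (X + T / 2) * (Y + T / 2)) (hZ : 0 < Z - T)
    (hZW : 4 * M ^ 2 < (Z - T) * (W - T)) {ι : Type*} (t : Finset ι) (ht : t.card = 3)
    (a : ι → Bi) (ho : ∀ i ∈ t, ∀ l ∈ t, i = l ∨ (a i).ip (a l) = 0)
    (hn : ∀ i ∈ t, (a i).ip (a i) = 1) : 0 < ∑ i ∈ t, (a i).Q X Y Z W M := by
  classical
  -- Bessel
  have hon : Orthonormal ℝ (fun i : t => (a i).vec) := by
    rw [orthonormal_iff_ite]
    intro i l
    rw [Bi.inner_vec]
    by_cases hil : i = l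
    · rw [if_pos hil, hil, hn l l.2]
    · rw [if_neg hil]
      rcases ho i i.2 l l.2 with h | h
      · exact absurd (Subtype.ext h) hil
      · exact h
  have bessel : ∀ w : Bi, ∑ i ∈ t, (w.ip (a i)) ^ 2 ≤ w.ip w := by
    intro w
    have h1 := hon.sum_inner_products_le (x := w.vec) (s := Finset.univ)
    have h2 : ∑ i : t, ‖⟪(a i).vec, w.vec⟫‖ ^ 2 = ∑ i ∈ t, (w.ip (a i)) ^ 2 := by
      rw [← Finset.sum_coe_sort t (fun i => (w.ip (a i)) ^ 2)]
      refine Finset.sum_congr rfl fun i _ => ?_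
      rw [real_inner_comm, Bi.inner_vec, Real.norm_eq_abs, sq_abs]
    rw [h2, ← real_inner_self_eq_norm_sq, Bi.inner_vec] at h1
    exact h1
  have b1 : ∀ α β : ℝ, ∑ i ∈ t, (α * (a i).o01 + β * (a i).o23) ^ 2 ≤ α ^ 2 + β ^ 2 := by
    intro α β
    have h := bessel ⟨α, 0, 0, 0, 0, β⟩
    simp only [Bi.ip] at h
    refine le_trans (le_of_eq ?_) (h.trans (le_of_eq (by ring)))
    refine Finset.sum_congr rfl fun i _ => ?_
    ring
  have b2 : ∀ α β : ℝ, ∑ i ∈ t, (α * (a i).o02 + β * (a i).o13) ^ 2 ≤ α ^ 2 + β ^ 2 := by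
    intro α β
    have h := bessel ⟨0, α, 0, 0, β, 0⟩
    simp only [Bi.ip] at h
    refine le_trans (le_of_eq ?_) (h.trans (le_of_eq (by ring)))
    refine Finset.sum_congr rfl fun i _ => ?_
    ring
  have hY : 0 < Y + T / 2 := by
    have : 0 < (X + T / 2) * (Y + T / 2) := lt_of_le_of_lt (sq_nonneg M) hXY
    exact (pos_iff_pos_of_mul_pos this).1 hX
  have c1 := adj_bound t (fun i => (a i).o01) (fun i => (a i).o23) b1 (a := X + T / 2) (b := -M)
    (c := Y + T / 2) hY (by rw [neg_sq]; exact hXY)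
  have c2 := adj_bound t (fun i => (a i).o02) (fun i => (a i).o13) b2 (a := X + T / 2) (b := M)
    (c := Y + T / 2) hY hXY
  set c : ℝ := (3 * T / 2) / (X + Y + T) with hcdef
  have hden : 0 < X + Y + T := by linarith
  have hc0 : 0 < c := div_pos (by linarith) hden
  have hc1 : c < 1 := by
    rw [hcdef, div_lt_one hden]
    linarith
  have hcT : c * (X + Y + T) = 3 * T / 2 := div_mul_cancel₀ _ hden.ne'
  -- decomposition
  have dec : ∀ i, (a i).Q X Y Z W M = T * (a i).ip (a i) +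
      ((Z - T) * (a i).o03 ^ 2 + 2 * (2 * M) * (a i).o03 * (a i).o12 + (W - T) * (a i).o12 ^ 2) +
      (1 - c) * ((X + T / 2) * (a i).o01 ^ 2 + 2 * (-M) * (a i).o01 * (a i).o23 +
        (Y + T / 2) * (a i).o23 ^ 2) +
      (1 - c) * ((X + T / 2) * (a i).o02 ^ 2 + 2 * M * (a i).o02 * (a i).o13 +
        (Y + T / 2) * (a i).o13 ^ 2) -
      c * ((Y + T / 2) * (a i).o01 ^ 2 - 2 * (-M) * (a i).o01 * (a i).o23 +
        (X + T / 2) * (a i).o23 ^ 2) -
      c * ((Y + T / 2) * (a i).o02 ^ 2 - 2 * M * (a i).o02 * (a i).o13 +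
        (X + T / 2) * (a i).o13 ^ 2) := by
    intro i
    simp only [Bi.Q, Bi.ip]
    linear_combination ((a i).o01 ^ 2 + (a i).o23 ^ 2 + (a i).o02 ^ 2 + (a i).o13 ^ 2) * hcT
  have pos1 : ∀ i ∈ t, 0 <
      ((Z - T) * (a i).o03 ^ 2 + 2 * (2 * M) * (a i).o03 * (a i).o12 + (W - T) * (a i).o12 ^ 2) +
      (1 - c) * ((X + T / 2) * (a i).o01 ^ 2 + 2 * (-M) * (a i).o01 * (a i).o23 +
        (Y + T / 2) * (a i).o23 ^ 2) +
      (1 - c) * ((X + T / 2) * (a i).o02 ^ 2 + 2 * M * (a i).o02 * (a i).o13 +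
        (Y + T / 2) * (a i).o13 ^ 2) := by
    intro i hi
    have hcc : 0 < 1 - c := by linarith
    have n1 : 0 ≤ (Z - T) * (a i).o03 ^ 2 + 2 * (2 * M) * (a i).o03 * (a i).o12 +
        (W - T) * (a i).o12 ^ 2 := bin_nonneg hZ (by nlinarith)
    have n2 : 0 ≤ (X + T / 2) * (a i).o01 ^ 2 + 2 * (-M) * (a i).o01 * (a i).o23 +
        (Y + T / 2) * (a i).o23 ^ 2 := bin_nonneg hX (by rw [neg_sq]; exact hXY)
    have n3 : 0 ≤ (X + T / 2) * (a i).o02 ^ 2 + 2 * M * (a i).o02 * (a i).o13 +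
        (Y + T / 2) * (a i).o13 ^ 2 := bin_nonneg hX hXY
    have m2 := mul_nonneg hcc.le n2
    have m3 := mul_nonneg hcc.le n3
    by_cases z1 : (a i).o03 = 0 ∧ (a i).o12 = 0
    · by_cases z2 : (a i).o01 = 0 ∧ (a i).o23 = 0
      · by_cases z3 : (a i).o02 = 0 ∧ (a i).o13 = 0
        · exfalso
          have := hn i hi
          simp only [Bi.ip, z1.1, z1.2, z2.1, z2.2, z3.1, z3.2] at this
          norm_num at this
        · have := mul_pos hcc (bin_pos hX hXY z3)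
          linarith
      · have := mul_pos hcc (bin_pos hX (by rw [neg_sq]; exact hXY : (-M) ^ 2 < _) z2)
        linarith
    · have := bin_pos hZ (by nlinarith : (2 * M) ^ 2 < (Z - T) * (W - T)) z1
      linarith
  have hne : t.Nonempty := by
    rw [← Finset.card_pos, ht]; norm_num
  have hsum := Finset.sum_pos pos1 hne
  have hT3 : ∑ i ∈ t, T * (a i).ip (a i) = 3 * T := by
    have : ∑ i ∈ t, T * (a i).ip (a i) = ∑ i ∈ t, T :=
      Finset.sum_congr rfl fun i hi => by rw [hn i hi, mul_one]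
    rw [this, Finset.sum_const, ht]
    simp
  have htot : ∑ i ∈ t, (a i).Q X Y Z W M = ∑ i ∈ t, T * (a i).ip (a i) +
      ∑ i ∈ t, (((Z - T) * (a i).o03 ^ 2 + 2 * (2 * M) * (a i).o03 * (a i).o12 +
        (W - T) * (a i).o12 ^ 2) +
      (1 - c) * ((X + T / 2) * (a i).o01 ^ 2 + 2 * (-M) * (a i).o01 * (a i).o23 +
        (Y + T / 2) * (a i).o23 ^ 2) +
      (1 - c) * ((X + T / 2) * (a i).o02 ^ 2 + 2 * M * (a i).o02 * (a i).o13 +
        (Y + T / 2) * (a i).o13 ^ 2)) -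
      c * ∑ i ∈ t, ((Y + T / 2) * (a i).o01 ^ 2 - 2 * (-M) * (a i).o01 * (a i).o23 +
        (X + T / 2) * (a i).o23 ^ 2) -
      c * ∑ i ∈ t, ((Y + T / 2) * (a i).o02 ^ 2 - 2 * M * (a i).o02 * (a i).o13 +
        (X + T / 2) * (a i).o13 ^ 2) := by
    rw [Finset.mul_sum, Finset.mul_sum, ← Finset.sum_add_distrib, ← Finset.sum_sub_distrib,
      ← Finset.sum_sub_distrib]
    refine Finset.sum_congr rfl fun i _ => ?_
    rw [dec i]
    ring
  rw [htot, hT3]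
  have d1 := mul_le_mul_of_nonneg_left c1 hc0.le
  have d2 := mul_le_mul_of_nonneg_left c2 hc0.le
  have d3 : c * (X + T / 2 + (Y + T / 2)) = 3 * T / 2 := by
    rw [← hcT]; ring
  rw [d3] at d1 d2
  linarith

end Pool.Agent.H781.S22
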