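import Pool.Agent.H781.S22.Orth

/-!
The polynomial inequalities for the explicit metric.
-/

set_option autoImplicit false
set_option maxHeartbeats 4000000
set_option linter.unusedVariables false
set_option linter.unusedSimpArgs false

noncomputable section

namespace Pool.Agent.H781.S22

/-- the comparison function -/
def PT (k : ℝ) : ℝ := 39 / 20 * (PX k + PY k)

theorem bern_XY (v w : ℝ) (hv : 0 ≤ v) (hw : 0 ≤ w) (h : v + w = 1) :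
    0 <
      707 * w ^ 7 + 5305 * v * w ^ 6 + 17462 * v ^ 2 * w ^ 5 + 32580 * v ^ 3 * w ^ 4 + 37055 *
      v ^ 4 * w ^ 3 + 25577 * v ^ 5 * w ^ 2 + 11958 * v ^ 6 * w + 4320 * v ^ 7 := by
  rcases hv.eq_or_lt with h0 | h0
  · have : w = 1 := by linarith
    rw [← h0, this]
    norm_num
  · positivity

theorem pos_XY (k : ℝ) (hk : k ^ 2 ≤ 1) : 0 < PX k + PY k := by
  have h := bern_XY (k ^ 2) (1 - k ^ 2) (sq_nonneg k) (by linarith) (by ring)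
  have e : PX k + PY k = (707 * (1 - k ^ 2) ^ 7 + 5305 * (k ^ 2) * (1 - k ^ 2) ^ 6 + 17462 * (k ^ 2) ^ 2 * (1 - k ^
      2) ^ 5 + 32580 * (k ^ 2) ^ 3 * (1 - k ^ 2) ^ 4 + 37055 * (k ^ 2) ^ 4 * (1 - k ^ 2) ^ 3 +
      25577 * (k ^ 2) ^ 5 * (1 - k ^ 2) ^ 2 + 11958 * (k ^ 2) ^ 6 * (1 - k ^ 2) + 4320 * (k ^
      2) ^ 7) / 14112 := by
    simp only [PT, PX, PY, PZ, PW, PM, Gf, Gf1, Gf2, Ga, Ga1, Ga2, ph, ph1, ph2]
    ring
  rw [e]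
  exact div_pos h (by norm_num)

theorem bern_WT (v w : ℝ) (hv : 0 ≤ v) (hw : 0 ≤ w) (h : v + w = 1) :
    0 <
      81627 * w ^ 7 + 651445 * v * w ^ 6 + 2189582 * v ^ 2 * w ^ 5 + 4029780 * v ^ 3 * w ^ 4 +
      4395255 * v ^ 4 * w ^ 3 + 2845397 * v ^ 5 * w ^ 2 + 955998 * v ^ 6 * w + 73440 * v ^ 7 := by
  rcases hv.eq_or_lt with h0 | h0
  · have : w = 1 := by linarith
    rw [← h0, this]
    norm_num
  · positivity

theorem pos_WT (k : ℝ) (hk : k ^ 2 ≤ 1) : 0 < PW k - PT k := by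
  have h := bern_WT (k ^ 2) (1 - k ^ 2) (sq_nonneg k) (by linarith) (by ring)
  have e : PW k - PT k = (81627 * (1 - k ^ 2) ^ 7 + 651445 * (k ^ 2) * (1 - k ^ 2) ^ 6 + 2189582 * (k ^ 2) ^ 2 * (1
      - k ^ 2) ^ 5 + 4029780 * (k ^ 2) ^ 3 * (1 - k ^ 2) ^ 4 + 4395255 * (k ^ 2) ^ 4 * (1 - k ^
      2) ^ 3 + 2845397 * (k ^ 2) ^ 5 * (1 - k ^ 2) ^ 2 + 955998 * (k ^ 2) ^ 6 * (1 - k ^ 2) +
      73440 * (k ^ 2) ^ 7) / 282240 := by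
    simp only [PT, PX, PY, PZ, PW, PM, Gf, Gf1, Gf2, Ga, Ga1, Ga2, ph, ph1, ph2]
    ring
  rw [e]
  exact div_pos h (by norm_num)

theorem bern_p1 (v w : ℝ) (hv : 0 ≤ v) (hw : 0 ≤ w) (h : v + w = 1) :
    0 <
      80226769 * w ^ 14 + 908443270 * v * w ^ 13 + 4594722333 * v ^ 2 * w ^ 12 + 14088124740 *
      v ^ 3 * w ^ 11 + 32118968534 * v ^ 4 * w ^ 10 + 68584431188 * v ^ 5 * w ^ 9 +
      145643079162 * v ^ 6 * w ^ 8 + 255416444048 * v ^ 7 * w ^ 7 + 313550193497 * v ^ 8 * w ^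
      6 + 250954753230 * v ^ 9 * w ^ 5 + 137077073229 * v ^ 10 * w ^ 4 + 58769443692 * v ^ 11 *
      w ^ 3 + 12464375364 * v ^ 12 * w ^ 2 + 1992366720 * v ^ 13 * w + 6438528000 * v ^ 14 := by
  rcases hv.eq_or_lt with h0 | h0
  · have : w = 1 := by linarith
    rw [← h0, this]
    norm_num
  · positivity

theorem pos_p1 (k : ℝ) (hk : k ^ 2 ≤ 1) : 0 < (PX k + PT k / 2) * (PY k + PT k / 2) - PM k ^ 2 := by
  have h := bern_p1 (k ^ 2) (1 - k ^ 2) (sq_nonneg k) (by linarith) (by ring)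
  have e : (PX k + PT k / 2) * (PY k + PT k / 2) - PM k ^ 2 = (80226769 * (1 - k ^ 2) ^ 14 + 908443270 * (k ^ 2) * (1 - k ^ 2) ^ 13 + 4594722333 * (k ^
      2) ^ 2 * (1 - k ^ 2) ^ 12 + 14088124740 * (k ^ 2) ^ 3 * (1 - k ^ 2) ^ 11 + 32118968534 *
      (k ^ 2) ^ 4 * (1 - k ^ 2) ^ 10 + 68584431188 * (k ^ 2) ^ 5 * (1 - k ^ 2) ^ 9 +
      145643079162 * (k ^ 2) ^ 6 * (1 - k ^ 2) ^ 8 + 255416444048 * (k ^ 2) ^ 7 * (1 - k ^ 2) ^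
      7 + 313550193497 * (k ^ 2) ^ 8 * (1 - k ^ 2) ^ 6 + 250954753230 * (k ^ 2) ^ 9 * (1 - k ^
      2) ^ 5 + 137077073229 * (k ^ 2) ^ 10 * (1 - k ^ 2) ^ 4 + 58769443692 * (k ^ 2) ^ 11 * (1
      - k ^ 2) ^ 3 + 12464375364 * (k ^ 2) ^ 12 * (1 - k ^ 2) ^ 2 + 1992366720 * (k ^ 2) ^ 13 *
      (1 - k ^ 2) + 6438528000 * (k ^ 2) ^ 14) / 318637670400 := by
    simp only [PT, PX, PY, PZ, PW, PM, Gf, Gf1, Gf2, Ga, Ga1, Ga2, ph, ph1, ph2]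
    ring
  rw [e]
  exact div_pos h (by norm_num)

theorem bern_p3 (v w : ℝ) (hv : 0 ≤ v) (hw : 0 ≤ w) (h : v + w = 1) :
    0 <
      106686489 * w ^ 14 + 1377881210 * v * w ^ 13 + 9624879113 * v ^ 2 * w ^ 12 + 46249063380
      * v ^ 3 * w ^ 11 + 160405433894 * v ^ 4 * w ^ 10 + 484000124108 * v ^ 5 * w ^ 9 +
      1552170638562 * v ^ 6 * w ^ 8 + 4625373665888 * v ^ 7 * w ^ 7 + 10400292672017 * v ^ 8 *
      w ^ 6 + 16322827093650 * v ^ 9 * w ^ 5 + 17520896478729 * v ^ 10 * w ^ 4 + 12547302368172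
      * v ^ 11 * w ^ 3 + 5571771350004 * v ^ 12 * w ^ 2 + 1238329814400 * v ^ 13 * w +
      49237632000 * v ^ 14 := by
  rcases hv.eq_or_lt with h0 | h0
  · have : w = 1 := by linarith
    rw [← h0, this]
    norm_num
  · positivity

theorem pos_p3 (k : ℝ) (hk : k ^ 2 ≤ 1) : 0 < (PZ k - PT k) * (PW k - PT k) - 4 * PM k ^ 2 := by
  have h := bern_p3 (k ^ 2) (1 - k ^ 2) (sq_nonneg k) (by linarith) (by ring)
  have e : (PZ k - PT k) * (PW k - PT k) - 4 * PM k ^ 2 = (106686489 * (1 - k ^ 2) ^ 14 + 1377881210 * (k ^ 2) * (1 - k ^ 2) ^ 13 + 9624879113 * (k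
      ^ 2) ^ 2 * (1 - k ^ 2) ^ 12 + 46249063380 * (k ^ 2) ^ 3 * (1 - k ^ 2) ^ 11 + 160405433894
      * (k ^ 2) ^ 4 * (1 - k ^ 2) ^ 10 + 484000124108 * (k ^ 2) ^ 5 * (1 - k ^ 2) ^ 9 +
      1552170638562 * (k ^ 2) ^ 6 * (1 - k ^ 2) ^ 8 + 4625373665888 * (k ^ 2) ^ 7 * (1 - k ^ 2)
      ^ 7 + 10400292672017 * (k ^ 2) ^ 8 * (1 - k ^ 2) ^ 6 + 16322827093650 * (k ^ 2) ^ 9 * (1
      - k ^ 2) ^ 5 + 17520896478729 * (k ^ 2) ^ 10 * (1 - k ^ 2) ^ 4 + 12547302368172 * (k ^ 2)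
      ^ 11 * (1 - k ^ 2) ^ 3 + 5571771350004 * (k ^ 2) ^ 12 * (1 - k ^ 2) ^ 2 + 1238329814400 *
      (k ^ 2) ^ 13 * (1 - k ^ 2) + 49237632000 * (k ^ 2) ^ 14) / 79659417600 := by
    simp only [PT, PX, PY, PZ, PW, PM, Gf, Gf1, Gf2, Ga, Ga1, Ga2, ph, ph1, ph2]
    ring
  rw [e]
  exact div_pos h (by norm_num)

theorem posT (k : ℝ) (hk : k ^ 2 ≤ 1) : 0 < PT k := by
  have := pos_XY k hk
  unfold PT
  linarith

theorem posC (k : ℝ) (hk : k ^ 2 ≤ 1) : PT k / 2 < PX k + PY k := by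
  have := pos_XY k hk
  unfold PT
  linarith

theorem posX (k : ℝ) (hk : k ^ 2 ≤ 1) : 0 < PX k + PT k / 2 := by
  have h1 := pos_p1 k hk
  have h2 := pos_XY k hk
  have h3 := posT k hk
  by_contra hc
  push Not at hc
  have h4 : 0 < PY k + PT k / 2 := by linarith
  nlinarith [sq_nonneg (PM k), mul_nonneg (neg_nonneg.2 hc) h4.le]

theorem posZ (k : ℝ) (hk : k ^ 2 ≤ 1) : 0 < PZ k - PT k := by
  have h1 := pos_p3 k hk
  have h2 := pos_WT k hk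
  by_contra hc
  push Not at hc
  nlinarith [sq_nonneg (PM k), mul_nonneg (neg_nonneg.2 hc) h2.le]

end Pool.Agent.H781.S22
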