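import Pool.Agent.H781.S22.Orth
import Pool.Agent.H781.S22.Pos
import Pool.Agent.H781.S22.KyFan

/-!
Existence of adapted frames, and of the metric.
-/

open Bundle Manifold ContDiff ContinuousLinearMap Filter VectorField Metric
open scoped Topology RealInnerProductSpace

set_option autoImplicit false
set_option synthInstance.maxHeartbeats 400000
set_option maxHeartbeats 4000000
set_option linter.unusedSectionVars false
set_option linter.unusedVariables false
set_option linter.unusedSimpArgs false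

noncomputable section

namespace Pool.Agent.H781.S22

open Pool.Agent.H893R5.HO Pool.Agent.H821R2 Pool.Agent.H821R3 HopfPP

theorem triple3 (a b c : U3) : cr3 a (cr3 b c) = ⟪a, c⟫ • b - ⟪a, b⟫ • c := by
  refine ext_U3 ?_ ?_ ?_ <;> simp [inner_U3] <;> ring

theorem triple3' (a b c : U3) : cr3 (cr3 a b) c = ⟪a, c⟫ • b - ⟪b, c⟫ • a := by
  refine ext_U3 ?_ ?_ ?_ <;> simp [inner_U3] <;> ring

/-- an orthonormal pair extends to a right-handed orthonormal frame -/
theorem Fr.of_pair {x e : U3} (hx : ⟪x, x⟫ = 1) (he : ⟪e, e⟫ = 1) (hxe : ⟪x, e⟫ = 0) :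
    Fr x e (cr3 x e) where
  xx := hx
  ee := he
  nn := by rw [lagrange, hx, he, hxe]; ring
  xe := hxe
  xn := by
    rw [real_inner_comm, cr3_adj]
    have : cr3 e x = -cr3 x e := by refine ext_U3 ?_ ?_ ?_ <;> simp <;> ring
    rw [this, inner_neg_right, real_inner_comm, cr3_adj]
    have h2 : cr3 e x = -cr3 x e := this
    have h3 := cr3_orth e x
    rw [inner_U3]
    simp
    ring
  en := by
    rw [inner_U3]
    simp
    ring
  hn := rfl
  hx := by
    rw [triple3, he, real_inner_comm, hxe]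
    simp
  he := by
    rw [triple3', hx, real_inner_comm, hxe]
    simp

/-- a unit vector orthogonal to a unit vector -/
theorem exists_unit_orth {x : U3} (hx : ⟪x, x⟫ = 1) : ∃ e : U3, ⟪e, e⟫ = 1 ∧ ⟪x, e⟫ = 0 := by
  have key : ∃ v : U3, v ≠ 0 ∧ ⟪x, v⟫ = 0 := by
    by_contra hcon
    push Not at hcon
    have h1 : ∀ w : U3, cr3 w x = 0 := by
      intro w
      by_contra h
      exact hcon _ h (cr3_orth w x)
    have h2 := cr3_norm x x
    have h3 : ∀ w : U3, ⟪w, x⟫ ^ 2 = ⟪w, w⟫ := by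
      intro w
      have := cr3_norm w x
      rw [h1 w, hx] at this
      simpa using this
    have a0 := h3 (EuclideanSpace.single 0 1)
    have a1 := h3 (EuclideanSpace.single 1 1)
    rw [inner_U3, inner_U3] at a0 a1
    rw [inner_U3] at hx
    simp at a0 a1
    have b0 : x.ofLp 0 * x.ofLp 0 = 1 := by rcases a0 with h | h <;> rw [h] <;> norm_num
    have b1 : x.ofLp 1 * x.ofLp 1 = 1 := by rcases a1 with h | h <;> rw [h] <;> norm_num
    nlinarith [mul_self_nonneg (x.ofLp 2)]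
  obtain ⟨v, hv, hxv⟩ := key
  have hn : ‖v‖ ≠ 0 := norm_ne_zero_iff.2 hv
  refine ⟨‖v‖⁻¹ • v, ?_, ?_⟩
  · rw [real_inner_smul_left, real_inner_smul_right, real_inner_self_eq_norm_sq]
    field_simp
  · rw [real_inner_smul_right, hxv, mul_zero]

/-- every point of `S² × S²` has an adapted frame -/
theorem exists_Ad (p : M22) : ∃ x e n : U3, ∃ k s : ℝ, Ad x e n k s ∧ X22.j p = pt x e k s := by
  obtain ⟨x, y⟩ := p
  have hx : ⟪(x : U3), (x : U3)⟫ = 1 := inner_self_sph x
  have hy : ⟪(y : U3), (y : U3)⟫ = 1 := inner_self_sph y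
  set k : ℝ := ⟪(x : U3), (y : U3)⟫ with hk
  set r : U3 := (y : U3) - k • (x : U3) with hr
  have hxr : ⟪(x : U3), r⟫ = 0 := by
    rw [hr, inner_sub_right, real_inner_smul_right, hx, ← hk]; ring
  have hyr : (y : U3) = k • (x : U3) + r := by rw [hr]; abel
  have hrr : ⟪r, r⟫ = 1 - k ^ 2 := by
    have h := hy
    rw [hyr] at h
    simp only [inner_add_left, inner_add_right, real_inner_smul_left, real_inner_smul_right,
      hx, hxr, real_inner_comm (x : U3) r] at h
    linarith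
  by_cases h0 : r = 0
  · obtain ⟨e, he, hxe⟩ := exists_unit_orth hx
    refine ⟨x, e, cr3 x e, k, 0, ⟨Fr.of_pair hx he hxe, ?_⟩, ?_⟩
    · rw [h0, inner_zero_left] at hrr
      linarith
    · refine Prod.ext rfl ?_
      change (y : U3) = k • (x : U3) + (0 : ℝ) • e
      rw [zero_smul]
      rw [h0] at hyr
      exact hyr
  · have hn : ‖r‖ ≠ 0 := norm_ne_zero_iff.2 h0
    refine ⟨x, ‖r‖⁻¹ • r, cr3 x (‖r‖⁻¹ • r), k, ‖r‖, ⟨Fr.of_pair hx ?_ ?_, ?_⟩, ?_⟩
    · rw [real_inner_smul_left, real_inner_smul_right, real_inner_self_eq_norm_sq]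
      field_simp
    · rw [real_inner_smul_right, hxr, mul_zero]
    · rw [← real_inner_self_eq_norm_sq, hrr]; ring
    · refine Prod.ext rfl ?_
      change (y : U3) = k • (x : U3) + ‖r‖ • ‖r‖⁻¹ • r
      rw [smul_inv_smul₀ hn]
      exact hyr

/-- the coefficient of `⟨M,x⟩²` is nonnegative -/
theorem b_nonneg (u : ℝ) : 0 ≤ ka u * ((Ga u)⁻¹ + 1) - (ph u)⁻¹ := by
  have h1 := Ga_pos u
  have h2 := ph_pos u
  have h3 : Ga u ≤ ka u * (1 + Ga u) * ph u := by
    have : 0 ≤ ka u * (1 + Ga u) * ph u - Ga u := by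
      unfold ka Ga ph
      ring_nf
      positivity
    linarith
  have e : ka u * ((Ga u)⁻¹ + 1) - (ph u)⁻¹ = (ka u * (1 + Ga u) * ph u - Ga u) / (Ga u * ph u) := by
    field_simp
  rw [e]
  exact div_nonneg (by linarith) (mul_pos h1 h2).le

theorem SD_K_apply (z d : A6) : SD.K z d = ((ph (uu z))⁻¹ • (d.1 + d.2),
    (ph (uu z))⁻¹ • (d.1 + d.2) + Ga (uu z) • d.2 +
      ((ka (uu z) * ((Ga (uu z))⁻¹ + 1) - (ph (uu z))⁻¹) * ⟪z.1, d.2⟫) • z.1) :=
  Kc_apply z d

theorem Q_SD_K (z c d : A6) : m22.Q c (SD.K z d) =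
    (ph (uu z))⁻¹ * ⟪c.1 + c.2, d.1 + d.2⟫ + Ga (uu z) * ⟪c.2, d.2⟫ +
      (ka (uu z) * ((Ga (uu z))⁻¹ + 1) - (ph (uu z))⁻¹) * (⟪z.1, c.2⟫ * ⟪z.1, d.2⟫) := by
  rw [SD_K_apply, m22_Q]
  simp only [inner_add_right, inner_add_left, real_inner_smul_right]
  rw [real_inner_comm c.2 z.1]
  ring

/-- the cometric is positive -/
theorem com22 : X22.Com SD.W := by
  refine m22.com SD.sK ?_ ?_
  · intro z c d
    rw [m22.Qsymm, Q_SD_K, Q_SD_K, real_inner_comm (c.1 + c.2), real_inner_comm c.2]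
    ring
  · intro p c hc
    rw [Q_SD_K]
    set u := uu (X22.j p)
    have h1 := inv_pos.2 (ph_pos u)
    have h2 := Ga_pos u
    have h3 := b_nonneg u
    have h4 : (0 : ℝ) ≤ ⟪c.1 + c.2, c.1 + c.2⟫ := real_inner_self_nonneg
    have h5 : (0 : ℝ) ≤ ⟪c.2, c.2⟫ := real_inner_self_nonneg
    have h6 : 0 ≤ ⟪(X22.j p).1, c.2⟫ * ⟪(X22.j p).1, c.2⟫ := mul_self_nonneg _
    by_cases h : c.2 = 0
    · have h7 : c.1 ≠ 0 := fun h' => hc (Prod.ext h' h)
      have h8 : 0 < ⟪c.1 + c.2, c.1 + c.2⟫ := by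
        rw [h, add_zero]
        exact lt_of_le_of_ne real_inner_self_nonneg fun h9 => h7 (inner_self_eq_zero.1 h9.symm)
      have := mul_pos h1 h8
      have := mul_nonneg h2.le h5
      have := mul_nonneg h3 h6
      linarith
    · have h8 : 0 < ⟪c.2, c.2⟫ :=
        lt_of_le_of_ne real_inner_self_nonneg fun h9 => h (inner_self_eq_zero.1 h9.symm)
      have := mul_nonneg h1.le h4
      have := mul_pos h2 h8
      have := mul_nonneg h3 h6
      linarith

end Pool.Agent.H781.S22
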