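import Pool.Agent.H781.S22.Scal

/-!
The polynomial identity behind the curvature formula.
-/

set_option autoImplicit false
set_option synthInstance.maxHeartbeats 400000
set_option maxHeartbeats 4000000
set_option linter.unusedSectionVars false
set_option linter.unusedVariables false
set_option linter.unusedSimpArgs false

noncomputable section

namespace Pool.Agent.H781.S22

/-- first derivative of the cometric coefficient `⟨x, W y⟩` along `W v` -/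
def F1k (j : Jt) (k s : ℝ) (x y v : Fin 4 → ℝ) : ℝ :=
  s1 j k s x v y + s4 j k s x y v + s1 j k s y v x

/-- second derivative of the cometric coefficient `⟨x, W y⟩` along `W v`, then `W w` -/
def F2k (j : Jt) (k s : ℝ) (x y v w : Fin 4 → ℝ) : ℝ :=
  s6 j k s x y v w + s7 j k s x y v w + s6 j k s y x v w +
  (s3 j k s x v y w + s2 j k s x v y w + s3 j k s x w y v + s5 j k s x y w v +
    s3 j k s y w x v + s2 j k s x w y v + s3 j k s y v x w)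

/-- gradient coefficient -/
def g0 (j : Jt) (k : ℝ) (x y : Fin 4 → ℝ) : ℝ :=
  -(j.a1 * (x 0 * y 0 + x 3 * y 3) + (j.e1 * (1 - k ^ 2) - 2 * k * j.e0) * (x 3 * y 3) +
    j.c1 * (x 1 * y 1 + x 2 * y 2) + j.c0 * (x 1 * y 3 + x 3 * y 1))

/-- gradient coefficient -/
def g1 (j : Jt) (k : ℝ) (x y : Fin 4 → ℝ) : ℝ :=
  j.e0 * (1 - k ^ 2) * (x 0 * y 3 + x 3 * y 0) + k * j.c0 * (x 0 * y 1 + x 1 * y 0) -
    j.c0 * (x 2 * y 3 + x 3 * y 2)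

/-- gradient coefficient -/
def g3 (j : Jt) (k : ℝ) (x y : Fin 4 → ℝ) : ℝ :=
  j.c0 * (x 0 * y 1 + x 1 * y 0) - k * j.e0 * (x 0 * y 3 + x 3 * y 0)

/-- `|n|²` of the third covector -/
def DD (j : Jt) (k : ℝ) : ℝ := j.a0 + j.e0 * (1 - k ^ 2)

/-- derivative of `DD` -/
def D1 (j : Jt) (k : ℝ) : ℝ := j.a1 + j.e1 * (1 - k ^ 2) - 2 * k * j.e0

/-- Plücker coordinates -/
def pl (x y : Fin 4 → ℝ) (i l : Fin 4) : ℝ := x i * y l - x l * y i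

/-- coefficient -/
def cX (j : Jt) (k : ℝ) : ℝ :=
  j.a0 * (1 / 2 * (1 - k ^ 2) * (j.a0 * j.c0 * j.c2 + 1 / 2 * j.a1 * j.c0 * j.c1) -
    1 / 2 * k * j.a0 * j.c0 * j.c1 - 3 / 4 * (1 - k ^ 2) * j.a0 * j.c1 ^ 2)

/-- coefficient -/
def cY (j : Jt) (k : ℝ) : ℝ :=
  -(1 / 4) * k ^ 4 * j.a0 * j.e1 * j.c0 * j.c1 + 1 / 4 * k ^ 2 * j.a0 * j.a1 * j.c0 * j.c1 +
    1 / 2 * k ^ 2 * j.a0 * j.e1 * j.c0 * j.c1 - 1 / 4 * k ^ 2 * j.c0 ^ 4 -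
    1 / 2 * k * j.a0 ^ 2 * j.c0 * j.c1 - 1 / 4 * j.a0 * j.a1 * j.c0 * j.c1 -
    1 / 4 * j.a0 * j.e1 * j.c0 * j.c1 + 1 / 4 * j.c0 ^ 4

/-- coefficient -/
def cZ (j : Jt) (k : ℝ) : ℝ :=
  1 / 2 * k ^ 4 * j.a0 ^ 2 * j.e2 * j.c0 + 1 / 4 * k ^ 4 * j.a0 * j.a1 * j.e1 * j.c0 +
    7 / 2 * k ^ 3 * j.a0 ^ 2 * j.e1 * j.c0 - 1 / 2 * k ^ 2 * j.a0 ^ 2 * j.a2 * j.c0 +
    3 * k ^ 2 * j.a0 ^ 2 * j.e0 * j.c0 - k ^ 2 * j.a0 ^ 2 * j.e2 * j.c0 -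
    1 / 4 * k ^ 2 * j.a0 * j.a1 ^ 2 * j.c0 - 1 / 2 * k ^ 2 * j.a0 * j.a1 * j.e1 * j.c0 -
    k * j.a0 ^ 2 * j.a1 * j.c0 - 7 / 2 * k * j.a0 ^ 2 * j.e1 * j.c0 + j.a0 ^ 3 * j.c0 +
    1 / 2 * j.a0 ^ 2 * j.a2 * j.c0 + 1 / 2 * j.a0 ^ 2 * j.e2 * j.c0 +
    1 / 4 * j.a0 * j.a1 ^ 2 * j.c0 + 1 / 4 * j.a0 * j.a1 * j.e1 * j.c0

/-- coefficient -/
def cW (j : Jt) (k : ℝ) : ℝ :=
  1 / 4 * k ^ 2 * j.a0 * j.c0 * j.c1 ^ 2 - 1 / 4 * j.a0 * j.c0 * j.c1 ^ 2 + j.c0 ^ 4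

/-- coefficient -/
def cM (j : Jt) (k : ℝ) : ℝ :=
  -(3 / 2) * k ^ 2 * j.a0 * j.c0 ^ 2 * j.c1 - 3 * k * j.a0 * j.c0 ^ 3 +
    3 / 2 * j.a0 * j.c0 ^ 2 * j.c1

/-- **The polynomial identity.** -/
theorem ident (j : Jt) (k s : ℝ) (x y : Fin 4 → ℝ) :
    j.c0 * (1 / 2 * F2k j k s y y x x + 1 / 2 * F2k j k s x x y y -
      1 / 2 * (F2k j k s x y y x + F2k j k s x y x y) -
      1 / 4 * (1 - k ^ 2) * (j.a0 * g0 j k x x * g0 j k y y + j.c0 * g1 j k x x * g1 j k y y +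
        DD j k * g3 j k x x * g3 j k y y) +
      1 / 4 * (1 - k ^ 2) * (j.a0 * g0 j k x y ^ 2 + j.c0 * g1 j k x y ^ 2 +
        DD j k * g3 j k x y ^ 2)) =
    cX j k * (pl x y 0 1 ^ 2 + pl x y 0 2 ^ 2) + cY j k * (pl x y 1 3 ^ 2 + pl x y 2 3 ^ 2) +
    cZ j k * pl x y 0 3 ^ 2 + cW j k * pl x y 1 2 ^ 2 + cM j k * pl x y 0 3 * pl x y 1 2 +
    3 / 4 * (1 - k ^ 2) * (j.c0 * j.a0 * (j.c0 * pl x y 1 3) ^ 2 +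
      ((k * j.c0 ^ 2 + j.a0 * j.c1) * pl x y 0 1 + j.c0 * (j.a0 + DD j k) * pl x y 0 3) ^ 2 +
      (j.c0 ^ 2 * pl x y 1 3 + j.a0 * j.c1 * pl x y 0 2) ^ 2 +
      j.c0 * DD j k * (j.c0 * pl x y 0 1 - k * j.e0 * pl x y 0 3) ^ 2 +
      2 * j.c0 * (j.c0 * pl x y 0 1 - k * j.e0 * pl x y 0 3) *
        (j.a0 * D1 j k * pl x y 0 3 + j.c0 ^ 2 * pl x y 1 2)) := by
  simp only [F2k, s1, s2, s3, s4, s5, s6, s7, g0, g1, g3, DD, D1, cX, cY, cZ, cW, cM, pl]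
  ring

end Pool.Agent.H781.S22
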