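import Pool.Agent.H781.S22.Point

/-!
The curvature formula for the invariant metrics on `S² × S²`.
-/

open Bundle Manifold ContDiff ContinuousLinearMap Filter VectorField Metric
open scoped Topology RealInnerProductSpace

set_option autoImplicit false
set_option synthInstance.maxHeartbeats 400000
set_option maxHeartbeats 4000000
set_option linter.unusedSectionVars false
set_option linter.unusedVariables false
set_option linter.unusedSimpArgs false

noncomputable section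

namespace Pool.Agent.H781.S22

open Pool.Agent.H893R5.HO Pool.Agent.H821R2 Pool.Agent.H821R3 HopfPP

theorem F1k_lin (j : Jt) (k s : ℝ) (h : k ^ 2 + s ^ 2 = 1) (x y v : Fin 4 → ℝ) :
    F1k j k s x y v = s * (j.a0 * g0 j k x y * v 0 + j.c0 * g1 j k x y * v 1 +
      DD j k * g3 j k x y * v 3) := by
  simp only [F1k, s1, s4, g0, g1, g3, DD]
  ring

/-- the cometric in adapted coordinates -/
theorem dt6_Zv (j : Jt) (k s : ℝ) (h : k ^ 2 + s ^ 2 = 1) (x y : Fin 4 → ℝ) :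
    dt6 (ac k s x) (Zv j k s y) = j.a0 * x 0 * y 0 + j.c0 * x 1 * y 1 + j.c0 * x 2 * y 2 +
      DD j k * x 3 * y 3 := by
  simp only [ac, Zv, dt6, dt, DD]
  simp
  linear_combination (j.a0 * x 0 * y 0 + j.c0 * x 0 * y 2 + j.e0 * x 3 * y 3) * h

theorem dt6_br (j : Jt) (k s : ℝ) (h : k ^ 2 + s ^ 2 = 1) (a b x : Fin 4 → ℝ) :
    dt6 (ac k s x) (thv j k s b a - thv j k s a b) =
      -s * (j.a0 * j.c0 * pl a b 1 3) * x 0 +
      -s * ((k * j.c0 ^ 2 + j.a0 * j.c1) * pl a b 0 1 + j.c0 * (j.a0 + DD j k) * pl a b 0 3) * x 1 +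
      -s * (j.c0 ^ 2 * pl a b 1 3 + j.a0 * j.c1 * pl a b 0 2) * x 2 +
      -s * (DD j k * (j.c0 * pl a b 0 1 - k * j.e0 * pl a b 0 3) +
        (j.a0 * D1 j k * pl a b 0 3 + j.c0 ^ 2 * pl a b 1 2)) * x 3 := by
  simp only [ac, thv, dt6, dt, DD, D1, pl]
  simp
  ring

theorem Fr.co_inj {x e n : U3} (F : Fr x e n) {a b : U3} (h : co x e n a = co x e n b) :
    a = b := by
  have h0 : ⟪x, a⟫ = ⟪x, b⟫ := congrFun h 0
  have h1 : ⟪e, a⟫ = ⟪e, b⟫ := congrFun h 1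
  have h2 : ⟪n, a⟫ = ⟪n, b⟫ := congrFun h 2
  rw [F.expand a, F.expand b, h0, h1, h2]

theorem Fr.co6_inj {x e n : U3} (F : Fr x e n) {a b : A6} (h : co6 x e n a = co6 x e n b) :
    a = b :=
  Prod.ext (F.co_inj (congrArg Prod.fst h)) (F.co_inj (congrArg Prod.snd h))

section

variable {x e n : U3} {k s : ℝ} (A : Ad x e n k s)

include A

theorem exists_cvec {p : M22} (hp : X22.j p = pt x e k s) {a : A6} (ha : X22.P (X22.j p) a = a) :
    ∃ ξ, a = cvec x e n k s ξ := by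
  rw [sph_P] at ha
  have h1 : (p.1 : U3) = x := congrArg Prod.fst hp
  have h2 : (p.2 : U3) = k • x + s • e := congrArg Prod.snd hp
  rw [h1, h2] at ha
  obtain ⟨ha1, ha2⟩ := ha
  rw [inner_add_left, real_inner_smul_left, real_inner_smul_left] at ha2
  refine ⟨![-s * ⟪x, a.2⟫ + k * ⟪e, a.2⟫, -k * ⟪n, a.2⟫ - ⟪n, a.1⟫,
    ⟪e, a.1⟫ + (-s * ⟪x, a.2⟫ + k * ⟪e, a.2⟫), -⟪n, a.2⟫], A.F.co6_inj ?_⟩
  rw [co_cvec A]
  refine Prod.ext ?_ ?_
  · funext i
    fin_cases i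
    · simp [co6, co, ac, ha1]
    · simp [co6, co, ac]
      ring
    · simp [co6, co, ac]
  · funext i
    fin_cases i
    · simp [co6, co, ac]
      linear_combination -⟪x, a.2⟫ * A.h + k * ha2
    · simp [co6, co, ac]
      linear_combination -⟪e, a.2⟫ * A.h + s * ha2
    · simp [co6, co, ac]

end

namespace Dat

variable (S : Dat) {x e n : U3} {k s : ℝ} (A : Ad x e n k s)

include A

theorem B_W (a b : Fin 4 → ℝ) : X22.B (cvec x e n k s a) (S.W (pt x e k s) (cvec x e n k s b)) =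
    S.a k * a 0 * b 0 + S.c k * a 1 * b 1 + S.c k * a 2 * b 2 + DD (S.jt k) k * a 3 * b 3 := by
  rw [co_B A.F, co_cvec A, S.co_Wc A, dt6_Zv _ _ _ A.h]
  rfl

theorem B_br (a b y : Fin 4 → ℝ) : X22.B (cvec x e n k s y)
    (Emb.Br S.W (cvec x e n k s a) (cvec x e n k s b) (pt x e k s)) =
      -s * (S.a k * S.c k * pl a b 1 3) * y 0 +
      -s * ((k * S.c k ^ 2 + S.a k * S.c1 k) * pl a b 0 1 +
        S.c k * (S.a k + DD (S.jt k) k) * pl a b 0 3) * y 1 +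
      -s * (S.c k ^ 2 * pl a b 1 3 + S.a k * S.c1 k * pl a b 0 2) * y 2 +
      -s * (DD (S.jt k) k * (S.c k * pl a b 0 1 - k * S.e k * pl a b 0 3) +
        (S.a k * D1 (S.jt k) k * pl a b 0 3 + S.c k ^ 2 * pl a b 1 2)) * y 3 := by
  rw [co_B A.F, co_cvec A, S.co_Br A, dt6_br _ _ _ A.h]
  rfl

/-- unit covectors -/
def un (i : Fin 4) : Fin 4 → ℝ := Pi.single i 1

omit A in
theorem un_self (i : Fin 4) : un i i = 1 := by simp [un]

variable {p : M22} (hp : X22.j p = pt x e k s) (hW : X22.Com S.W)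
  (ha0 : S.a k ≠ 0) (hc0 : S.c k ≠ 0) (hd0 : DD (S.jt k) k ≠ 0)

include hp hW ha0 hc0 hd0

/-- the gradient terms -/
theorem grad_pt (x1 y1 x2 y2 : Fin 4 → ℝ) :
    fderiv ℝ (X22.FF S.W (cvec x e n k s x1) (cvec x e n k s y1)) (pt x e k s)
      (S.W (pt x e k s) (X22.rep (fderiv ℝ (X22.FF S.W (cvec x e n k s x2)
        (cvec x e n k s y2)) (pt x e k s)))) =
    (1 - k ^ 2) * (S.a k * g0 (S.jt k) k x1 y1 * g0 (S.jt k) k x2 y2 +
      S.c k * g1 (S.jt k) k x1 y1 * g1 (S.jt k) k x2 y2 +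
      DD (S.jt k) k * g3 (S.jt k) k x1 y1 * g3 (S.jt k) k x2 y2) := by
  have hs : s ^ 2 = 1 - k ^ 2 := by linarith [A.h]
  set ρ := X22.rep (fderiv ℝ (X22.FF S.W (cvec x e n k s x2)
        (cvec x e n k s y2)) (pt x e k s)) with hρ
  obtain ⟨q, hq⟩ := exists_cvec A hp (a := X22.P (X22.j p) ρ) (X22.PP p ρ)
  have hWq : S.W (pt x e k s) ρ = S.W (pt x e k s) (cvec x e n k s q) := by
    rw [← hq, ← hp, Emb.W_P hW]
  have key : ∀ v : Fin 4 → ℝ, S.a k * v 0 * q 0 + S.c k * v 1 * q 1 + S.c k * v 2 * q 2 +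
      DD (S.jt k) k * v 3 * q 3 = F1k (S.jt k) k s x2 y2 v := by
    intro v
    rw [← S.B_W A v q, ← hWq, ← S.fder_pt A x2 y2 v, X22.Bsymm, hW.symm, hρ, Emb.B_rep]
  have k0 := key (un 0)
  have k1 := key (un 1)
  have k2 := key (un 2)
  have k3 := key (un 3)
  rw [F1k_lin _ _ _ A.h] at k0 k1 k2 k3
  have j1 : (S.jt k).a0 = S.a k := rfl
  have j2 : (S.jt k).c0 = S.c k := rfl
  simp [un, j1, j2] at k0 k1 k2 k3
  have q0 : q 0 = s * g0 (S.jt k) k x2 y2 := by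
    apply mul_left_cancel₀ ha0
    linear_combination k0
  have q1 : q 1 = s * g1 (S.jt k) k x2 y2 := by
    apply mul_left_cancel₀ hc0
    linear_combination k1
  have q3 : q 3 = s * g3 (S.jt k) k x2 y2 := by
    apply mul_left_cancel₀ hd0
    linear_combination k3
  rw [hWq, S.fder_pt A, F1k_lin _ _ _ A.h, q0, q1, q3, j1, j2, ← hs]
  ring

variable {g : ContMDiffRiemannianMetric I22 ∞ (EuclideanSpace ℝ (Fin 2) × EuclideanSpace ℝ (Fin 2))
      (fun x : M22 => TangentSpace I22 x)} (hg : X22.Dual g S.W)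
  {cov : CovariantDerivative I22 (EuclideanSpace ℝ (Fin 2) × EuclideanSpace ℝ (Fin 2))
        (TangentSpace I22 : M22 → Type _)} (h : IsLeviCivita g cov)
  {R : CurvField I22 M22} (hR : IsRiemannTensor cov R)

include hg h hR

/-- **The curvature formula.** -/
theorem kap_pt (a b : Fin 4 → ℝ) (u v : TangentSpace I22 p)
    (hu : X22.d p u = S.W (pt x e k s) (cvec x e n k s a))
    (hv : X22.d p v = S.W (pt x e k s) (cvec x e n k s b)) :
    S.c k * g.inner p (R p u v v) u =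
    cX (S.jt k) k * (pl a b 0 1 ^ 2 + pl a b 0 2 ^ 2) +
    cY (S.jt k) k * (pl a b 1 3 ^ 2 + pl a b 2 3 ^ 2) +
    cZ (S.jt k) k * pl a b 0 3 ^ 2 + cW (S.jt k) k * pl a b 1 2 ^ 2 +
    cM (S.jt k) k * pl a b 0 3 * pl a b 1 2 -
    3 / 4 * (1 - k ^ 2) * (S.c k * (S.a k * D1 (S.jt k) k * pl a b 0 3 +
      S.c k ^ 2 * pl a b 1 2) ^ 2 / DD (S.jt k) k) := by
  have hs : s ^ 2 = 1 - k ^ 2 := by linarith [A.h]
  have j1 : (S.jt k).a0 = S.a k := rfl
  have j2 : (S.jt k).c0 = S.c k := rfl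
  have j3 : (S.jt k).c1 = S.c1 k := rfl
  have j4 : (S.jt k).e0 = S.e k := rfl
  obtain ⟨γ, hγ1, hγ2, hK⟩ := Emb.curv_eq hW hg h hR p (cvec x e n k s a) (cvec x e n k s b) u v
    (by rw [hp]; exact hu) (by rw [hp]; exact hv)
  obtain ⟨q, hq⟩ := exists_cvec A hp hγ1
  rw [hp] at hK hγ2
  have key : ∀ y : Fin 4 → ℝ, S.a k * y 0 * q 0 + S.c k * y 1 * q 1 + S.c k * y 2 * q 2 +
      DD (S.jt k) k * y 3 * q 3 = _ := fun y =>
    ((S.B_W A y q).symm.trans (by rw [← hq, hγ2])).trans (S.B_br A a b y)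
  have k0 := key (un 0)
  have k1 := key (un 1)
  have k2 := key (un 2)
  have k3 := key (un 3)
  simp [un] at k0 k1 k2 k3
  have hBγ : X22.B γ (S.W (pt x e k s) γ) = S.a k * q 0 * q 0 + S.c k * q 1 * q 1 +
      S.c k * q 2 * q 2 + DD (S.jt k) k * q 3 * q 3 := by
    rw [hq, S.B_W A]
  have hBr : X22.B γ (Emb.Br S.W (cvec x e n k s a) (cvec x e n k s b) (pt x e k s)) =
      X22.B γ (S.W (pt x e k s) γ) := by rw [hγ2]
  rw [hK, Emb.Pexp, hBr, hBγ, S.Dir2_pt A, S.Dir2_pt A, S.Dir2_pt A, S.Dir2_pt A,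
    S.grad_pt A hp hW ha0 hc0 hd0, S.grad_pt A hp hW ha0 hc0 hd0]
  have hI := ident (S.jt k) k s a b
  rw [j1, j2, j3, j4] at hI
  have q0 : q 0 = -s * (S.c k * pl a b 1 3) := by
    apply mul_left_cancel₀ ha0
    linear_combination k0
  have e0 : S.c k * (S.a k * q 0 * q 0) = (1 - k ^ 2) *
      (S.c k * S.a k * (S.c k * pl a b 1 3) ^ 2) := by
    rw [q0, ← hs]; ring
  have e1 : S.c k * (S.c k * q 1 * q 1) = (1 - k ^ 2) *
      ((k * S.c k ^ 2 + S.a k * S.c1 k) * pl a b 0 1 +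
        S.c k * (S.a k + DD (S.jt k) k) * pl a b 0 3) ^ 2 := by
    have : S.c k * (S.c k * q 1 * q 1) = (S.c k * q 1) * (S.c k * q 1) := by ring
    rw [this, k1, ← hs]; ring
  have e2 : S.c k * (S.c k * q 2 * q 2) = (1 - k ^ 2) *
      (S.c k ^ 2 * pl a b 1 3 + S.a k * S.c1 k * pl a b 0 2) ^ 2 := by
    have : S.c k * (S.c k * q 2 * q 2) = (S.c k * q 2) * (S.c k * q 2) := by ring
    rw [this, k2, ← hs]; ring
  have e3 : S.c k * (DD (S.jt k) k * q 3 * q 3) = (1 - k ^ 2) *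
      (S.c k * DD (S.jt k) k * (S.c k * pl a b 0 1 - k * S.e k * pl a b 0 3) ^ 2 +
      2 * S.c k * (S.c k * pl a b 0 1 - k * S.e k * pl a b 0 3) *
        (S.a k * D1 (S.jt k) k * pl a b 0 3 + S.c k ^ 2 * pl a b 1 2) +
      S.c k * (S.a k * D1 (S.jt k) k * pl a b 0 3 +
        S.c k ^ 2 * pl a b 1 2) ^ 2 / DD (S.jt k) k) := by
    have q3 : q 3 = -s * (DD (S.jt k) k * (S.c k * pl a b 0 1 - k * S.e k * pl a b 0 3) +
        (S.a k * D1 (S.jt k) k * pl a b 0 3 + S.c k ^ 2 * pl a b 1 2)) / DD (S.jt k) k := by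
      rw [eq_div_iff hd0]
      linear_combination k3
    rw [q3, ← hs]
    field_simp
    ring
  linear_combination hI - 3 / 4 * e0 - 3 / 4 * e1 - 3 / 4 * e2 - 3 / 4 * e3

end Dat

end Pool.Agent.H781.S22
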