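import Pool.Agent.H781.S22.Op

/-!
A metric on `S² × S²` with `3`-positive curvature operator.
-/

open Bundle Manifold ContDiff ContinuousLinearMap Filter VectorField Metric
open scoped Topology RealInnerProductSpace

set_option autoImplicit false
set_option synthInstance.maxHeartbeats 400000
set_option maxHeartbeats 4000000
set_option linter.unusedSectionVars false
set_option linter.unusedVariables false
set_option linter.unusedSimpArgs false

noncomputable section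

namespace Pool.Agent.H781.S22

open Pool.Agent.H893R5.HO Pool.Agent.H821R2 Pool.Agent.H821R3 HopfPP

section

variable {g : ContMDiffRiemannianMetric I22 ∞ (EuclideanSpace ℝ (Fin 2) × EuclideanSpace ℝ (Fin 2))
      (fun x : M22 => TangentSpace I22 x)} (hg : X22.Dual g SD.W)

include hg

/-- the metric in closed form -/
theorem metric_formula (p : M22) (v : TangentSpace I22 p) {x y ξ η : U3}
    (hx : x = (p.1 : U3)) (hy : y = (p.2 : U3)) (hξ : ξ = (X22.d p v).1)
    (hη : η = (X22.d p v).2 - cr3 (cr3 x ξ) y) :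
    g.inner p v v = ph ⟪x, y⟫ * ⟪ξ, ξ⟫ + Ga ⟪x, y⟫ * ⟪η, η⟫ +
      ka ⟪x, y⟫ * (1 + Ga ⟪x, y⟫) / Ga ⟪x, y⟫ * ⟪x, η⟫ ^ 2 := by
  obtain ⟨x', e, n, k, s, A, hp⟩ := exists_Ad p
  have hpx : (p.1 : U3) = x' := congrArg Prod.fst hp
  have hpy : (p.2 : U3) = k • x' + s • e := congrArg Prod.snd hp
  obtain rfl : x = x' := hx.trans hpx
  rw [hpy] at hy
  obtain ⟨b, hb, hv⟩ := Emb.exists_covec com22 hg p v
  obtain ⟨a, rfl⟩ := exists_cvec A hp hb
  have hF := A.F
  have hG := (Ga_pos k).ne'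
  have hph := (ph_pos k).ne'
  have hu : ⟪x, y⟫ = k := by
    have := uu_pt A
    rw [hy]
    exact this
  have hZ : co6 x e n (X22.d p v) = Zv (SD.jt k) k s a := by
    rw [← hv, hp, SD.co_Wc A]
  have h0 : g.inner p v v = Ga k * a 0 * a 0 + (ph k)⁻¹ * a 1 * a 1 + (ph k)⁻¹ * a 2 * a 2 +
      (Ga k)⁻¹ * a 3 * a 3 := by
    rw [hg p _ v hv.symm v, ← hv, hp, SD.B_W A, SD_a, SD_c, SD_DD]
  have hcξ : co x e n ξ = (Zv (SD.jt k) k s a).1 := by
    rw [hξ]; exact congrArg Prod.fst hZ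
  have hcζ : co x e n (X22.d p v).2 = (Zv (SD.jt k) k s a).2 := congrArg Prod.snd hZ
  have hcx : co x e n x = (zc k s).1 := congrArg Prod.fst (co_pt A)
  have hcy : co x e n y = (zc k s).2 := by
    rw [hy]; exact congrArg Prod.snd (co_pt A)
  have hDD : (SD.jt k).a0 + (SD.jt k).e0 * s ^ 2 = (Ga k)⁻¹ := by
    rw [← SD_DD k, DD]
    have := A.h
    rw [show s ^ 2 = 1 - k ^ 2 by linarith]
  have ha0 : (SD.jt k).a0 = Ga k := rfl
  have hc0 : (SD.jt k).c0 = (ph k)⁻¹ := rfl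
  have hcη : co x e n η = ![-s * (Ga k * a 0), k * (Ga k * a 0), -((Ga k)⁻¹ * a 3)] := by
    rw [hη, co_sub, ← hF.cx_co, ← hF.cx_co, hcx, hcξ, hcζ, hcy]
    rw [ha0] at hDD
    funext i
    fin_cases i
    · simp [Zv, zc, cx, ha0, hc0]
      ring
    · simp [Zv, zc, cx, ha0, hc0]
      ring
    · simp [Zv, zc, cx, ha0, hc0]
      linear_combination (-(a 3)) * hDD
  have i1 : ⟪ξ, ξ⟫ = (ph k)⁻¹ ^ 2 * (a 1 ^ 2 + a 2 ^ 2) := by
    rw [← hF.dt_co, hcξ]
    simp [Zv, dt, hc0]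
    ring
  have i2 : ⟪η, η⟫ = Ga k ^ 2 * a 0 ^ 2 + (Ga k)⁻¹ ^ 2 * a 3 ^ 2 := by
    rw [← hF.dt_co, hcη]
    simp [dt]
    have := A.h
    linear_combination (Ga k ^ 2 * a 0 ^ 2) * this
  have i3 : ⟪x, η⟫ = -s * (Ga k * a 0) := by
    have := congrFun hcη 0
    simpa [co] using this
  rw [h0, hu, i1, i2, i3]
  have hk : ka k * s ^ 2 = 1 - Ga k := by
    have h2 := Ga_ka k
    have := A.h
    rw [show s ^ 2 = 1 - k ^ 2 by linarith]
    linarith
  have e1 : ka k * (1 + Ga k) / Ga k * (-s * (Ga k * a 0)) ^ 2 =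
      (ka k * s ^ 2) * (1 + Ga k) * Ga k * a 0 ^ 2 := by
    field_simp
  rw [e1, hk]
  field_simp
  ring

/-- orthonormal frames have orthonormal coordinates -/
theorem exists_O {x e n : U3} {k s : ℝ} (A : Ad x e n k s) {p : M22} (hp : X22.j p = pt x e k s)
    (f : Fin 4 → TangentSpace I22 p) (hf : IsOrthonormalFrame g p f) :
    ∃ O : Fin 4 → Fin 4 → ℝ, (∀ a, IsCo x e n k s p (f a) (O a)) ∧
      ∀ a b, ip4 (O a) (O b) = if a = b then 1 else 0 := by
  choose O hO using fun a => exists_co A hp com22 (f a)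
  refine ⟨O, hO, fun a b => ?_⟩
  rw [← hf a b, inner_co A hp com22 hg (hO a) (hO b)]
  rfl

/-- **The curvature operator is `3`-positive.** -/
theorem isKPositive : IsKPositive 4 3 g := by
  refine ⟨Emb.exists_cov com22 hg, fun cov R h hR p => ⟨?_, fun f hf => ?_⟩⟩
  · let _ : RiemannianBundle (fun x : M22 => TangentSpace I22 x) := ⟨g.toRiemannianMetric⟩
    have : FiniteDimensional ℝ (TangentSpace I22 p) := inferInstanceAs
      (FiniteDimensional ℝ (EuclideanSpace ℝ (Fin 2) × EuclideanSpace ℝ (Fin 2)))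
    have hr : Module.finrank ℝ (TangentSpace I22 p) = 4 := by
      change Module.finrank ℝ (EuclideanSpace ℝ (Fin 2) × EuclideanSpace ℝ (Fin 2)) = 4
      simp
    let b := (stdOrthonormalBasis ℝ (TangentSpace I22 p)).reindex (finCongr hr)
    exact ⟨b, fun i j => orthonormal_iff_ite.1 b.orthonormal i j⟩
  · obtain ⟨x, e, n, k, s, A, hp⟩ := exists_Ad p
    obtain ⟨O, hO, hO2⟩ := exists_O hg A hp f hf
    have hk : k ^ 2 ≤ 1 := by nlinarith [A.h, sq_nonneg s]
    refine eig_pos O hO2 hk _ fun P Q => ?_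
    exact R_co A hp com22 hg h hR (hO _) (hO _) (hO _) (hO _)

end

end Pool.Agent.H781.S22
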