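import Pool.Agent.H781.S22.Frames
import Pool.Agent.H781.S22.Defs

/-!
Eigenvalues of the curvature operator.
-/

open Bundle Manifold ContDiff ContinuousLinearMap Filter VectorField Metric
open scoped Topology RealInnerProductSpace

set_option autoImplicit false
set_option synthInstance.maxHeartbeats 400000
set_option maxHeartbeats 4000000
set_option linter.unusedSectionVars false
set_option linter.unusedVariables false
set_option linter.unusedSimpArgs false

noncomputable section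

namespace Pool.Agent.H781.S22

open Pool.Agent.H893R5.HO Pool.Agent.H821R2 Pool.Agent.H821R3 HopfPP

/-- `QB` as a bilinear map -/
def QBl (X Y Z W M : ℝ) : (Fin 4 → Fin 4 → ℝ) →ₗ[ℝ] (Fin 4 → Fin 4 → ℝ) →ₗ[ℝ] ℝ :=
  LinearMap.mk₂ ℝ (QB X Y Z W M)
    (fun p p' q => by simp only [QB, Pi.add_apply]; ring)
    (fun c p q => by simp only [QB, Pi.smul_apply, smul_eq_mul]; ring)
    (fun p q q' => by simp only [QB, Pi.add_apply]; ring)
    (fun c p q => by simp only [QB, Pi.smul_apply, smul_eq_mul]; ring)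

theorem QBl_apply (X Y Z W M : ℝ) (p q : Fin 4 → Fin 4 → ℝ) :
    QBl X Y Z W M p q = QB X Y Z W M p q := rfl

/-- inner product of bivectors -/
def ipB (p q : Fin 4 → Fin 4 → ℝ) : ℝ :=
  p 0 1 * q 0 1 + p 0 2 * q 0 2 + p 0 3 * q 0 3 + p 1 2 * q 1 2 + p 1 3 * q 1 3 + p 2 3 * q 2 3

/-- `ipB` as a bilinear map -/
def ipl : (Fin 4 → Fin 4 → ℝ) →ₗ[ℝ] (Fin 4 → Fin 4 → ℝ) →ₗ[ℝ] ℝ :=
  LinearMap.mk₂ ℝ ipB
    (fun p p' q => by simp only [ipB, Pi.add_apply]; ring)
    (fun c p q => by simp only [ipB, Pi.smul_apply, smul_eq_mul]; ring)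
    (fun p q q' => by simp only [ipB, Pi.add_apply]; ring)
    (fun c p q => by simp only [ipB, Pi.smul_apply, smul_eq_mul]; ring)

theorem ipl_apply (p q : Fin 4 → Fin 4 → ℝ) : ipl p q = ipB p q := rfl

theorem QB_symm (X Y Z W M : ℝ) (p q : Fin 4 → Fin 4 → ℝ) :
    QB X Y Z W M p q = QB X Y Z W M q p := by
  simp only [QB]; ring

/-- coordinates of a bivector -/
def toBi (p : Fin 4 → Fin 4 → ℝ) : Bi := ⟨p 0 1, p 0 2, p 0 3, p 1 2, p 1 3, p 2 3⟩

theorem toBi_ip (p q : Fin 4 → Fin 4 → ℝ) : (toBi p).ip (toBi q) = ipB p q := rfl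

theorem toBi_Q (X Y Z W M : ℝ) (p : Fin 4 → Fin 4 → ℝ) :
    (toBi p).Q X Y Z W M = QB X Y Z W M p p := by
  simp only [toBi, Bi.Q, QB]; ring

/-- Euclidean inner product of coordinates -/
def ip4 (a b : Fin 4 → ℝ) : ℝ := a 0 * b 0 + a 1 * b 1 + a 2 * b 2 + a 3 * b 3

theorem ipB_pl (a b c d : Fin 4 → ℝ) :
    ipB (pl a b) (pl c d) = ip4 a c * ip4 b d - ip4 a d * ip4 b c := by
  simp only [ipB, pl, ip4]; ring

section

variable (O : Fin 4 → Fin 4 → ℝ) (hO : ∀ a b, ip4 (O a) (O b) = if a = b then 1 else 0)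

include hO in
theorem ipB_pair (P Q : Pr 4) :
    ipB (pl (O P.1.1) (O P.1.2)) (pl (O Q.1.1) (O Q.1.2)) = if P = Q then 1 else 0 := by
  obtain ⟨⟨a, b⟩, hab⟩ := P
  obtain ⟨⟨c, d⟩, hcd⟩ := Q
  simp only at hab hcd
  rw [ipB_pl, hO, hO, hO, hO]
  by_cases h1 : a = c <;> by_cases h2 : b = d
  · subst h1; subst h2
    have h3 : a ≠ b := hab.ne
    simp [h3, h3.symm]
  · have h3 : ¬ (a = d ∧ b = c) := by
      rintro ⟨h4, h5⟩
      subst h4; subst h5; exact absurd hab (not_lt.2 hcd.le)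
    have h6 : ¬ ((⟨(a, b), hab⟩ : Pr 4) = ⟨(c, d), hcd⟩) := by
      intro h; injection h with h; injection h with h h'; exact h2 h'
    rw [if_neg h2, if_neg h6]
    by_cases h7 : a = d
    · rw [if_neg fun h8 => h3 ⟨h7, h8⟩]; ring
    · rw [if_neg h7]; ring
  · have h3 : ¬ (a = d ∧ b = c) := by
      rintro ⟨h4, h5⟩
      subst h4; subst h5; exact absurd hab (not_lt.2 hcd.le)
    have h6 : ¬ ((⟨(a, b), hab⟩ : Pr 4) = ⟨(c, d), hcd⟩) := by
      intro h; injection h with h; injection h with h h'; exact h1 h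
    rw [if_neg h1, if_neg h6]
    by_cases h7 : a = d
    · rw [if_neg fun h8 => h3 ⟨h7, h8⟩]; ring
    · rw [if_neg h7]; ring
  · have h3 : ¬ (a = d ∧ b = c) := by
      rintro ⟨h4, h5⟩
      subst h4; subst h5; exact absurd hab (not_lt.2 hcd.le)
    have h6 : ¬ ((⟨(a, b), hab⟩ : Pr 4) = ⟨(c, d), hcd⟩) := by
      intro h; injection h with h; injection h with h h'; exact h1 h
    rw [if_neg h1, if_neg h6]
    by_cases h7 : a = d
    · rw [if_neg fun h8 => h3 ⟨h7, h8⟩]; ring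
    · rw [if_neg h7]; ring

/-- the bivector with coefficients `c` -/
def om (c : Pr 4 → ℝ) : Fin 4 → Fin 4 → ℝ := ∑ P : Pr 4, c P • pl (O P.1.1) (O P.1.2)

include hO in
theorem ip_om (c d : Pr 4 → ℝ) : ipB (om O c) (om O d) = ∑ P, c P * d P := by
  rw [← ipl_apply]
  unfold om
  rw [map_sum ipl, LinearMap.sum_apply]
  refine Finset.sum_congr rfl fun P _ => ?_
  rw [map_smul, LinearMap.smul_apply, map_sum]
  have : ∀ Q : Pr 4, ipl (pl (O P.1.1) (O P.1.2)) (d Q • pl (O Q.1.1) (O Q.1.2)) =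
      if P = Q then d Q else 0 := by
    intro Q
    rw [map_smul, ipl_apply, ipB_pair O hO, smul_eq_mul]
    split_ifs <;> ring
  simp only [this]
  rw [Finset.sum_ite_eq]
  simp

theorem QB_om (X Y Z W M : ℝ) (c d : Pr 4 → ℝ) : QB X Y Z W M (om O c) (om O d) =
    ∑ P, ∑ Q, c P * (d Q * QB X Y Z W M (pl (O P.1.1) (O P.1.2)) (pl (O Q.1.1) (O Q.1.2))) := by
  rw [← QBl_apply]
  unfold om
  rw [map_sum (QBl X Y Z W M), LinearMap.sum_apply]
  refine Finset.sum_congr rfl fun P _ => ?_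
  rw [map_smul, LinearMap.smul_apply, map_sum, smul_eq_mul, Finset.mul_sum]
  refine Finset.sum_congr rfl fun Q _ => ?_
  rw [map_smul, QBl_apply, smul_eq_mul]

include hO in
/-- any three eigenvalues have positive sum -/
theorem eig_pos {k : ℝ} (hk : k ^ 2 ≤ 1) (A : Matrix (Pr 4) (Pr 4) ℝ)
    (hA : ∀ P Q, ph k ^ 2 * A P Q = QB (PX k) (PY k) (PZ k) (PW k) (PM k)
      (pl (O P.1.1) (O P.1.2)) (pl (O Q.1.1) (O Q.1.2))) :
    ∃ h : A.IsHermitian, ∀ t : Finset (Pr 4), t.card = 3 → 0 < ∑ i ∈ t, h.eigenvalues i := by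
  have hp : ph k ^ 2 ≠ 0 := pow_ne_zero 2 (ph_pos k).ne'
  have hH : A.IsHermitian := by
    refine Matrix.IsHermitian.ext fun P Q => ?_
    rw [star_trivial]
    refine mul_left_cancel₀ hp ?_
    rw [hA, hA, QB_symm]
  refine ⟨hH, fun t ht => ?_⟩
  set v : Pr 4 → Pr 4 → ℝ := fun i P => hH.eigenvectorBasis i P with hv
  have hvv : ∀ i l, ∑ P, v i P * v l P = if i = l then 1 else 0 := by
    intro i l
    have h1 := orthonormal_iff_ite.1 hH.eigenvectorBasis.orthonormal i l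
    rw [PiLp.inner_apply] at h1
    rw [← h1]
    refine Finset.sum_congr rfl fun P _ => ?_
    simp [hv, mul_comm]
  have hlam : ∀ i, ph k ^ 2 * hH.eigenvalues i =
      (toBi (om O (v i))).Q (PX k) (PY k) (PZ k) (PW k) (PM k) := by
    intro i
    have h1 := hH.mulVec_eigenvectorBasis i
    have h2 : ∀ P, ∑ Q, A P Q * v i Q = hH.eigenvalues i * v i P := by
      intro P
      have := congrFun h1 P
      simpa [Matrix.mulVec, dotProduct] using this
    rw [toBi_Q, QB_om]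
    have h3 : ∀ P, ∑ Q, v i P * (v i Q * QB (PX k) (PY k) (PZ k) (PW k) (PM k)
        (pl (O P.1.1) (O P.1.2)) (pl (O Q.1.1) (O Q.1.2))) =
        ph k ^ 2 * (hH.eigenvalues i * (v i P * v i P)) := by
      intro P
      have h4 : ∀ Q, v i P * (v i Q * QB (PX k) (PY k) (PZ k) (PW k) (PM k)
        (pl (O P.1.1) (O P.1.2)) (pl (O Q.1.1) (O Q.1.2))) =
          ph k ^ 2 * v i P * (A P Q * v i Q) := by
        intro Q
        rw [← hA]; ring
      simp only [h4]
      rw [← Finset.mul_sum, h2]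
      ring
    simp only [h3]
    rw [← Finset.mul_sum, ← Finset.mul_sum, hvv, if_pos rfl, mul_one]
  have key := three_pos (X := PX k) (Y := PY k) (Z := PZ k) (W := PW k) (M := PM k) (T := PT k)
    (posT k hk) (posC k hk) (posX k hk) (by linarith [pos_p1 k hk])
    (posZ k hk) (by linarith [pos_p3 k hk]) t ht (fun i => toBi (om O (v i)))
    (fun i _ l _ => by
      rw [toBi_ip, ip_om O hO, hvv]
      by_cases h : i = l
      · exact Or.inl h
      · exact Or.inr (if_neg h))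
    (fun i _ => by rw [toBi_ip, ip_om O hO, hvv, if_pos rfl])
  have h5 : ∑ i ∈ t, (toBi (om O (v i))).Q (PX k) (PY k) (PZ k) (PW k) (PM k) =
      ph k ^ 2 * ∑ i ∈ t, hH.eigenvalues i := by
    rw [Finset.mul_sum]
    exact Finset.sum_congr rfl fun i _ => (hlam i).symm
  rw [h5] at key
  have hp' : 0 < ph k ^ 2 := by have := ph_pos k; positivity
  exact (pos_iff_pos_of_mul_pos key).1 hp'

end

end Pool.Agent.H781.S22
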