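import Pool.Agent.H781.S22.Coef

/-!
The curvature tensor of the explicit metric in orthonormal coordinates.
-/

open Bundle Manifold ContDiff ContinuousLinearMap Filter VectorField Metric
open scoped Topology RealInnerProductSpace

set_option autoImplicit false
set_option synthInstance.maxHeartbeats 400000
set_option maxHeartbeats 4000000
set_option linter.unusedSectionVars false
set_option linter.unusedVariables false
set_option linter.unusedSimpArgs false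

noncomputable section

namespace Pool.Agent.H781.S22

open Pool.Agent.H893R5.HO Pool.Agent.H821R2 Pool.Agent.H821R3 HopfPP

/-- from orthonormal coordinates to covector components -/
def sc (k : ℝ) (ξ : Fin 4 → ℝ) : Fin 4 → ℝ :=
  ![ξ 0 / √(Ga k), √(ph k) * ξ 1, √(ph k) * ξ 2, √(Ga k) * ξ 3]

theorem sc0 (k : ℝ) (ξ : Fin 4 → ℝ) : sc k ξ 0 = ξ 0 / √(Ga k) := rfl
theorem sc1 (k : ℝ) (ξ : Fin 4 → ℝ) : sc k ξ 1 = √(ph k) * ξ 1 := rfl
theorem sc2 (k : ℝ) (ξ : Fin 4 → ℝ) : sc k ξ 2 = √(ph k) * ξ 2 := rfl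
theorem sc3 (k : ℝ) (ξ : Fin 4 → ℝ) : sc k ξ 3 = √(Ga k) * ξ 3 := rfl

theorem sc_add (k : ℝ) (ξ η : Fin 4 → ℝ) : sc k (ξ + η) = sc k ξ + sc k η := by
  funext i
  fin_cases i <;> simp [sc] <;> ring

theorem sc_sub (k : ℝ) (ξ η : Fin 4 → ℝ) : sc k (ξ - η) = sc k ξ - sc k η := by
  funext i
  fin_cases i <;> simp [sc] <;> ring

theorem cvec_add (x e n : U3) (k s : ℝ) (ξ η : Fin 4 → ℝ) :
    cvec x e n k s (ξ + η) = cvec x e n k s ξ + cvec x e n k s η := by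
  refine Prod.ext ?_ ?_ <;> simp [cvec] <;> module

theorem cvec_sub (x e n : U3) (k s : ℝ) (ξ η : Fin 4 → ℝ) :
    cvec x e n k s (ξ - η) = cvec x e n k s ξ - cvec x e n k s η := by
  refine Prod.ext ?_ ?_ <;> simp [cvec] <;> module

/-- the quadratic form of sectional curvatures -/
def KQ (X Y Z W M : ℝ) (ξ η : Fin 4 → ℝ) : ℝ :=
  X * (pl ξ η 0 1 ^ 2 + pl ξ η 0 2 ^ 2) + Y * (pl ξ η 1 3 ^ 2 + pl ξ η 2 3 ^ 2) +
    Z * pl ξ η 0 3 ^ 2 + W * pl ξ η 1 2 ^ 2 + 6 * M * pl ξ η 0 3 * pl ξ η 1 2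

/-- the curvature operator -/
def QB (X Y Z W M : ℝ) (p q : Fin 4 → Fin 4 → ℝ) : ℝ :=
  X * (p 0 1 * q 0 1 + p 0 2 * q 0 2) + Y * (p 1 3 * q 1 3 + p 2 3 * q 2 3) +
    Z * (p 0 3 * q 0 3) + W * (p 1 2 * q 1 2) + 2 * M * (p 0 3 * q 1 2 + p 1 2 * q 0 3) -
    M * (p 0 1 * q 2 3 + p 2 3 * q 0 1) + M * (p 0 2 * q 1 3 + p 1 3 * q 0 2)

theorem berger_KQ (X Y Z W M : ℝ) (ξ η ζ τ : Fin 4 → ℝ) :
    24 * QB X Y Z W M (pl ξ η) (pl τ ζ) =
      (KQ X Y Z W M (ξ + τ) (η + ζ) - KQ X Y Z W M (ξ + τ) (η - ζ) -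
        KQ X Y Z W M (ξ - τ) (η + ζ) + KQ X Y Z W M (ξ - τ) (η - ζ)) -
      (KQ X Y Z W M (η + τ) (ξ + ζ) - KQ X Y Z W M (η + τ) (ξ - ζ) -
        KQ X Y Z W M (η - τ) (ξ + ζ) + KQ X Y Z W M (η - τ) (ξ - ζ)) := by
  simp only [QB, KQ, pl, Pi.add_apply, Pi.sub_apply]
  ring

section

variable {x e n : U3} {k s : ℝ} (A : Ad x e n k s) {p : M22} (hp : X22.j p = pt x e k s)
  (hW : X22.Com SD.W)
  {g : ContMDiffRiemannianMetric I22 ∞ (EuclideanSpace ℝ (Fin 2) × EuclideanSpace ℝ (Fin 2))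
      (fun x : M22 => TangentSpace I22 x)} (hg : X22.Dual g SD.W)

/-- `ξ` are the orthonormal coordinates of `v` -/
def IsCo (x e n : U3) (k s : ℝ) (p : M22) (v : TangentSpace I22 p) (ξ : Fin 4 → ℝ) : Prop :=
  X22.d p v = SD.W (pt x e k s) (cvec x e n k s (sc k ξ))

theorem IsCo.add {v w : TangentSpace I22 p} {ξ η : Fin 4 → ℝ} (h1 : IsCo x e n k s p v ξ)
    (h2 : IsCo x e n k s p w η) : IsCo x e n k s p (v + w) (ξ + η) := by
  unfold IsCo at *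
  rw [map_add, h1, h2, sc_add, cvec_add, map_add]

theorem IsCo.sub {v w : TangentSpace I22 p} {ξ η : Fin 4 → ℝ} (h1 : IsCo x e n k s p v ξ)
    (h2 : IsCo x e n k s p w η) : IsCo x e n k s p (v - w) (ξ - η) := by
  unfold IsCo at *
  rw [map_sub, h1, h2, sc_sub, cvec_sub, map_sub]

include A hp hW hg

omit hg in
theorem exists_co (v : TangentSpace I22 p) : ∃ ξ, IsCo x e n k s p v ξ := by
  obtain ⟨g', hg'⟩ := Emb.exists_metric hW
  obtain ⟨a, ha, hv⟩ := Emb.exists_covec hW hg' p v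
  obtain ⟨q, rfl⟩ := exists_cvec A hp ha
  have h1 : √(Ga k) ≠ 0 := (Real.sqrt_pos.2 (Ga_pos k)).ne'
  have h2 : √(ph k) ≠ 0 := (Real.sqrt_pos.2 (ph_pos k)).ne'
  refine ⟨![√(Ga k) * q 0, q 1 / √(ph k), q 2 / √(ph k), q 3 / √(Ga k)], ?_⟩
  unfold IsCo
  rw [← hv, hp]
  congr 2
  funext i
  fin_cases i <;> simp [sc] <;> field_simp

theorem inner_co {v w : TangentSpace I22 p} {ξ η : Fin 4 → ℝ} (h1 : IsCo x e n k s p v ξ)
    (h2 : IsCo x e n k s p w η) : g.inner p v w =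
      ξ 0 * η 0 + ξ 1 * η 1 + ξ 2 * η 2 + ξ 3 * η 3 := by
  have e1 : √(Ga k) ≠ 0 := (Real.sqrt_pos.2 (Ga_pos k)).ne'
  have e2 : √(ph k) ≠ 0 := (Real.sqrt_pos.2 (ph_pos k)).ne'
  have e3 : √(Ga k) * √(Ga k) = Ga k := Real.mul_self_sqrt (Ga_pos k).le
  have e4 : √(ph k) * √(ph k) = ph k := Real.mul_self_sqrt (ph_pos k).le
  have e5 := (Ga_pos k).ne'
  have e6 := (ph_pos k).ne'
  unfold IsCo at *
  rw [hg p (cvec x e n k s (sc k ξ)) v (by rw [hp]; exact h1), h2, SD.B_W A, SD_DD, SD_a, SD_c]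
  rw [sc0, sc0, sc1, sc1, sc2, sc2, sc3, sc3]
  have t0 : Ga k * (ξ 0 / √(Ga k)) * (η 0 / √(Ga k)) = ξ 0 * η 0 := by
    rw [show Ga k * (ξ 0 / √(Ga k)) * (η 0 / √(Ga k)) = Ga k * ξ 0 * η 0 / (√(Ga k) * √(Ga k)) by
      field_simp, e3]
    field_simp
  have t1 : ∀ i, (ph k)⁻¹ * (√(ph k) * ξ i) * (√(ph k) * η i) = ξ i * η i := by
    intro i
    rw [show (ph k)⁻¹ * (√(ph k) * ξ i) * (√(ph k) * η i) = (ph k)⁻¹ * (√(ph k) * √(ph k)) *
      ξ i * η i by ring, e4]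
    field_simp
  have t3 : (Ga k)⁻¹ * (√(Ga k) * ξ 3) * (√(Ga k) * η 3) = ξ 3 * η 3 := by
    rw [show (Ga k)⁻¹ * (√(Ga k) * ξ 3) * (√(Ga k) * η 3) = (Ga k)⁻¹ * (√(Ga k) * √(Ga k)) *
      ξ 3 * η 3 by ring, e3]
    field_simp
  rw [t0, t1, t1, t3]

variable {cov : CovariantDerivative I22 (EuclideanSpace ℝ (Fin 2) × EuclideanSpace ℝ (Fin 2))
        (TangentSpace I22 : M22 → Type _)} (h : IsLeviCivita g cov)
  {R : CurvField I22 M22} (hR : IsRiemannTensor cov R)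

include h hR

/-- sectional curvatures in orthonormal coordinates -/
theorem kap_co {v w : TangentSpace I22 p} {ξ η : Fin 4 → ℝ} (h1 : IsCo x e n k s p v ξ)
    (h2 : IsCo x e n k s p w η) : ph k ^ 2 * g.inner p (R p v w w) v =
      KQ (PX k) (PY k) (PZ k) (PW k) (PM k) ξ η := by
  have e1 : √(Ga k) ≠ 0 := (Real.sqrt_pos.2 (Ga_pos k)).ne'
  have e2 : √(ph k) ≠ 0 := (Real.sqrt_pos.2 (ph_pos k)).ne'
  have e3 : √(Ga k) ^ 2 = Ga k := Real.sq_sqrt (Ga_pos k).le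
  have e4 : √(ph k) ^ 2 = ph k := Real.sq_sqrt (ph_pos k).le
  have e5 := (Ga_pos k).ne'
  have e6 := (ph_pos k).ne'
  unfold IsCo at *
  have hd : DD (SD.jt k) k ≠ 0 := by rw [SD_DD]; exact inv_ne_zero e5
  have hc : SD.c k ≠ 0 := by rw [SD_c]; exact inv_ne_zero e6
  have key := SD.kap_pt A hp hW (by rw [SD_a]; exact e5) hc hd hg h hR (sc k ξ) (sc k η) v w h1 h2
  have p01 : pl (sc k ξ) (sc k η) 0 1 = √(ph k) / √(Ga k) * pl ξ η 0 1 := by
    simp only [pl, sc0, sc1]; field_simp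
  have p02 : pl (sc k ξ) (sc k η) 0 2 = √(ph k) / √(Ga k) * pl ξ η 0 2 := by
    simp only [pl, sc0, sc2]; field_simp
  have p03 : pl (sc k ξ) (sc k η) 0 3 = pl ξ η 0 3 := by
    simp only [pl, sc0, sc3]; field_simp
  have p12 : pl (sc k ξ) (sc k η) 1 2 = ph k * pl ξ η 1 2 := by
    simp only [pl, sc1, sc2]; linear_combination (ξ 1 * η 2 - ξ 2 * η 1) * e4
  have p13 : pl (sc k ξ) (sc k η) 1 3 = √(ph k) * √(Ga k) * pl ξ η 1 3 := by
    simp only [pl, sc1, sc3]; ring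
  have p23 : pl (sc k ξ) (sc k η) 2 3 = √(ph k) * √(Ga k) * pl ξ η 2 3 := by
    simp only [pl, sc2, sc3]; ring
  rw [p01, p02, p03, p12, p13, p23, cX_eq, cY_eq, cZ_eq, cW_eq, cM_eq, SD_DD, SD_D1, SD_a,
    SD_c] at key
  simp only [mul_pow, div_pow, e3, e4] at key
  have k2 : ph k ^ 2 * g.inner p (R p v w w) v =
    ph k ^ 3 * ((ph k)⁻¹ * g.inner p (R p v w w) v) := by field_simp
  rw [k2, key]
  simp only [KQ]
  field_simp
  ring

/-- **The curvature tensor in orthonormal coordinates.** -/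
theorem R_co {u v w t : TangentSpace I22 p} {ξ η ζ τ : Fin 4 → ℝ} (h1 : IsCo x e n k s p u ξ)
    (h2 : IsCo x e n k s p v η) (h3 : IsCo x e n k s p w ζ) (h4 : IsCo x e n k s p t τ) :
    ph k ^ 2 * g.inner p (R p u v w) t =
      QB (PX k) (PY k) (PZ k) (PW k) (PM k) (pl ξ η) (pl τ ζ) := by
  have hb : 24 * g.inner p (R p u v w) t =
      (g.inner p (R p (u + t) (v + w) (v + w)) (u + t) -
        g.inner p (R p (u + t) (v - w) (v - w)) (u + t) -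
        g.inner p (R p (u - t) (v + w) (v + w)) (u - t) +
        g.inner p (R p (u - t) (v - w) (v - w)) (u - t)) -
      (g.inner p (R p (v + t) (u + w) (u + w)) (v + t) -
        g.inner p (R p (v + t) (u - w) (u - w)) (v + t) -
        g.inner p (R p (v - t) (u + w) (u + w)) (v - t) +
        g.inner p (R p (v - t) (u - w) (u - w)) (v - t)) := by
    let _ : RiemannianBundle (fun x : M22 => TangentSpace I22 x) := ⟨g.toRiemannianMetric⟩
    have hB : IsLeviCivitaB cov := ⟨h.smooth, h.metric, h.torsionFree⟩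
    exact berger_identity (isCurvatureTensor hB hR p) u v w t
  have k1 := kap_co A hp hW hg h hR (h1.add h4) (h2.add h3)
  have k2 := kap_co A hp hW hg h hR (h1.add h4) (h2.sub h3)
  have k3 := kap_co A hp hW hg h hR (h1.sub h4) (h2.add h3)
  have k4 := kap_co A hp hW hg h hR (h1.sub h4) (h2.sub h3)
  have k5 := kap_co A hp hW hg h hR (h2.add h4) (h1.add h3)
  have k6 := kap_co A hp hW hg h hR (h2.add h4) (h1.sub h3)
  have k7 := kap_co A hp hW hg h hR (h2.sub h4) (h1.add h3)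
  have k8 := kap_co A hp hW hg h hR (h2.sub h4) (h1.sub h3)
  have hQ := berger_KQ (PX k) (PY k) (PZ k) (PW k) (PM k) ξ η ζ τ
  linear_combination (1 / 24) * (ph k ^ 2 * hb + k1 - k2 - k3 + k4 - k5 + k6 + k7 - k8 - hQ)

end

end Pool.Agent.H781.S22
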