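import Pool.Agent.H781.S22.Ident

/-!
The curvature of the metric with cometric `a|M|² + (e - c)⟨M,x⟩² + c|L+M|²` on `S² × S²`, in an
adapted frame.
-/

open Bundle Manifold ContDiff ContinuousLinearMap Filter VectorField Metric
open scoped Topology RealInnerProductSpace

set_option autoImplicit false
set_option synthInstance.maxHeartbeats 400000
set_option maxHeartbeats 4000000
set_option linter.unusedSectionVars false
set_option linter.unusedVariables false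
set_option linter.unusedSimpArgs false

noncomputable section

namespace Pool.Agent.H781.S22

open Pool.Agent.H893R5.HO Pool.Agent.H821R2 HopfPP

/-- three smooth functions with their first two derivatives -/
structure Dat where
  a : ℝ → ℝ
  a1 : ℝ → ℝ
  a2 : ℝ → ℝ
  e : ℝ → ℝ
  e1 : ℝ → ℝ
  e2 : ℝ → ℝ
  c : ℝ → ℝ
  c1 : ℝ → ℝ
  c2 : ℝ → ℝ
  sa : ContDiff ℝ ∞ a
  se : ContDiff ℝ ∞ e
  sc : ContDiff ℝ ∞ c
  ha : ∀ t, HasDerivAt a (a1 t) t
  ha' : ∀ t, HasDerivAt a1 (a2 t) t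
  he : ∀ t, HasDerivAt e (e1 t) t
  he' : ∀ t, HasDerivAt e1 (e2 t) t
  hc : ∀ t, HasDerivAt c (c1 t) t
  hc' : ∀ t, HasDerivAt c1 (c2 t) t

namespace Dat

variable (S : Dat)

/-- jet at a point -/
def jt (u : ℝ) : Jt := ⟨S.a u, S.a1 u, S.a2 u, S.e u, S.e1 u, S.e2 u, S.c u, S.c1 u, S.c2 u⟩

/-- momentum matrix -/
def K : A6 → A6 →L[ℝ] A6 := Kc S.a (fun t => S.e t - S.c t) S.c

theorem sK : ContDiff ℝ ∞ S.K := smooth_Kc S.sa (S.se.sub S.sc) S.sc

/-- first derivative -/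
def K1 : A6 → A6 →L[ℝ] A6 →L[ℝ] A6 := fderiv ℝ S.K

/-- second derivative -/
def K2 : A6 → A6 →L[ℝ] A6 →L[ℝ] A6 →L[ℝ] A6 := fderiv ℝ (fderiv ℝ S.K)

theorem hK (z : A6) : HasFDerivAt S.K (S.K1 z) z := (S.sK.differentiable (by simp) z).hasFDerivAt

theorem hK1 (z : A6) : HasFDerivAt S.K1 (S.K2 z) z :=
  ((S.sK.fderiv_right (m := ∞) (by simp)).differentiable (by simp) z).hasFDerivAt

/-- the cometric -/
def W : A6 → A6 →L[ℝ] A6 := m22.WK S.K

section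

variable {x e n : U3} (F : Fr x e n)

include F

theorem co_K (z d : A6) : co6 x e n (S.K z d) =
    K0c (S.jt (uu z)).jet (co6 x e n z) (co6 x e n d) :=
  F.K0_co S.a S.a1 S.a2 (fun t => S.e t - S.c t) (fun t => S.e1 t - S.c1 t)
    (fun t => S.e2 t - S.c2 t) S.c S.c1 S.c2 z d

theorem co_K1 (z ζ d : A6) : co6 x e n (S.K1 z ζ d) =
    K1c (S.jt (uu z)).jet (co6 x e n z) (co6 x e n ζ) (co6 x e n d) := by
  have h := fderiv_Kc S.sK S.ha (fun t => (S.he t).sub (S.hc t)) S.hc z ζ d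
  rw [K1, K, h]
  exact F.K1_co S.a S.a1 S.a2 (fun t => S.e t - S.c t) (fun t => S.e1 t - S.c1 t)
    (fun t => S.e2 t - S.c2 t) S.c S.c1 S.c2 z ζ d

theorem co_K2 (z η ζ d : A6) : co6 x e n (S.K2 z η ζ d) =
    K2c (S.jt (uu z)).jet (co6 x e n z) (co6 x e n η) (co6 x e n ζ) (co6 x e n d) := by
  have h := fderiv2_Kc S.sK S.ha S.ha' (fun t => (S.he t).sub (S.hc t))
    (fun t => (S.he' t).sub (S.hc' t)) S.hc S.hc' z η ζ d
  rw [K2, K, h]
  exact F.K2_co S.a S.a1 S.a2 (fun t => S.e t - S.c t) (fun t => S.e1 t - S.c1 t)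
    (fun t => S.e2 t - S.c2 t) S.c S.c1 S.c2 z η ζ d

omit S in
theorem co_R (w z : A6) : co6 x e n (m22.R w z) = cx6 (co6 x e n w) (co6 x e n z) :=
  (F.cx6_co w z).symm

omit S in
theorem co_J (w z : A6) : co6 x e n (m22.J w z) = cx6 (co6 x e n w) (co6 x e n z) :=
  (F.cx6_co w z).symm

omit S in
theorem co_Q (a b : A6) : m22.Q a b = dt6 (co6 x e n a) (co6 x e n b) := (F.dt6_co a b).symm

omit S in
theorem co_B (a b : A6) : X22.B a b = dt6 (co6 x e n a) (co6 x e n b) := (F.dt6_co a b).symm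

theorem co_W (z d : A6) : co6 x e n (S.W z d) =
    cx6 (K0c (S.jt (uu z)).jet (co6 x e n z) (cx6 (co6 x e n z) (co6 x e n d)))
      (co6 x e n z) := by
  rw [W, Mom.WK_apply, co_R F, S.co_K F, co_J F]

theorem co_W1 (z ζ d : A6) : co6 x e n (m22.W1 S.K S.K1 z ζ d) =
    cx6 (K1c (S.jt (uu z)).jet (co6 x e n z) (co6 x e n ζ) (cx6 (co6 x e n z) (co6 x e n d)) +
      K0c (S.jt (uu z)).jet (co6 x e n z) (cx6 (co6 x e n ζ) (co6 x e n d))) (co6 x e n z) +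
    cx6 (K0c (S.jt (uu z)).jet (co6 x e n z) (cx6 (co6 x e n z) (co6 x e n d)))
      (co6 x e n ζ) := by
  rw [Mom.W1, co6_add, co_R F, co_R F, co6_add, S.co_K1 F, S.co_K F, S.co_K F, co_J F, co_J F]

/-- coordinate form of the first derivative -/
theorem co_F1 (c d z ζ : A6) : m22.F1 S.K S.K1 c d z ζ =
    dt6 (cx6 (co6 x e n ζ) (co6 x e n c))
      (K0c (S.jt (uu z)).jet (co6 x e n z) (cx6 (co6 x e n z) (co6 x e n d))) +
    dt6 (cx6 (co6 x e n z) (co6 x e n c)) (K1c (S.jt (uu z)).jet (co6 x e n z) (co6 x e n ζ)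
      (cx6 (co6 x e n z) (co6 x e n d))) +
    dt6 (cx6 (co6 x e n z) (co6 x e n c))
      (K0c (S.jt (uu z)).jet (co6 x e n z) (cx6 (co6 x e n ζ) (co6 x e n d))) := by
  rw [Mom.F1, co_Q F, co_Q F, co_Q F, S.co_K1 F, S.co_K F, S.co_K F, co_J F, co_J F, co_J F,
    co_J F]

theorem co_F2 (c d z ζ η θ : A6) : m22.F2 S.K S.K1 S.K2 c d z ζ η θ =
    m22.F1 S.K S.K1 c d z θ +
    (dt6 (cx6 (co6 x e n ζ) (co6 x e n c)) (K1c (S.jt (uu z)).jet (co6 x e n z) (co6 x e n η)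
        (cx6 (co6 x e n z) (co6 x e n d))) +
     dt6 (cx6 (co6 x e n ζ) (co6 x e n c)) (K0c (S.jt (uu z)).jet (co6 x e n z)
        (cx6 (co6 x e n η) (co6 x e n d))) +
     dt6 (cx6 (co6 x e n η) (co6 x e n c)) (K1c (S.jt (uu z)).jet (co6 x e n z) (co6 x e n ζ)
        (cx6 (co6 x e n z) (co6 x e n d))) +
     dt6 (cx6 (co6 x e n z) (co6 x e n c)) (K2c (S.jt (uu z)).jet (co6 x e n z) (co6 x e n η)
        (co6 x e n ζ) (cx6 (co6 x e n z) (co6 x e n d))) +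
     dt6 (cx6 (co6 x e n z) (co6 x e n c)) (K1c (S.jt (uu z)).jet (co6 x e n z) (co6 x e n ζ)
        (cx6 (co6 x e n η) (co6 x e n d))) +
     dt6 (cx6 (co6 x e n η) (co6 x e n c)) (K0c (S.jt (uu z)).jet (co6 x e n z)
        (cx6 (co6 x e n ζ) (co6 x e n d))) +
     dt6 (cx6 (co6 x e n z) (co6 x e n c)) (K1c (S.jt (uu z)).jet (co6 x e n z) (co6 x e n η)
        (cx6 (co6 x e n ζ) (co6 x e n d)))) := by
  rw [Mom.F2]
  simp only [co_Q F, S.co_K1 F, S.co_K F, S.co_K2 F, co_J F]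

end

end Dat

end Pool.Agent.H781.S22
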