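import Pool.Agent.H781.S22.Pex

/-!
Evaluation at a point of `S² × S²` with an adapted frame.
-/

open Bundle Manifold ContDiff ContinuousLinearMap Filter VectorField Metric
open scoped Topology RealInnerProductSpace

set_option autoImplicit false
set_option synthInstance.maxHeartbeats 400000
set_option maxHeartbeats 4000000
set_option linter.unusedSectionVars false
set_option linter.unusedVariables false
set_option linter.unusedSimpArgs false

noncomputable section

namespace Pool.Agent.H781.S22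

open Pool.Agent.H893R5.HO Pool.Agent.H821R2 HopfPP

/-- adapted frames at `(x, k x + s e)` -/
structure Ad (x e n : U3) (k s : ℝ) : Prop where
  F : Fr x e n
  h : k ^ 2 + s ^ 2 = 1

/-- the base point -/
def pt (x e : U3) (k s : ℝ) : A6 := (x, k • x + s • e)

/-- covectors with given components -/
def cvec (x e n : U3) (k s : ℝ) (ξ : Fin 4 → ℝ) : A6 :=
  ((ξ 2 - ξ 0) • e + (k * ξ 3 - ξ 1) • n, ξ 0 • (k • e - s • x) - ξ 3 • n)

section

variable {x e n : U3} {k s : ℝ} (A : Ad x e n k s)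

include A

theorem co_pt : co6 x e n (pt x e k s) = zc k s := by
  have F := A.F
  have ex := F.xe
  have nx := F.xn
  have ne := F.en
  rw [real_inner_comm] at ex nx ne
  refine Prod.ext ?_ ?_
  · funext i
    fin_cases i
    · exact F.xx
    · exact ex
    · exact nx
  · funext i
    fin_cases i
    · change ⟪x, k • x + s • e⟫ = k
      rw [inner_add_right, real_inner_smul_right, real_inner_smul_right, F.xx, F.xe]
      ring
    · change ⟪e, k • x + s • e⟫ = s
      rw [inner_add_right, real_inner_smul_right, real_inner_smul_right, F.ee, ex]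
      ring
    · change ⟪n, k • x + s • e⟫ = 0
      rw [inner_add_right, real_inner_smul_right, real_inner_smul_right, nx, ne]
      ring

theorem uu_pt : uu (pt x e k s) = k := by
  change ⟪x, k • x + s • e⟫ = k
  rw [inner_add_right, real_inner_smul_right, real_inner_smul_right, A.F.xx, A.F.xe]
  ring

theorem co_cvec (ξ : Fin 4 → ℝ) : co6 x e n (cvec x e n k s ξ) = ac k s ξ := by
  have F := A.F
  have ex := F.xe
  have nx := F.xn
  have ne := F.en
  rw [real_inner_comm] at ex nx ne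
  refine Prod.ext ?_ ?_
  · funext i
    fin_cases i <;>
      simp [cvec, co6, co, ac, inner_add_right, real_inner_smul_right, F.xx, F.ee, F.nn, F.xe,
        F.xn, F.en, ex, nx, ne, -inner_self_eq_norm_sq_to_K, -real_inner_self_eq_norm_sq] <;> ring
  · funext i
    fin_cases i <;>
      simp [cvec, co6, co, ac, inner_add_right, inner_sub_right, real_inner_smul_right, F.xx, F.ee,
        F.nn, F.xe, F.xn, F.en, ex, nx, ne, -inner_self_eq_norm_sq_to_K,
        -real_inner_self_eq_norm_sq] <;> ring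

end

namespace Dat

variable (S : Dat) {x e n : U3} {k s : ℝ} (A : Ad x e n k s)

include A

theorem co_Wc (v : Fin 4 → ℝ) : co6 x e n (S.W (pt x e k s) (cvec x e n k s v)) =
    Zv (S.jt k) k s v := by
  rw [S.co_W A.F, co_pt A, uu_pt A, co_cvec A, cx6_zc k s A.h, W_eval _ _ _ A.h]

theorem co_th (v w : Fin 4 → ℝ) : co6 x e n (m22.W1 S.K S.K1 (pt x e k s)
      (S.W (pt x e k s) (cvec x e n k s w)) (cvec x e n k s v)) = thv (S.jt k) k s v w := by
  rw [S.co_W1 A.F, S.co_Wc A, co_pt A, uu_pt A, co_cvec A, cx6_zc k s A.h, cx6_Zv,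
    th_eval _ _ _ A.h]

theorem F1_pt (a b v : Fin 4 → ℝ) : m22.F1 S.K S.K1 (cvec x e n k s a) (cvec x e n k s b)
    (pt x e k s) (S.W (pt x e k s) (cvec x e n k s v)) = F1k (S.jt k) k s a b v := by
  rw [S.co_F1 A.F, S.co_Wc A, co_pt A, uu_pt A, co_cvec A, co_cvec A, cx6_zc k s A.h,
    cx6_zc k s A.h, cx6_Zv, cx6_Zv, s1_eq _ _ _ A.h, s4_eq _ _ _ A.h, K0c_symm,
    s1_eq _ _ _ A.h, F1k]

theorem F1_th (a b v w : Fin 4 → ℝ) : m22.F1 S.K S.K1 (cvec x e n k s a) (cvec x e n k s b)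
    (pt x e k s) (m22.W1 S.K S.K1 (pt x e k s)
      (S.W (pt x e k s) (cvec x e n k s w)) (cvec x e n k s v)) =
      s6 (S.jt k) k s a b v w + s7 (S.jt k) k s a b v w + s6 (S.jt k) k s b a v w := by
  rw [S.co_F1 A.F, S.co_th A, co_pt A, uu_pt A, co_cvec A, co_cvec A, cx6_zc k s A.h,
    cx6_zc k s A.h, s6_eq _ _ _ A.h, s7_eq _ _ _ A.h, K0c_symm, s6_eq _ _ _ A.h]

theorem F2_pt (a b v w : Fin 4 → ℝ) : m22.F2 S.K S.K1 S.K2 (cvec x e n k s a)
    (cvec x e n k s b) (pt x e k s) (S.W (pt x e k s) (cvec x e n k s v))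
    (S.W (pt x e k s) (cvec x e n k s w)) (m22.W1 S.K S.K1 (pt x e k s)
      (S.W (pt x e k s) (cvec x e n k s w)) (cvec x e n k s v)) =
      F2k (S.jt k) k s a b v w := by
  rw [S.co_F2 A.F, S.F1_th A, S.co_Wc A, S.co_Wc A, co_pt A, uu_pt A, co_cvec A, co_cvec A,
    cx6_zc k s A.h, cx6_zc k s A.h, cx6_Zv, cx6_Zv, cx6_Zv, cx6_Zv,
    s3_eq _ _ _ A.h, s2_eq _ _ _ A.h, s3_eq _ _ _ A.h, s5_eq _ _ _ A.h,
    K1c_symm _ _ _ (Jv k s a), s3_eq _ _ _ A.h, s2_eq _ _ _ A.h, K1c_symm _ _ _ (Jv k s a),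
    s3_eq _ _ _ A.h, F2k]

/-- second directional derivatives of the cometric coefficients -/
theorem Dir2_pt (a b v w : Fin 4 → ℝ) : Emb.Dir S.W (cvec x e n k s w)
    (Emb.Dir S.W (cvec x e n k s v) (X22.FF S.W (cvec x e n k s a) (cvec x e n k s b)))
    (pt x e k s) = F2k (S.jt k) k s a b v w := by
  rw [W, m22.FF_WK, m22.Dir_Dir S.hK S.hK1]
  exact S.F2_pt A a b v w

theorem fder_pt (a b v : Fin 4 → ℝ) : fderiv ℝ (X22.FF S.W (cvec x e n k s a)
    (cvec x e n k s b)) (pt x e k s) (S.W (pt x e k s) (cvec x e n k s v)) =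
      F1k (S.jt k) k s a b v := by
  rw [W, m22.FF_WK, m22.fderiv_F S.hK]
  exact S.F1_pt A a b v

/-- the bracket -/
theorem co_Br (a b : Fin 4 → ℝ) : co6 x e n (Emb.Br S.W (cvec x e n k s a)
    (cvec x e n k s b) (pt x e k s)) =
      thv (S.jt k) k s b a - thv (S.jt k) k s a b := by
  rw [Emb.Br, co6_sub]
  have h1 : fderiv ℝ (fun y => S.W y (cvec x e n k s b)) (pt x e k s)
      (S.W (pt x e k s) (cvec x e n k s a)) = m22.W1 S.K S.K1 (pt x e k s)
      (S.W (pt x e k s) (cvec x e n k s a)) (cvec x e n k s b) := m22.fderiv_W S.hK _ _ _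
  have h2 : fderiv ℝ (fun y => S.W y (cvec x e n k s a)) (pt x e k s)
      (S.W (pt x e k s) (cvec x e n k s b)) = m22.W1 S.K S.K1 (pt x e k s)
      (S.W (pt x e k s) (cvec x e n k s b)) (cvec x e n k s a) := m22.fderiv_W S.hK _ _ _
  rw [h1, h2, S.co_th A, S.co_th A]

end Dat

end Pool.Agent.H781.S22
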