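import Pool.Agent.H781.S22.Eval

/-!
Evaluation of the curvature expression in an adapted frame: scalars.
-/

open Bundle Manifold ContDiff ContinuousLinearMap Filter VectorField Metric
open scoped Topology RealInnerProductSpace

set_option autoImplicit false
set_option synthInstance.maxHeartbeats 400000
set_option maxHeartbeats 4000000
set_option linter.unusedSectionVars false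
set_option linter.unusedVariables false
set_option linter.unusedSimpArgs false

noncomputable section

namespace Pool.Agent.H781.S22

open Pool.Agent.H893R5.HO Pool.Agent.H821R2 HopfPP

/-- scalar -/
def s1 (j : Jt) (k s : ℝ) (x v y : Fin 4 → ℝ) : ℝ :=
  k ^ 3 * s * j.e0 ^ 2 * x 0 * y 3 * v 3 - k ^ 2 * s * j.e0 * j.c0 * x 0 * y 1 * v 3 - k ^ 2 * s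
  * j.e0 * j.c0 * x 0 * y 3 * v 1 - k * s * j.a0 * j.e0 * x 0 * y 3 * v 3 + k * s * j.a0 * j.e0 *
  x 3 * y 3 * v 0 - k * s * j.e0 ^ 2 * x 0 * y 3 * v 3 + k * s * j.e0 * j.c0 * x 3 * y 3 * v 2 +
  k * s * j.c0 ^ 2 * x 0 * y 1 * v 1 - k * s * j.c0 ^ 2 * x 3 * y 3 * v 2 + s * j.a0 * j.c0 * x 0
  * y 1 * v 3 - s * j.a0 * j.c0 * x 3 * y 1 * v 0 + s * j.e0 * j.c0 * x 0 * y 1 * v 3 + s * j.c0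
  ^ 2 * x 0 * y 3 * v 1 + s * j.c0 ^ 2 * x 1 * y 3 * v 2 - s * j.c0 ^ 2 * x 2 * y 3 * v 1 - s *
  j.c0 ^ 2 * x 3 * y 1 * v 2

theorem s1_eq (j : Jt) (k s : ℝ) (h : k ^ 2 + s ^ 2 = 1) (x v y : Fin 4 → ℝ) :
    dt6 (J1v j k s x v) (K0c j.jet (zc k s) (Jv k s y)) = s1 j k s x v y := by
  simp only [s1, Jv, Zv, J1v, lv, mv, zc, ac, thv, cx6, cx, K0c, K1c, K2c, T1c, T2c, T3c, S3c, Bc, Jt.jet, dt, dt6]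
  simp
  linear_combination (-(k * s * j.e0 ^ 2 * x 0 * y 3 * v 3) + s * j.e0 * j.c0 * x 0 * y 1 * v 3) * h

/-- scalar -/
def s2 (j : Jt) (k s : ℝ) (x v y w : Fin 4 → ℝ) : ℝ :=
  k ^ 6 * j.e0 ^ 3 * x 0 * y 0 * v 3 * w 3 - k ^ 6 * j.e0 ^ 2 * j.c0 * x 0 * y 0 * v 3 * w 3 - k
  ^ 5 * j.e0 ^ 2 * j.c0 * x 0 * y 0 * v 1 * w 3 - k ^ 5 * j.e0 ^ 2 * j.c0 * x 0 * y 0 * v 3 * w 1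
  + k ^ 5 * j.e0 * j.c0 ^ 2 * x 0 * y 0 * v 1 * w 3 + k ^ 5 * j.e0 * j.c0 ^ 2 * x 0 * y 0 * v 3 *
  w 1 - k ^ 4 * j.a0 * j.e0 ^ 2 * x 0 * y 0 * v 3 * w 3 + k ^ 4 * j.a0 * j.e0 ^ 2 * x 0 * y 3 * v
  3 * w 0 + k ^ 4 * j.a0 * j.e0 ^ 2 * x 3 * y 0 * v 0 * w 3 + 2 * k ^ 4 * j.a0 * j.e0 * j.c0 * x
  0 * y 0 * v 3 * w 3 - k ^ 4 * j.a0 * j.e0 * j.c0 * x 0 * y 3 * v 3 * w 0 - k ^ 4 * j.a0 * j.e0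
  * j.c0 * x 3 * y 0 * v 0 * w 3 - 2 * k ^ 4 * j.e0 ^ 3 * x 0 * y 0 * v 3 * w 3 + 3 * k ^ 4 *
  j.e0 ^ 2 * j.c0 * x 0 * y 0 * v 3 * w 3 + k ^ 4 * j.e0 ^ 2 * j.c0 * x 0 * y 3 * v 3 * w 2 + k ^
  4 * j.e0 ^ 2 * j.c0 * x 3 * y 0 * v 2 * w 3 + k ^ 4 * j.e0 * j.c0 ^ 2 * x 0 * y 0 * v 1 * w 1 -
  2 * k ^ 4 * j.e0 * j.c0 ^ 2 * x 0 * y 3 * v 3 * w 2 - 2 * k ^ 4 * j.e0 * j.c0 ^ 2 * x 3 * y 0 *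
  v 2 * w 3 - k ^ 4 * j.c0 ^ 3 * x 0 * y 0 * v 1 * w 1 - k ^ 3 * j.a0 * j.e0 * j.c0 * x 0 * y 3 *
  v 1 * w 0 - k ^ 3 * j.a0 * j.e0 * j.c0 * x 3 * y 0 * v 0 * w 1 - k ^ 3 * j.a0 * j.c0 ^ 2 * x 0
  * y 0 * v 1 * w 3 - k ^ 3 * j.a0 * j.c0 ^ 2 * x 0 * y 0 * v 3 * w 1 + k ^ 3 * j.a0 * j.c0 ^ 2 *
  x 0 * y 3 * v 1 * w 0 + k ^ 3 * j.a0 * j.c0 ^ 2 * x 3 * y 0 * v 0 * w 1 + k ^ 3 * j.e0 ^ 2 *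
  j.c0 * x 0 * y 0 * v 1 * w 3 + k ^ 3 * j.e0 ^ 2 * j.c0 * x 0 * y 0 * v 3 * w 1 - k ^ 3 * j.e0 *
  j.c0 ^ 2 * x 0 * y 0 * v 1 * w 3 - k ^ 3 * j.e0 * j.c0 ^ 2 * x 0 * y 0 * v 3 * w 1 + k ^ 3 *
  j.e0 * j.c0 ^ 2 * x 0 * y 1 * v 3 * w 2 - k ^ 3 * j.e0 * j.c0 ^ 2 * x 0 * y 2 * v 3 * w 1 - k ^
  3 * j.e0 * j.c0 ^ 2 * x 0 * y 3 * v 1 * w 2 + k ^ 3 * j.e0 * j.c0 ^ 2 * x 1 * y 0 * v 2 * w 3 -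
  k ^ 3 * j.e0 * j.c0 ^ 2 * x 2 * y 0 * v 1 * w 3 - k ^ 3 * j.e0 * j.c0 ^ 2 * x 3 * y 0 * v 2 * w
  1 + 2 * k ^ 3 * j.c0 ^ 3 * x 0 * y 3 * v 1 * w 2 + 2 * k ^ 3 * j.c0 ^ 3 * x 3 * y 0 * v 2 * w 1
  - k ^ 2 * j.a0 ^ 2 * j.e0 * x 0 * y 0 * v 3 * w 3 + k ^ 2 * j.a0 ^ 2 * j.e0 * x 3 * y 3 * v 0 *
  w 0 - k ^ 2 * j.a0 ^ 2 * j.c0 * x 0 * y 0 * v 3 * w 3 + k ^ 2 * j.a0 ^ 2 * j.c0 * x 0 * y 3 * v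
  3 * w 0 + k ^ 2 * j.a0 ^ 2 * j.c0 * x 3 * y 0 * v 0 * w 3 - k ^ 2 * j.a0 ^ 2 * j.c0 * x 3 * y 3
  * v 0 * w 0 - k ^ 2 * j.a0 * j.e0 ^ 2 * x 0 * y 3 * v 3 * w 0 - k ^ 2 * j.a0 * j.e0 ^ 2 * x 3 *
  y 0 * v 0 * w 3 - 4 * k ^ 2 * j.a0 * j.e0 * j.c0 * x 0 * y 0 * v 3 * w 3 + 2 * k ^ 2 * j.a0 *
  j.e0 * j.c0 * x 0 * y 3 * v 3 * w 0 + 2 * k ^ 2 * j.a0 * j.e0 * j.c0 * x 3 * y 0 * v 0 * w 3 +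
  k ^ 2 * j.a0 * j.e0 * j.c0 * x 3 * y 3 * v 0 * w 2 + k ^ 2 * j.a0 * j.e0 * j.c0 * x 3 * y 3 * v
  2 * w 0 + k ^ 2 * j.a0 * j.c0 ^ 2 * x 0 * y 0 * v 1 * w 1 + 2 * k ^ 2 * j.a0 * j.c0 ^ 2 * x 0 *
  y 3 * v 3 * w 2 + 2 * k ^ 2 * j.a0 * j.c0 ^ 2 * x 3 * y 0 * v 2 * w 3 - 2 * k ^ 2 * j.a0 * j.c0
  ^ 2 * x 3 * y 3 * v 0 * w 2 - 2 * k ^ 2 * j.a0 * j.c0 ^ 2 * x 3 * y 3 * v 2 * w 0 + k ^ 2 *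
  j.e0 ^ 3 * x 0 * y 0 * v 3 * w 3 - 3 * k ^ 2 * j.e0 ^ 2 * j.c0 * x 0 * y 0 * v 3 * w 3 - k ^ 2
  * j.e0 ^ 2 * j.c0 * x 0 * y 3 * v 3 * w 2 - k ^ 2 * j.e0 ^ 2 * j.c0 * x 3 * y 0 * v 2 * w 3 + 3
  * k ^ 2 * j.e0 * j.c0 ^ 2 * x 0 * y 3 * v 3 * w 2 + 3 * k ^ 2 * j.e0 * j.c0 ^ 2 * x 3 * y 0 * v
  2 * w 3 + k ^ 2 * j.e0 * j.c0 ^ 2 * x 3 * y 3 * v 2 * w 2 - k ^ 2 * j.c0 ^ 3 * x 0 * y 0 * v 1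
  * w 1 - k ^ 2 * j.c0 ^ 3 * x 0 * y 1 * v 1 * w 2 + k ^ 2 * j.c0 ^ 3 * x 0 * y 2 * v 1 * w 1 - k
  ^ 2 * j.c0 ^ 3 * x 1 * y 0 * v 2 * w 1 + k ^ 2 * j.c0 ^ 3 * x 2 * y 0 * v 1 * w 1 - 2 * k ^ 2 *
  j.c0 ^ 3 * x 3 * y 3 * v 2 * w 2 + k * j.a0 ^ 2 * j.c0 * x 0 * y 0 * v 1 * w 3 + k * j.a0 ^ 2 *
  j.c0 * x 0 * y 0 * v 3 * w 1 - k * j.a0 ^ 2 * j.c0 * x 0 * y 3 * v 1 * w 0 - k * j.a0 ^ 2 *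
  j.c0 * x 3 * y 0 * v 0 * w 1 + k * j.a0 * j.e0 * j.c0 * x 0 * y 0 * v 1 * w 3 + k * j.a0 * j.e0
  * j.c0 * x 0 * y 0 * v 3 * w 1 - k * j.a0 * j.c0 ^ 2 * x 0 * y 1 * v 3 * w 2 + k * j.a0 * j.c0
  ^ 2 * x 0 * y 2 * v 3 * w 1 - k * j.a0 * j.c0 ^ 2 * x 0 * y 3 * v 1 * w 2 - k * j.a0 * j.c0 ^ 2
  * x 1 * y 0 * v 2 * w 3 + k * j.a0 * j.c0 ^ 2 * x 1 * y 3 * v 2 * w 0 + k * j.a0 * j.c0 ^ 2 * x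
  2 * y 0 * v 1 * w 3 - k * j.a0 * j.c0 ^ 2 * x 2 * y 3 * v 1 * w 0 - k * j.a0 * j.c0 ^ 2 * x 3 *
  y 0 * v 2 * w 1 + k * j.a0 * j.c0 ^ 2 * x 3 * y 1 * v 0 * w 2 - k * j.a0 * j.c0 ^ 2 * x 3 * y 2
  * v 0 * w 1 - k * j.e0 * j.c0 ^ 2 * x 0 * y 1 * v 3 * w 2 + k * j.e0 * j.c0 ^ 2 * x 0 * y 2 * v
  3 * w 1 - k * j.e0 * j.c0 ^ 2 * x 1 * y 0 * v 2 * w 3 + k * j.e0 * j.c0 ^ 2 * x 2 * y 0 * v 1 *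
  w 3 - k * j.c0 ^ 3 * x 0 * y 3 * v 1 * w 2 - k * j.c0 ^ 3 * x 3 * y 0 * v 2 * w 1 + j.a0 ^ 3 *
  x 0 * y 0 * v 3 * w 3 - j.a0 ^ 3 * x 0 * y 3 * v 3 * w 0 - j.a0 ^ 3 * x 3 * y 0 * v 0 * w 3 +
  j.a0 ^ 3 * x 3 * y 3 * v 0 * w 0 + 2 * j.a0 ^ 2 * j.e0 * x 0 * y 0 * v 3 * w 3 - j.a0 ^ 2 *
  j.e0 * x 0 * y 3 * v 3 * w 0 - j.a0 ^ 2 * j.e0 * x 3 * y 0 * v 0 * w 3 + j.a0 ^ 2 * j.c0 * x 0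
  * y 0 * v 3 * w 3 - j.a0 ^ 2 * j.c0 * x 0 * y 3 * v 3 * w 0 - j.a0 ^ 2 * j.c0 * x 0 * y 3 * v 3
  * w 2 - j.a0 ^ 2 * j.c0 * x 3 * y 0 * v 0 * w 3 - j.a0 ^ 2 * j.c0 * x 3 * y 0 * v 2 * w 3 +
  j.a0 ^ 2 * j.c0 * x 3 * y 3 * v 0 * w 0 + j.a0 ^ 2 * j.c0 * x 3 * y 3 * v 0 * w 2 + j.a0 ^ 2 *
  j.c0 * x 3 * y 3 * v 2 * w 0 + j.a0 * j.e0 ^ 2 * x 0 * y 0 * v 3 * w 3 + 2 * j.a0 * j.e0 * j.c0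
  * x 0 * y 0 * v 3 * w 3 - j.a0 * j.e0 * j.c0 * x 0 * y 3 * v 3 * w 0 - j.a0 * j.e0 * j.c0 * x 0
  * y 3 * v 3 * w 2 - j.a0 * j.e0 * j.c0 * x 3 * y 0 * v 0 * w 3 - j.a0 * j.e0 * j.c0 * x 3 * y 0
  * v 2 * w 3 - j.a0 * j.c0 ^ 2 * x 0 * y 3 * v 3 * w 2 - j.a0 * j.c0 ^ 2 * x 3 * y 0 * v 2 * w 3
  + j.a0 * j.c0 ^ 2 * x 3 * y 3 * v 0 * w 2 + j.a0 * j.c0 ^ 2 * x 3 * y 3 * v 2 * w 0 + j.a0 *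
  j.c0 ^ 2 * x 3 * y 3 * v 2 * w 2 + j.e0 ^ 2 * j.c0 * x 0 * y 0 * v 3 * w 3 - j.e0 * j.c0 ^ 2 *
  x 0 * y 3 * v 3 * w 2 - j.e0 * j.c0 ^ 2 * x 3 * y 0 * v 2 * w 3 + j.c0 ^ 3 * x 0 * y 0 * v 1 *
  w 1 + j.c0 ^ 3 * x 0 * y 1 * v 1 * w 2 - j.c0 ^ 3 * x 0 * y 2 * v 1 * w 1 + j.c0 ^ 3 * x 1 * y
  0 * v 2 * w 1 + j.c0 ^ 3 * x 1 * y 1 * v 2 * w 2 - j.c0 ^ 3 * x 1 * y 2 * v 2 * w 1 - j.c0 ^ 3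
  * x 2 * y 0 * v 1 * w 1 - j.c0 ^ 3 * x 2 * y 1 * v 1 * w 2 + j.c0 ^ 3 * x 2 * y 2 * v 1 * w 1 +
  j.c0 ^ 3 * x 3 * y 3 * v 2 * w 2

theorem s2_eq (j : Jt) (k s : ℝ) (h : k ^ 2 + s ^ 2 = 1) (x v y w : Fin 4 → ℝ) :
    dt6 (J1v j k s x v) (K0c j.jet (zc k s) (J1v j k s y w)) = s2 j k s x v y w := by
  simp only [s2, Jv, Zv, J1v, lv, mv, zc, ac, thv, cx6, cx, K0c, K1c, K2c, T1c, T2c, T3c, S3c, Bc, Jt.jet, dt, dt6]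
  simp
  linear_combination (-(k ^ 4 * j.e0 ^ 3 * x 0 * y 0 * v 3 * w 3) + k ^ 4 * j.e0 ^ 2 * j.c0 * x 0 * y 0 * v 3 * w 3
    + k ^ 3 * j.e0 ^ 2 * j.c0 * x 0 * y 0 * v 1 * w 3 + k ^ 3 * j.e0 ^ 2 * j.c0 * x 0 * y 0 * v 3
    * w 1 - k ^ 3 * j.e0 * j.c0 ^ 2 * x 0 * y 0 * v 1 * w 3 - k ^ 3 * j.e0 * j.c0 ^ 2 * x 0 * y 0
    * v 3 * w 1 + k ^ 2 * s ^ 2 * j.e0 ^ 3 * x 0 * y 0 * v 3 * w 3 - k ^ 2 * s ^ 2 * j.e0 ^ 2 *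
    j.c0 * x 0 * y 0 * v 3 * w 3 + k ^ 2 * j.a0 * j.e0 ^ 2 * x 0 * y 0 * v 3 * w 3 - k ^ 2 * j.a0
    * j.e0 ^ 2 * x 0 * y 3 * v 3 * w 0 - k ^ 2 * j.a0 * j.e0 ^ 2 * x 3 * y 0 * v 0 * w 3 - 2 * k
    ^ 2 * j.a0 * j.e0 * j.c0 * x 0 * y 0 * v 3 * w 3 + k ^ 2 * j.a0 * j.e0 * j.c0 * x 0 * y 3 * v
    3 * w 0 + k ^ 2 * j.a0 * j.e0 * j.c0 * x 3 * y 0 * v 0 * w 3 + k ^ 2 * j.a0 * j.c0 ^ 2 * x 0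
    * y 0 * v 1 * w 1 + k ^ 2 * j.e0 ^ 3 * x 0 * y 0 * v 3 * w 3 - 2 * k ^ 2 * j.e0 ^ 2 * j.c0 *
    x 0 * y 0 * v 3 * w 3 - k ^ 2 * j.e0 ^ 2 * j.c0 * x 0 * y 3 * v 3 * w 2 - k ^ 2 * j.e0 ^ 2 *
    j.c0 * x 3 * y 0 * v 2 * w 3 + 2 * k ^ 2 * j.e0 * j.c0 ^ 2 * x 0 * y 3 * v 3 * w 2 + 2 * k ^
    2 * j.e0 * j.c0 ^ 2 * x 3 * y 0 * v 2 * w 3 + k ^ 2 * j.c0 ^ 3 * x 0 * y 0 * v 1 * w 1 + k *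
    s ^ 2 * j.a0 * j.e0 * j.c0 * x 0 * y 0 * v 1 * w 3 + k * s ^ 2 * j.a0 * j.e0 * j.c0 * x 0 * y
    0 * v 3 * w 1 + k * s ^ 2 * j.e0 * j.c0 ^ 2 * x 0 * y 0 * v 1 * w 3 + k * s ^ 2 * j.e0 * j.c0
    ^ 2 * x 0 * y 0 * v 3 * w 1 + k * j.a0 ^ 2 * j.c0 * x 0 * y 0 * v 1 * w 3 + k * j.a0 ^ 2 *
    j.c0 * x 0 * y 0 * v 3 * w 1 - k * j.a0 ^ 2 * j.c0 * x 0 * y 3 * v 1 * w 0 - k * j.a0 ^ 2 *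
    j.c0 * x 3 * y 0 * v 0 * w 1 + k * j.a0 * j.e0 * j.c0 * x 0 * y 0 * v 1 * w 3 + k * j.a0 *
    j.e0 * j.c0 * x 0 * y 0 * v 3 * w 1 + k * j.a0 * j.c0 ^ 2 * x 0 * y 0 * v 1 * w 3 + k * j.a0
    * j.c0 ^ 2 * x 0 * y 0 * v 3 * w 1 - k * j.a0 * j.c0 ^ 2 * x 0 * y 3 * v 1 * w 0 - k * j.a0 *
    j.c0 ^ 2 * x 0 * y 3 * v 1 * w 2 - k * j.a0 * j.c0 ^ 2 * x 3 * y 0 * v 0 * w 1 - k * j.a0 *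
    j.c0 ^ 2 * x 3 * y 0 * v 2 * w 1 - k * j.e0 * j.c0 ^ 2 * x 0 * y 1 * v 3 * w 2 + k * j.e0 *
    j.c0 ^ 2 * x 0 * y 2 * v 3 * w 1 - k * j.e0 * j.c0 ^ 2 * x 1 * y 0 * v 2 * w 3 + k * j.e0 *
    j.c0 ^ 2 * x 2 * y 0 * v 1 * w 3 - k * j.c0 ^ 3 * x 0 * y 3 * v 1 * w 2 - k * j.c0 ^ 3 * x 3
    * y 0 * v 2 * w 1 + s ^ 4 * j.a0 * j.e0 ^ 2 * x 0 * y 0 * v 3 * w 3 + s ^ 4 * j.e0 ^ 2 * j.c0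
    * x 0 * y 0 * v 3 * w 3 + 2 * s ^ 2 * j.a0 ^ 2 * j.e0 * x 0 * y 0 * v 3 * w 3 - s ^ 2 * j.a0
    ^ 2 * j.e0 * x 0 * y 3 * v 3 * w 0 - s ^ 2 * j.a0 ^ 2 * j.e0 * x 3 * y 0 * v 0 * w 3 + s ^ 2
    * j.a0 * j.e0 ^ 2 * x 0 * y 0 * v 3 * w 3 + 2 * s ^ 2 * j.a0 * j.e0 * j.c0 * x 0 * y 0 * v 3
    * w 3 - s ^ 2 * j.a0 * j.e0 * j.c0 * x 0 * y 3 * v 3 * w 0 - s ^ 2 * j.a0 * j.e0 * j.c0 * x 0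
    * y 3 * v 3 * w 2 - s ^ 2 * j.a0 * j.e0 * j.c0 * x 3 * y 0 * v 0 * w 3 - s ^ 2 * j.a0 * j.e0
    * j.c0 * x 3 * y 0 * v 2 * w 3 + s ^ 2 * j.e0 ^ 2 * j.c0 * x 0 * y 0 * v 3 * w 3 - s ^ 2 *
    j.e0 * j.c0 ^ 2 * x 0 * y 3 * v 3 * w 2 - s ^ 2 * j.e0 * j.c0 ^ 2 * x 3 * y 0 * v 2 * w 3 +
    j.a0 ^ 3 * x 0 * y 0 * v 3 * w 3 - j.a0 ^ 3 * x 0 * y 3 * v 3 * w 0 - j.a0 ^ 3 * x 3 * y 0 *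
    v 0 * w 3 + j.a0 ^ 3 * x 3 * y 3 * v 0 * w 0 + 2 * j.a0 ^ 2 * j.e0 * x 0 * y 0 * v 3 * w 3 -
    j.a0 ^ 2 * j.e0 * x 0 * y 3 * v 3 * w 0 - j.a0 ^ 2 * j.e0 * x 3 * y 0 * v 0 * w 3 + j.a0 ^ 2
    * j.c0 * x 0 * y 0 * v 3 * w 3 - j.a0 ^ 2 * j.c0 * x 0 * y 3 * v 3 * w 0 - j.a0 ^ 2 * j.c0 *
    x 0 * y 3 * v 3 * w 2 - j.a0 ^ 2 * j.c0 * x 3 * y 0 * v 0 * w 3 - j.a0 ^ 2 * j.c0 * x 3 * y 0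
    * v 2 * w 3 + j.a0 ^ 2 * j.c0 * x 3 * y 3 * v 0 * w 0 + j.a0 ^ 2 * j.c0 * x 3 * y 3 * v 0 * w
    2 + j.a0 ^ 2 * j.c0 * x 3 * y 3 * v 2 * w 0 + j.a0 * j.e0 ^ 2 * x 0 * y 0 * v 3 * w 3 + 2 *
    j.a0 * j.e0 * j.c0 * x 0 * y 0 * v 3 * w 3 - j.a0 * j.e0 * j.c0 * x 0 * y 3 * v 3 * w 0 -
    j.a0 * j.e0 * j.c0 * x 0 * y 3 * v 3 * w 2 - j.a0 * j.e0 * j.c0 * x 3 * y 0 * v 0 * w 3 -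
    j.a0 * j.e0 * j.c0 * x 3 * y 0 * v 2 * w 3 - j.a0 * j.c0 ^ 2 * x 0 * y 3 * v 3 * w 2 - j.a0 *
    j.c0 ^ 2 * x 3 * y 0 * v 2 * w 3 + j.a0 * j.c0 ^ 2 * x 3 * y 3 * v 0 * w 2 + j.a0 * j.c0 ^ 2
    * x 3 * y 3 * v 2 * w 0 + j.a0 * j.c0 ^ 2 * x 3 * y 3 * v 2 * w 2 + j.e0 ^ 2 * j.c0 * x 0 * y
    0 * v 3 * w 3 - j.e0 * j.c0 ^ 2 * x 0 * y 3 * v 3 * w 2 - j.e0 * j.c0 ^ 2 * x 3 * y 0 * v 2 *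
    w 3 + j.c0 ^ 3 * x 3 * y 3 * v 2 * w 2) * h

/-- scalar -/
def s3 (j : Jt) (k s : ℝ) (x v y w : Fin 4 → ℝ) : ℝ :=
  k ^ 5 * j.a0 * j.e0 * j.e1 * x 0 * y 3 * v 3 * w 0 - k ^ 4 * j.a0 * j.e0 * j.c1 * x 0 * y 1 * v
  3 * w 0 - k ^ 4 * j.a0 * j.e1 * j.c0 * x 0 * y 3 * v 1 * w 0 - 2 * k ^ 4 * j.e0 ^ 2 * j.c0 * x
  0 * y 3 * v 3 * w 2 + 2 * k ^ 4 * j.e0 * j.c0 ^ 2 * x 0 * y 3 * v 3 * w 2 - k ^ 3 * j.a0 ^ 2 *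
  j.e1 * x 0 * y 3 * v 3 * w 0 + k ^ 3 * j.a0 ^ 2 * j.e1 * x 3 * y 3 * v 0 * w 0 - 2 * k ^ 3 *
  j.a0 * j.e0 * j.e1 * x 0 * y 3 * v 3 * w 0 + k ^ 3 * j.a0 * j.e1 * j.c0 * x 3 * y 3 * v 2 * w 0
  + k ^ 3 * j.a0 * j.c0 * j.c1 * x 0 * y 1 * v 1 * w 0 - k ^ 3 * j.a0 * j.c0 * j.c1 * x 3 * y 3 *
  v 2 * w 0 + k ^ 3 * j.e0 ^ 2 * j.c0 * x 0 * y 0 * v 3 * w 1 - k ^ 3 * j.e0 * j.c0 ^ 2 * x 0 * y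
  0 * v 3 * w 1 + 2 * k ^ 3 * j.e0 * j.c0 ^ 2 * x 0 * y 3 * v 1 * w 2 - 2 * k ^ 3 * j.c0 ^ 3 * x
  0 * y 3 * v 1 * w 2 + k ^ 2 * j.a0 ^ 2 * j.c1 * x 0 * y 1 * v 3 * w 0 - k ^ 2 * j.a0 ^ 2 * j.c1
  * x 3 * y 1 * v 0 * w 0 + 2 * k ^ 2 * j.a0 * j.e0 * j.c0 * x 0 * y 3 * v 3 * w 2 - 2 * k ^ 2 *
  j.a0 * j.e0 * j.c0 * x 3 * y 3 * v 0 * w 2 + 2 * k ^ 2 * j.a0 * j.e0 * j.c1 * x 0 * y 1 * v 3 *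
  w 0 + k ^ 2 * j.a0 * j.e1 * j.c0 * x 0 * y 3 * v 1 * w 0 - 2 * k ^ 2 * j.a0 * j.c0 ^ 2 * x 0 *
  y 3 * v 3 * w 2 + 2 * k ^ 2 * j.a0 * j.c0 ^ 2 * x 3 * y 3 * v 0 * w 2 + k ^ 2 * j.a0 * j.c0 *
  j.c1 * x 0 * y 3 * v 1 * w 0 + k ^ 2 * j.a0 * j.c0 * j.c1 * x 1 * y 3 * v 2 * w 0 - k ^ 2 *
  j.a0 * j.c0 * j.c1 * x 2 * y 3 * v 1 * w 0 - k ^ 2 * j.a0 * j.c0 * j.c1 * x 3 * y 1 * v 2 * w 0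
  + 3 * k ^ 2 * j.e0 ^ 2 * j.c0 * x 0 * y 3 * v 3 * w 2 - k ^ 2 * j.e0 * j.c0 ^ 2 * x 0 * y 0 * v
  1 * w 1 - 3 * k ^ 2 * j.e0 * j.c0 ^ 2 * x 0 * y 3 * v 3 * w 2 - 2 * k ^ 2 * j.e0 * j.c0 ^ 2 * x
  3 * y 3 * v 2 * w 2 + k ^ 2 * j.c0 ^ 3 * x 0 * y 0 * v 1 * w 1 + 2 * k ^ 2 * j.c0 ^ 3 * x 3 * y
  3 * v 2 * w 2 + k * j.a0 ^ 2 * j.e1 * x 0 * y 3 * v 3 * w 0 - k * j.a0 ^ 2 * j.e1 * x 3 * y 3 *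
  v 0 * w 0 + k * j.a0 * j.e0 * j.e1 * x 0 * y 3 * v 3 * w 0 - k * j.a0 * j.e0 * j.c0 * x 0 * y 0
  * v 3 * w 1 + k * j.a0 * j.e0 * j.c0 * x 3 * y 0 * v 0 * w 1 - k * j.a0 * j.e1 * j.c0 * x 3 * y
  3 * v 2 * w 0 + k * j.a0 * j.c0 ^ 2 * x 0 * y 0 * v 3 * w 1 - k * j.a0 * j.c0 ^ 2 * x 3 * y 0 *
  v 0 * w 1 - k * j.a0 * j.c0 * j.c1 * x 0 * y 1 * v 1 * w 0 + k * j.a0 * j.c0 * j.c1 * x 3 * y 3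
  * v 2 * w 0 - k * j.e0 ^ 2 * j.c0 * x 0 * y 0 * v 3 * w 1 + k * j.e0 * j.c0 ^ 2 * x 0 * y 0 * v
  3 * w 1 - k * j.e0 * j.c0 ^ 2 * x 0 * y 3 * v 1 * w 2 + k * j.e0 * j.c0 ^ 2 * x 3 * y 0 * v 2 *
  w 1 + k * j.c0 ^ 3 * x 0 * y 3 * v 1 * w 2 - k * j.c0 ^ 3 * x 3 * y 0 * v 2 * w 1 - j.a0 ^ 2 *
  j.c1 * x 0 * y 1 * v 3 * w 0 + j.a0 ^ 2 * j.c1 * x 3 * y 1 * v 0 * w 0 - j.a0 * j.e0 * j.c0 * x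
  0 * y 3 * v 3 * w 2 + j.a0 * j.e0 * j.c0 * x 3 * y 3 * v 0 * w 2 - j.a0 * j.e0 * j.c1 * x 0 * y
  1 * v 3 * w 0 + j.a0 * j.c0 ^ 2 * x 0 * y 3 * v 3 * w 2 - j.a0 * j.c0 ^ 2 * x 3 * y 3 * v 0 * w
  2 - j.a0 * j.c0 * j.c1 * x 0 * y 3 * v 1 * w 0 - j.a0 * j.c0 * j.c1 * x 1 * y 3 * v 2 * w 0 +
  j.a0 * j.c0 * j.c1 * x 2 * y 3 * v 1 * w 0 + j.a0 * j.c0 * j.c1 * x 3 * y 1 * v 2 * w 0 - j.e0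
  ^ 2 * j.c0 * x 0 * y 3 * v 3 * w 2 + j.e0 * j.c0 ^ 2 * x 0 * y 3 * v 3 * w 2 + j.e0 * j.c0 ^ 2
  * x 3 * y 3 * v 2 * w 2 - j.c0 ^ 3 * x 3 * y 3 * v 2 * w 2

theorem s3_eq (j : Jt) (k s : ℝ) (h : k ^ 2 + s ^ 2 = 1) (x v y w : Fin 4 → ℝ) :
    dt6 (J1v j k s x v) (K1c j.jet (zc k s) (Zv j k s w) (Jv k s y)) = s3 j k s x v y w := by
  simp only [s3, Jv, Zv, J1v, lv, mv, zc, ac, thv, cx6, cx, K0c, K1c, K2c, T1c, T2c, T3c, S3c, Bc, Jt.jet, dt, dt6]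
  simp
  linear_combination (-(k ^ 3 * j.a0 * j.e0 * j.e1 * x 0 * y 3 * v 3 * w 0) + k ^ 2 * j.a0 * j.e0 * j.c1 * x 0 * y
    1 * v 3 * w 0 + k ^ 2 * j.a0 * j.e1 * j.c0 * x 0 * y 3 * v 1 * w 0 + 2 * k ^ 2 * j.e0 ^ 2 *
    j.c0 * x 0 * y 3 * v 3 * w 2 - 2 * k ^ 2 * j.e0 * j.c0 ^ 2 * x 0 * y 3 * v 3 * w 2 + k * s ^
    2 * j.a0 * j.e0 * j.e1 * x 0 * y 3 * v 3 * w 0 + k * j.a0 ^ 2 * j.e1 * x 0 * y 3 * v 3 * w 0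
    - k * j.a0 ^ 2 * j.e1 * x 3 * y 3 * v 0 * w 0 + k * j.a0 * j.e0 * j.e1 * x 0 * y 3 * v 3 * w
    0 - k * j.a0 * j.e1 * j.c0 * x 3 * y 3 * v 2 * w 0 - k * j.a0 * j.c0 * j.c1 * x 0 * y 1 * v 1
    * w 0 + k * j.a0 * j.c0 * j.c1 * x 3 * y 3 * v 2 * w 0 - k * j.e0 ^ 2 * j.c0 * x 0 * y 0 * v
    3 * w 1 + k * j.e0 * j.c0 ^ 2 * x 0 * y 0 * v 3 * w 1 - k * j.e0 * j.c0 ^ 2 * x 0 * y 3 * v 1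
    * w 2 + k * j.c0 ^ 3 * x 0 * y 3 * v 1 * w 2 - s ^ 2 * j.a0 * j.e0 * j.c1 * x 0 * y 1 * v 3 *
    w 0 - s ^ 2 * j.e0 ^ 2 * j.c0 * x 0 * y 3 * v 3 * w 2 + s ^ 2 * j.e0 * j.c0 ^ 2 * x 0 * y 3 *
    v 3 * w 2 - j.a0 ^ 2 * j.c1 * x 0 * y 1 * v 3 * w 0 + j.a0 ^ 2 * j.c1 * x 3 * y 1 * v 0 * w 0
    - j.a0 * j.e0 * j.c0 * x 0 * y 3 * v 3 * w 2 + j.a0 * j.e0 * j.c0 * x 3 * y 3 * v 0 * w 2 -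
    j.a0 * j.e0 * j.c1 * x 0 * y 1 * v 3 * w 0 + j.a0 * j.c0 ^ 2 * x 0 * y 3 * v 3 * w 2 - j.a0 *
    j.c0 ^ 2 * x 3 * y 3 * v 0 * w 2 - j.a0 * j.c0 * j.c1 * x 0 * y 3 * v 1 * w 0 - j.a0 * j.c0 *
    j.c1 * x 1 * y 3 * v 2 * w 0 + j.a0 * j.c0 * j.c1 * x 2 * y 3 * v 1 * w 0 + j.a0 * j.c0 *
    j.c1 * x 3 * y 1 * v 2 * w 0 - j.e0 ^ 2 * j.c0 * x 0 * y 3 * v 3 * w 2 + j.e0 * j.c0 ^ 2 * x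
    0 * y 3 * v 3 * w 2 + j.e0 * j.c0 ^ 2 * x 3 * y 3 * v 2 * w 2 - j.c0 ^ 3 * x 3 * y 3 * v 2 *
    w 2) * h

/-- scalar -/
def s4 (j : Jt) (k s : ℝ) (x y v : Fin 4 → ℝ) : ℝ :=
  k ^ 2 * s * j.a0 * j.e1 * x 3 * y 3 * v 0 - 2 * k * s * j.e0 * j.c0 * x 3 * y 3 * v 2 + 2 * k *
  s * j.c0 ^ 2 * x 3 * y 3 * v 2 - s * j.a0 * j.a1 * x 0 * y 0 * v 0 - s * j.a0 * j.a1 * x 3 * y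
  3 * v 0 - s * j.a0 * j.e1 * x 3 * y 3 * v 0 - s * j.a0 * j.c1 * x 1 * y 1 * v 0 - s * j.a0 *
  j.c1 * x 2 * y 2 * v 0 + s * j.e0 * j.c0 * x 0 * y 3 * v 1 + s * j.e0 * j.c0 * x 3 * y 0 * v 1
  - s * j.c0 ^ 2 * x 0 * y 3 * v 1 - s * j.c0 ^ 2 * x 3 * y 0 * v 1

theorem s4_eq (j : Jt) (k s : ℝ) (h : k ^ 2 + s ^ 2 = 1) (x y v : Fin 4 → ℝ) :
    dt6 (Jv k s x) (K1c j.jet (zc k s) (Zv j k s v) (Jv k s y)) = s4 j k s x y v := by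
  simp only [s4, Jv, Zv, J1v, lv, mv, zc, ac, thv, cx6, cx, K0c, K1c, K2c, T1c, T2c, T3c, S3c, Bc, Jt.jet, dt, dt6]
  simp
  linear_combination (-(s * j.a0 * j.a1 * x 3 * y 3 * v 0) - s * j.a0 * j.e1 * x 3 * y 3 * v 0) * h

/-- scalar -/
def s5 (j : Jt) (k s : ℝ) (x y v w : Fin 4 → ℝ) : ℝ :=
  k ^ 4 * j.a0 ^ 2 * j.e2 * x 3 * y 3 * v 0 * w 0 + k ^ 4 * j.e0 * j.e1 * j.c0 * x 3 * y 3 * v 1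
  * w 3 + k ^ 4 * j.e0 * j.e1 * j.c0 * x 3 * y 3 * v 3 * w 1 - 3 * k ^ 3 * j.a0 * j.e1 * j.c0 * x
  3 * y 3 * v 0 * w 2 - 3 * k ^ 3 * j.a0 * j.e1 * j.c0 * x 3 * y 3 * v 2 * w 0 + 2 * k ^ 3 * j.a0
  * j.c0 * j.c1 * x 3 * y 3 * v 0 * w 2 + 2 * k ^ 3 * j.a0 * j.c0 * j.c1 * x 3 * y 3 * v 2 * w 0
  - 2 * k ^ 3 * j.e1 * j.c0 ^ 2 * x 3 * y 3 * v 1 * w 1 - 2 * k ^ 3 * j.e1 * j.c0 ^ 2 * x 3 * y 3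
  * v 2 * w 2 - k ^ 2 * j.a0 ^ 2 * j.a2 * x 0 * y 0 * v 0 * w 0 - k ^ 2 * j.a0 ^ 2 * j.a2 * x 3 *
  y 3 * v 0 * w 0 - 2 * k ^ 2 * j.a0 ^ 2 * j.e2 * x 3 * y 3 * v 0 * w 0 - k ^ 2 * j.a0 ^ 2 * j.c2
  * x 1 * y 1 * v 0 * w 0 - k ^ 2 * j.a0 ^ 2 * j.c2 * x 2 * y 2 * v 0 * w 0 + k ^ 2 * j.a0 * j.e1
  * j.c0 * x 0 * y 3 * v 0 * w 1 + k ^ 2 * j.a0 * j.e1 * j.c0 * x 0 * y 3 * v 1 * w 0 + k ^ 2 *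
  j.a0 * j.e1 * j.c0 * x 3 * y 0 * v 0 * w 1 + k ^ 2 * j.a0 * j.e1 * j.c0 * x 3 * y 0 * v 1 * w 0
  - k ^ 2 * j.a0 * j.e1 * j.c0 * x 3 * y 3 * v 1 * w 3 - k ^ 2 * j.a0 * j.e1 * j.c0 * x 3 * y 3 *
  v 3 * w 1 - k ^ 2 * j.a0 * j.c0 * j.c1 * x 0 * y 3 * v 0 * w 1 - k ^ 2 * j.a0 * j.c0 * j.c1 * x
  0 * y 3 * v 1 * w 0 - k ^ 2 * j.a0 * j.c0 * j.c1 * x 3 * y 0 * v 0 * w 1 - k ^ 2 * j.a0 * j.c0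
  * j.c1 * x 3 * y 0 * v 1 * w 0 - k ^ 2 * j.a1 * j.e0 * j.c0 * x 0 * y 0 * v 1 * w 3 - k ^ 2 *
  j.a1 * j.e0 * j.c0 * x 0 * y 0 * v 3 * w 1 - k ^ 2 * j.a1 * j.e0 * j.c0 * x 3 * y 3 * v 1 * w 3
  - k ^ 2 * j.a1 * j.e0 * j.c0 * x 3 * y 3 * v 3 * w 1 - 2 * k ^ 2 * j.e0 * j.e1 * j.c0 * x 3 * y
  3 * v 1 * w 3 - 2 * k ^ 2 * j.e0 * j.e1 * j.c0 * x 3 * y 3 * v 3 * w 1 + 2 * k ^ 2 * j.e0 *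
  j.c0 ^ 2 * x 3 * y 3 * v 2 * w 2 - k ^ 2 * j.e0 * j.c0 * j.c1 * x 1 * y 1 * v 1 * w 3 - k ^ 2 *
  j.e0 * j.c0 * j.c1 * x 1 * y 1 * v 3 * w 1 - k ^ 2 * j.e0 * j.c0 * j.c1 * x 2 * y 2 * v 1 * w 3
  - k ^ 2 * j.e0 * j.c0 * j.c1 * x 2 * y 2 * v 3 * w 1 - 2 * k ^ 2 * j.c0 ^ 3 * x 3 * y 3 * v 2 *
  w 2 + k * j.a0 * j.a1 * j.c0 * x 0 * y 0 * v 0 * w 2 + k * j.a0 * j.a1 * j.c0 * x 0 * y 0 * v 2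
  * w 0 + k * j.a0 * j.a1 * j.c0 * x 3 * y 3 * v 0 * w 2 + k * j.a0 * j.a1 * j.c0 * x 3 * y 3 * v
  2 * w 0 + 3 * k * j.a0 * j.e1 * j.c0 * x 3 * y 3 * v 0 * w 2 + 3 * k * j.a0 * j.e1 * j.c0 * x 3
  * y 3 * v 2 * w 0 + k * j.a0 * j.c0 * j.c1 * x 1 * y 1 * v 0 * w 2 + k * j.a0 * j.c0 * j.c1 * x
  1 * y 1 * v 2 * w 0 + k * j.a0 * j.c0 * j.c1 * x 2 * y 2 * v 0 * w 2 + k * j.a0 * j.c0 * j.c1 *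
  x 2 * y 2 * v 2 * w 0 - 2 * k * j.a0 * j.c0 * j.c1 * x 3 * y 3 * v 0 * w 2 - 2 * k * j.a0 *
  j.c0 * j.c1 * x 3 * y 3 * v 2 * w 0 + 2 * k * j.a1 * j.c0 ^ 2 * x 0 * y 0 * v 1 * w 1 + 2 * k *
  j.a1 * j.c0 ^ 2 * x 0 * y 0 * v 2 * w 2 + 2 * k * j.a1 * j.c0 ^ 2 * x 3 * y 3 * v 1 * w 1 + 2 *
  k * j.a1 * j.c0 ^ 2 * x 3 * y 3 * v 2 * w 2 - k * j.e0 * j.c0 ^ 2 * x 0 * y 3 * v 1 * w 2 - k *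
  j.e0 * j.c0 ^ 2 * x 0 * y 3 * v 2 * w 1 - k * j.e0 * j.c0 ^ 2 * x 3 * y 0 * v 1 * w 2 - k *
  j.e0 * j.c0 ^ 2 * x 3 * y 0 * v 2 * w 1 + 2 * k * j.e1 * j.c0 ^ 2 * x 3 * y 3 * v 1 * w 1 + 2 *
  k * j.e1 * j.c0 ^ 2 * x 3 * y 3 * v 2 * w 2 + k * j.c0 ^ 3 * x 0 * y 3 * v 1 * w 2 + k * j.c0 ^
  3 * x 0 * y 3 * v 2 * w 1 + k * j.c0 ^ 3 * x 3 * y 0 * v 1 * w 2 + k * j.c0 ^ 3 * x 3 * y 0 * v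
  2 * w 1 + 2 * k * j.c0 ^ 2 * j.c1 * x 1 * y 1 * v 1 * w 1 + 2 * k * j.c0 ^ 2 * j.c1 * x 1 * y 1
  * v 2 * w 2 + 2 * k * j.c0 ^ 2 * j.c1 * x 2 * y 2 * v 1 * w 1 + 2 * k * j.c0 ^ 2 * j.c1 * x 2 *
  y 2 * v 2 * w 2 + j.a0 ^ 2 * j.a2 * x 0 * y 0 * v 0 * w 0 + j.a0 ^ 2 * j.a2 * x 3 * y 3 * v 0 *
  w 0 + j.a0 ^ 2 * j.e2 * x 3 * y 3 * v 0 * w 0 + j.a0 ^ 2 * j.c2 * x 1 * y 1 * v 0 * w 0 + j.a0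
  ^ 2 * j.c2 * x 2 * y 2 * v 0 * w 0 + j.a0 * j.a1 * j.c0 * x 0 * y 0 * v 1 * w 3 + j.a0 * j.a1 *
  j.c0 * x 0 * y 0 * v 3 * w 1 + j.a0 * j.a1 * j.c0 * x 3 * y 3 * v 1 * w 3 + j.a0 * j.a1 * j.c0
  * x 3 * y 3 * v 3 * w 1 - j.a0 * j.e1 * j.c0 * x 0 * y 3 * v 0 * w 1 - j.a0 * j.e1 * j.c0 * x 0
  * y 3 * v 1 * w 0 - j.a0 * j.e1 * j.c0 * x 3 * y 0 * v 0 * w 1 - j.a0 * j.e1 * j.c0 * x 3 * y 0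
  * v 1 * w 0 + j.a0 * j.e1 * j.c0 * x 3 * y 3 * v 1 * w 3 + j.a0 * j.e1 * j.c0 * x 3 * y 3 * v 3
  * w 1 + j.a0 * j.c0 * j.c1 * x 0 * y 3 * v 0 * w 1 + j.a0 * j.c0 * j.c1 * x 0 * y 3 * v 1 * w 0
  + j.a0 * j.c0 * j.c1 * x 1 * y 1 * v 1 * w 3 + j.a0 * j.c0 * j.c1 * x 1 * y 1 * v 3 * w 1 +
  j.a0 * j.c0 * j.c1 * x 2 * y 2 * v 1 * w 3 + j.a0 * j.c0 * j.c1 * x 2 * y 2 * v 3 * w 1 + j.a0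
  * j.c0 * j.c1 * x 3 * y 0 * v 0 * w 1 + j.a0 * j.c0 * j.c1 * x 3 * y 0 * v 1 * w 0 + j.a1 *
  j.e0 * j.c0 * x 0 * y 0 * v 1 * w 3 + j.a1 * j.e0 * j.c0 * x 0 * y 0 * v 3 * w 1 + j.a1 * j.e0
  * j.c0 * x 3 * y 3 * v 1 * w 3 + j.a1 * j.e0 * j.c0 * x 3 * y 3 * v 3 * w 1 + j.e0 * j.e1 *
  j.c0 * x 3 * y 3 * v 1 * w 3 + j.e0 * j.e1 * j.c0 * x 3 * y 3 * v 3 * w 1 + 2 * j.e0 * j.c0 ^ 2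
  * x 0 * y 0 * v 1 * w 1 + j.e0 * j.c0 * j.c1 * x 1 * y 1 * v 1 * w 3 + j.e0 * j.c0 * j.c1 * x 1
  * y 1 * v 3 * w 1 + j.e0 * j.c0 * j.c1 * x 2 * y 2 * v 1 * w 3 + j.e0 * j.c0 * j.c1 * x 2 * y 2
  * v 3 * w 1 - 2 * j.c0 ^ 3 * x 0 * y 0 * v 1 * w 1

theorem s5_eq (j : Jt) (k s : ℝ) (h : k ^ 2 + s ^ 2 = 1) (x y v w : Fin 4 → ℝ) :
    dt6 (Jv k s x) (K2c j.jet (zc k s) (Zv j k s v) (Zv j k s w) (Jv k s y)) = s5 j k s x y v w := by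
  simp only [s5, Jv, Zv, J1v, lv, mv, zc, ac, thv, cx6, cx, K0c, K1c, K2c, T1c, T2c, T3c, S3c, Bc, Jt.jet, dt, dt6]
  simp
  linear_combination (-(k ^ 2 * j.a0 ^ 2 * j.e2 * x 3 * y 3 * v 0 * w 0) - k ^ 2 * j.e0 * j.e1 * j.c0 * x 3 * y 3 *
    v 1 * w 3 - k ^ 2 * j.e0 * j.e1 * j.c0 * x 3 * y 3 * v 3 * w 1 + k * j.a0 * j.a1 * j.c0 * x 3
    * y 3 * v 0 * w 2 + k * j.a0 * j.a1 * j.c0 * x 3 * y 3 * v 2 * w 0 + 3 * k * j.a0 * j.e1 *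
    j.c0 * x 3 * y 3 * v 0 * w 2 + 3 * k * j.a0 * j.e1 * j.c0 * x 3 * y 3 * v 2 * w 0 - 2 * k *
    j.a0 * j.c0 * j.c1 * x 3 * y 3 * v 0 * w 2 - 2 * k * j.a0 * j.c0 * j.c1 * x 3 * y 3 * v 2 * w
    0 + 2 * k * j.a1 * j.c0 ^ 2 * x 3 * y 3 * v 1 * w 1 + 2 * k * j.a1 * j.c0 ^ 2 * x 3 * y 3 * v
    2 * w 2 + 2 * k * j.e1 * j.c0 ^ 2 * x 3 * y 3 * v 1 * w 1 + 2 * k * j.e1 * j.c0 ^ 2 * x 3 * y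
    3 * v 2 * w 2 + s ^ 2 * j.a0 ^ 2 * j.a2 * x 3 * y 3 * v 0 * w 0 + s ^ 2 * j.a0 ^ 2 * j.e2 * x
    3 * y 3 * v 0 * w 0 + s ^ 2 * j.a1 * j.e0 * j.c0 * x 3 * y 3 * v 1 * w 3 + s ^ 2 * j.a1 *
    j.e0 * j.c0 * x 3 * y 3 * v 3 * w 1 + s ^ 2 * j.e0 * j.e1 * j.c0 * x 3 * y 3 * v 1 * w 3 + s
    ^ 2 * j.e0 * j.e1 * j.c0 * x 3 * y 3 * v 3 * w 1 + j.a0 ^ 2 * j.a2 * x 0 * y 0 * v 0 * w 0 +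
    j.a0 ^ 2 * j.a2 * x 3 * y 3 * v 0 * w 0 + j.a0 ^ 2 * j.e2 * x 3 * y 3 * v 0 * w 0 + j.a0 ^ 2
    * j.c2 * x 1 * y 1 * v 0 * w 0 + j.a0 ^ 2 * j.c2 * x 2 * y 2 * v 0 * w 0 + j.a0 * j.a1 * j.c0
    * x 3 * y 3 * v 1 * w 3 + j.a0 * j.a1 * j.c0 * x 3 * y 3 * v 3 * w 1 - j.a0 * j.e1 * j.c0 * x
    0 * y 3 * v 0 * w 1 - j.a0 * j.e1 * j.c0 * x 0 * y 3 * v 1 * w 0 - j.a0 * j.e1 * j.c0 * x 3 *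
    y 0 * v 0 * w 1 - j.a0 * j.e1 * j.c0 * x 3 * y 0 * v 1 * w 0 + j.a0 * j.e1 * j.c0 * x 3 * y 3
    * v 1 * w 3 + j.a0 * j.e1 * j.c0 * x 3 * y 3 * v 3 * w 1 + j.a0 * j.c0 * j.c1 * x 0 * y 3 * v
    0 * w 1 + j.a0 * j.c0 * j.c1 * x 0 * y 3 * v 1 * w 0 + j.a0 * j.c0 * j.c1 * x 3 * y 0 * v 0 *
    w 1 + j.a0 * j.c0 * j.c1 * x 3 * y 0 * v 1 * w 0 + j.a1 * j.e0 * j.c0 * x 0 * y 0 * v 1 * w 3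
    + j.a1 * j.e0 * j.c0 * x 0 * y 0 * v 3 * w 1 + j.a1 * j.e0 * j.c0 * x 3 * y 3 * v 1 * w 3 +
    j.a1 * j.e0 * j.c0 * x 3 * y 3 * v 3 * w 1 + j.e0 * j.e1 * j.c0 * x 3 * y 3 * v 1 * w 3 +
    j.e0 * j.e1 * j.c0 * x 3 * y 3 * v 3 * w 1 + j.e0 * j.c0 * j.c1 * x 1 * y 1 * v 1 * w 3 +
    j.e0 * j.c0 * j.c1 * x 1 * y 1 * v 3 * w 1 + j.e0 * j.c0 * j.c1 * x 2 * y 2 * v 1 * w 3 +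
    j.e0 * j.c0 * j.c1 * x 2 * y 2 * v 3 * w 1) * h

/-- scalar -/
def s6 (j : Jt) (k s : ℝ) (x y v w : Fin 4 → ℝ) : ℝ :=
  k ^ 6 * j.e0 ^ 3 * x 0 * y 3 * v 0 * w 3 - k ^ 6 * j.e0 ^ 2 * j.c0 * x 0 * y 3 * v 0 * w 3 + k
  ^ 5 * j.a0 * j.e0 * j.e1 * x 0 * y 3 * v 3 * w 0 - k ^ 5 * j.e0 ^ 2 * j.c0 * x 0 * y 1 * v 0 *
  w 3 - k ^ 5 * j.e0 ^ 2 * j.c0 * x 0 * y 3 * v 0 * w 1 + k ^ 5 * j.e0 * j.c0 ^ 2 * x 0 * y 1 * v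
  0 * w 3 + k ^ 5 * j.e0 * j.c0 ^ 2 * x 0 * y 3 * v 0 * w 1 - k ^ 4 * j.a0 * j.e0 ^ 2 * x 0 * y 0
  * v 3 * w 3 - k ^ 4 * j.a0 * j.e0 ^ 2 * x 0 * y 3 * v 0 * w 3 + 2 * k ^ 4 * j.a0 * j.e0 ^ 2 * x
  0 * y 3 * v 3 * w 0 - 2 * k ^ 4 * j.a0 * j.e0 ^ 2 * x 3 * y 3 * v 3 * w 3 + k ^ 4 * j.a0 * j.e0
  * j.c0 * x 0 * y 3 * v 0 * w 3 - k ^ 4 * j.a0 * j.e0 * j.c0 * x 0 * y 3 * v 3 * w 0 - k ^ 4 *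
  j.a0 * j.e0 * j.c1 * x 0 * y 3 * v 1 * w 0 - k ^ 4 * j.a0 * j.e1 * j.c0 * x 0 * y 1 * v 3 * w 0
  - 2 * k ^ 4 * j.e0 ^ 3 * x 0 * y 3 * v 0 * w 3 - k ^ 4 * j.e0 ^ 3 * x 3 * y 3 * v 3 * w 3 - k ^
  4 * j.e0 ^ 2 * j.c0 * x 0 * y 2 * v 3 * w 3 + 2 * k ^ 4 * j.e0 ^ 2 * j.c0 * x 0 * y 3 * v 0 * w
  3 + k ^ 4 * j.e0 * j.c0 ^ 2 * x 0 * y 1 * v 0 * w 1 + k ^ 4 * j.e0 * j.c0 ^ 2 * x 0 * y 3 * v 0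
  * w 3 - k ^ 4 * j.e0 * j.c0 ^ 2 * x 2 * y 3 * v 0 * w 3 - k ^ 4 * j.c0 ^ 3 * x 0 * y 1 * v 0 *
  w 1 - k ^ 3 * j.a0 * j.a1 * j.e0 * x 0 * y 3 * v 3 * w 0 + k ^ 3 * j.a0 * j.a1 * j.e0 * x 3 * y
  3 * v 0 * w 0 - 2 * k ^ 3 * j.a0 * j.e0 * j.e1 * x 0 * y 3 * v 3 * w 0 + k ^ 3 * j.a0 * j.e0 *
  j.c0 * x 0 * y 0 * v 1 * w 3 + k ^ 3 * j.a0 * j.e0 * j.c0 * x 0 * y 0 * v 3 * w 1 + k ^ 3 *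
  j.a0 * j.e0 * j.c0 * x 0 * y 1 * v 0 * w 3 - 2 * k ^ 3 * j.a0 * j.e0 * j.c0 * x 0 * y 1 * v 3 *
  w 0 - k ^ 3 * j.a0 * j.e0 * j.c0 * x 0 * y 3 * v 1 * w 0 + k ^ 3 * j.a0 * j.e0 * j.c0 * x 3 * y
  1 * v 3 * w 3 + k ^ 3 * j.a0 * j.e0 * j.c0 * x 3 * y 3 * v 1 * w 3 + 2 * k ^ 3 * j.a0 * j.e0 *
  j.c0 * x 3 * y 3 * v 3 * w 1 + k ^ 3 * j.a0 * j.e0 * j.c1 * x 3 * y 3 * v 2 * w 0 - k ^ 3 *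
  j.a0 * j.c0 ^ 2 * x 0 * y 1 * v 0 * w 3 + k ^ 3 * j.a0 * j.c0 ^ 2 * x 0 * y 1 * v 3 * w 0 + k ^
  3 * j.a0 * j.c0 * j.c1 * x 0 * y 1 * v 1 * w 0 - k ^ 3 * j.a0 * j.c0 * j.c1 * x 3 * y 3 * v 2 *
  w 0 + 2 * k ^ 3 * j.e0 ^ 2 * j.c0 * x 0 * y 1 * v 0 * w 3 + 2 * k ^ 3 * j.e0 ^ 2 * j.c0 * x 0 *
  y 3 * v 0 * w 1 - 2 * k ^ 3 * j.e0 * j.c0 ^ 2 * x 0 * y 1 * v 0 * w 3 + k ^ 3 * j.e0 * j.c0 ^ 2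
  * x 0 * y 2 * v 1 * w 3 + k ^ 3 * j.e0 * j.c0 ^ 2 * x 0 * y 2 * v 3 * w 1 - k ^ 3 * j.e0 * j.c0
  ^ 2 * x 0 * y 3 * v 0 * w 1 - k ^ 3 * j.e0 * j.c0 ^ 2 * x 0 * y 3 * v 2 * w 1 + k ^ 3 * j.e0 *
  j.c0 ^ 2 * x 3 * y 3 * v 3 * w 1 - k ^ 3 * j.c0 ^ 3 * x 0 * y 3 * v 0 * w 1 + k ^ 3 * j.c0 ^ 3
  * x 2 * y 3 * v 0 * w 1 - k ^ 3 * j.c0 ^ 3 * x 3 * y 3 * v 3 * w 1 + 2 * k ^ 2 * j.a0 ^ 2 *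
  j.e0 * x 0 * y 0 * v 3 * w 3 + k ^ 2 * j.a0 ^ 2 * j.e0 * x 3 * y 3 * v 0 * w 0 + 3 * k ^ 2 *
  j.a0 ^ 2 * j.e0 * x 3 * y 3 * v 3 * w 3 + k ^ 2 * j.a0 * j.a1 * j.c0 * x 0 * y 1 * v 3 * w 0 -
  k ^ 2 * j.a0 * j.a1 * j.c0 * x 3 * y 1 * v 0 * w 0 + 2 * k ^ 2 * j.a0 * j.e0 ^ 2 * x 0 * y 0 *
  v 3 * w 3 + k ^ 2 * j.a0 * j.e0 ^ 2 * x 0 * y 3 * v 0 * w 3 - 2 * k ^ 2 * j.a0 * j.e0 ^ 2 * x 0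
  * y 3 * v 3 * w 0 + 5 * k ^ 2 * j.a0 * j.e0 ^ 2 * x 3 * y 3 * v 3 * w 3 + 2 * k ^ 2 * j.a0 *
  j.e0 * j.c0 * x 0 * y 2 * v 3 * w 3 - k ^ 2 * j.a0 * j.e0 * j.c0 * x 0 * y 3 * v 0 * w 3 + k ^
  2 * j.a0 * j.e0 * j.c0 * x 0 * y 3 * v 3 * w 0 + k ^ 2 * j.a0 * j.e0 * j.c0 * x 3 * y 3 * v 0 *
  w 2 + k ^ 2 * j.a0 * j.e0 * j.c0 * x 3 * y 3 * v 2 * w 0 + k ^ 2 * j.a0 * j.e0 * j.c1 * x 0 * y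
  3 * v 1 * w 0 + 2 * k ^ 2 * j.a0 * j.e1 * j.c0 * x 0 * y 1 * v 3 * w 0 - k ^ 2 * j.a0 * j.c0 ^
  2 * x 0 * y 0 * v 1 * w 1 + k ^ 2 * j.a0 * j.c0 ^ 2 * x 0 * y 1 * v 1 * w 0 - k ^ 2 * j.a0 *
  j.c0 ^ 2 * x 0 * y 3 * v 0 * w 3 + k ^ 2 * j.a0 * j.c0 ^ 2 * x 0 * y 3 * v 3 * w 0 + k ^ 2 *
  j.a0 * j.c0 ^ 2 * x 2 * y 3 * v 0 * w 3 - k ^ 2 * j.a0 * j.c0 ^ 2 * x 2 * y 3 * v 3 * w 0 - k ^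
  2 * j.a0 * j.c0 ^ 2 * x 3 * y 1 * v 3 * w 1 - k ^ 2 * j.a0 * j.c0 ^ 2 * x 3 * y 3 * v 1 * w 1 +
  k ^ 2 * j.a0 * j.c0 * j.c1 * x 0 * y 3 * v 1 * w 0 + k ^ 2 * j.a0 * j.c0 * j.c1 * x 1 * y 3 * v
  2 * w 0 - k ^ 2 * j.a0 * j.c0 * j.c1 * x 2 * y 3 * v 1 * w 0 - k ^ 2 * j.a0 * j.c0 * j.c1 * x 3
  * y 1 * v 2 * w 0 + k ^ 2 * j.e0 ^ 3 * x 0 * y 3 * v 0 * w 3 + 2 * k ^ 2 * j.e0 ^ 3 * x 3 * y 3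
  * v 3 * w 3 + 2 * k ^ 2 * j.e0 ^ 2 * j.c0 * x 0 * y 2 * v 3 * w 3 - k ^ 2 * j.e0 ^ 2 * j.c0 * x
  0 * y 3 * v 0 * w 3 - 2 * k ^ 2 * j.e0 * j.c0 ^ 2 * x 0 * y 1 * v 0 * w 1 - 2 * k ^ 2 * j.e0 *
  j.c0 ^ 2 * x 0 * y 3 * v 0 * w 3 + 2 * k ^ 2 * j.e0 * j.c0 ^ 2 * x 2 * y 3 * v 0 * w 3 + k ^ 2
  * j.e0 * j.c0 ^ 2 * x 3 * y 1 * v 1 * w 3 + k ^ 2 * j.e0 * j.c0 ^ 2 * x 3 * y 1 * v 3 * w 1 + k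
  ^ 2 * j.e0 * j.c0 ^ 2 * x 3 * y 3 * v 2 * w 2 + k ^ 2 * j.c0 ^ 3 * x 0 * y 1 * v 0 * w 1 + k ^
  2 * j.c0 ^ 3 * x 0 * y 1 * v 2 * w 1 - k ^ 2 * j.c0 ^ 3 * x 0 * y 2 * v 1 * w 1 + k ^ 2 * j.c0
  ^ 3 * x 1 * y 3 * v 3 * w 1 - k ^ 2 * j.c0 ^ 3 * x 3 * y 1 * v 3 * w 1 - k * j.a0 ^ 2 * j.c0 *
  x 0 * y 0 * v 1 * w 3 - k * j.a0 ^ 2 * j.c0 * x 0 * y 0 * v 3 * w 1 - k * j.a0 ^ 2 * j.c0 * x 3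
  * y 1 * v 0 * w 0 - k * j.a0 ^ 2 * j.c0 * x 3 * y 1 * v 3 * w 3 - k * j.a0 ^ 2 * j.c0 * x 3 * y
  3 * v 1 * w 3 - k * j.a0 ^ 2 * j.c0 * x 3 * y 3 * v 3 * w 1 + k * j.a0 * j.a1 * j.e0 * x 0 * y
  3 * v 3 * w 0 - k * j.a0 * j.a1 * j.e0 * x 3 * y 3 * v 0 * w 0 + k * j.a0 * j.e0 * j.e1 * x 0 *
  y 3 * v 3 * w 0 - k * j.a0 * j.e0 * j.c0 * x 0 * y 0 * v 1 * w 3 - k * j.a0 * j.e0 * j.c0 * x 0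
  * y 0 * v 3 * w 1 - k * j.a0 * j.e0 * j.c0 * x 0 * y 1 * v 0 * w 3 + 2 * k * j.a0 * j.e0 * j.c0
  * x 0 * y 1 * v 3 * w 0 + k * j.a0 * j.e0 * j.c0 * x 0 * y 3 * v 1 * w 0 - k * j.a0 * j.e0 *
  j.c0 * x 3 * y 1 * v 3 * w 3 - k * j.a0 * j.e0 * j.c0 * x 3 * y 3 * v 1 * w 3 - 2 * k * j.a0 *
  j.e0 * j.c0 * x 3 * y 3 * v 3 * w 1 - k * j.a0 * j.e0 * j.c1 * x 3 * y 3 * v 2 * w 0 + k * j.a0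
  * j.c0 ^ 2 * x 0 * y 1 * v 0 * w 3 - k * j.a0 * j.c0 ^ 2 * x 0 * y 1 * v 3 * w 0 - k * j.a0 *
  j.c0 ^ 2 * x 0 * y 2 * v 1 * w 3 - k * j.a0 * j.c0 ^ 2 * x 0 * y 2 * v 3 * w 1 - k * j.a0 *
  j.c0 ^ 2 * x 3 * y 1 * v 0 * w 2 - k * j.a0 * j.c0 ^ 2 * x 3 * y 1 * v 2 * w 0 - k * j.a0 *
  j.c0 * j.c1 * x 0 * y 1 * v 1 * w 0 + k * j.a0 * j.c0 * j.c1 * x 3 * y 3 * v 2 * w 0 - k * j.e0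
  ^ 2 * j.c0 * x 0 * y 1 * v 0 * w 3 - k * j.e0 ^ 2 * j.c0 * x 0 * y 3 * v 0 * w 1 + k * j.e0 *
  j.c0 ^ 2 * x 0 * y 1 * v 0 * w 3 - k * j.e0 * j.c0 ^ 2 * x 0 * y 2 * v 1 * w 3 - k * j.e0 *
  j.c0 ^ 2 * x 0 * y 2 * v 3 * w 1 + k * j.e0 * j.c0 ^ 2 * x 0 * y 3 * v 2 * w 1 - k * j.e0 *
  j.c0 ^ 2 * x 3 * y 3 * v 3 * w 1 + k * j.c0 ^ 3 * x 0 * y 3 * v 0 * w 1 - k * j.c0 ^ 3 * x 2 *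
  y 3 * v 0 * w 1 + k * j.c0 ^ 3 * x 3 * y 3 * v 3 * w 1 - j.a0 ^ 3 * x 0 * y 0 * v 0 * w 0 -
  j.a0 ^ 3 * x 0 * y 0 * v 3 * w 3 - j.a0 ^ 3 * x 3 * y 3 * v 0 * w 0 - j.a0 ^ 3 * x 3 * y 3 * v
  3 * w 3 - 2 * j.a0 ^ 2 * j.e0 * x 0 * y 0 * v 3 * w 3 - j.a0 ^ 2 * j.e0 * x 3 * y 3 * v 0 * w 0
  - 3 * j.a0 ^ 2 * j.e0 * x 3 * y 3 * v 3 * w 3 - j.a0 ^ 2 * j.c0 * x 0 * y 0 * v 0 * w 2 - j.a0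
  ^ 2 * j.c0 * x 0 * y 0 * v 2 * w 0 - j.a0 ^ 2 * j.c0 * x 0 * y 2 * v 0 * w 0 - j.a0 ^ 2 * j.c0
  * x 0 * y 2 * v 3 * w 3 - j.a0 ^ 2 * j.c0 * x 3 * y 3 * v 0 * w 2 - j.a0 ^ 2 * j.c0 * x 3 * y 3
  * v 2 * w 0 - j.a0 * j.a1 * j.c0 * x 0 * y 1 * v 3 * w 0 + j.a0 * j.a1 * j.c0 * x 3 * y 1 * v 0
  * w 0 - j.a0 * j.e0 ^ 2 * x 0 * y 0 * v 3 * w 3 - 3 * j.a0 * j.e0 ^ 2 * x 3 * y 3 * v 3 * w 3 -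
  2 * j.a0 * j.e0 * j.c0 * x 0 * y 2 * v 3 * w 3 - j.a0 * j.e0 * j.c0 * x 3 * y 3 * v 0 * w 2 -
  j.a0 * j.e0 * j.c0 * x 3 * y 3 * v 2 * w 0 - j.a0 * j.e1 * j.c0 * x 0 * y 1 * v 3 * w 0 - j.a0
  * j.c0 ^ 2 * x 0 * y 0 * v 2 * w 2 - j.a0 * j.c0 ^ 2 * x 0 * y 1 * v 1 * w 0 - j.a0 * j.c0 ^ 2
  * x 0 * y 2 * v 0 * w 2 - j.a0 * j.c0 ^ 2 * x 0 * y 2 * v 2 * w 0 + j.a0 * j.c0 ^ 2 * x 0 * y 3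
  * v 0 * w 3 - j.a0 * j.c0 ^ 2 * x 0 * y 3 * v 3 * w 0 - j.a0 * j.c0 ^ 2 * x 2 * y 3 * v 0 * w 3
  + j.a0 * j.c0 ^ 2 * x 2 * y 3 * v 3 * w 0 - j.a0 * j.c0 ^ 2 * x 3 * y 1 * v 1 * w 3 - j.a0 *
  j.c0 ^ 2 * x 3 * y 3 * v 2 * w 2 - j.a0 * j.c0 * j.c1 * x 0 * y 3 * v 1 * w 0 - j.a0 * j.c0 *
  j.c1 * x 1 * y 3 * v 2 * w 0 + j.a0 * j.c0 * j.c1 * x 2 * y 3 * v 1 * w 0 + j.a0 * j.c0 * j.c1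
  * x 3 * y 1 * v 2 * w 0 - j.e0 ^ 3 * x 3 * y 3 * v 3 * w 3 - j.e0 ^ 2 * j.c0 * x 0 * y 2 * v 3
  * w 3 + j.e0 * j.c0 ^ 2 * x 0 * y 1 * v 0 * w 1 + j.e0 * j.c0 ^ 2 * x 0 * y 3 * v 0 * w 3 -
  j.e0 * j.c0 ^ 2 * x 2 * y 3 * v 0 * w 3 - j.e0 * j.c0 ^ 2 * x 3 * y 1 * v 1 * w 3 - j.e0 * j.c0
  ^ 2 * x 3 * y 1 * v 3 * w 1 - j.e0 * j.c0 ^ 2 * x 3 * y 3 * v 2 * w 2 - j.c0 ^ 3 * x 0 * y 1 *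
  v 2 * w 1 + j.c0 ^ 3 * x 0 * y 2 * v 1 * w 1 - j.c0 ^ 3 * x 1 * y 1 * v 1 * w 1 - j.c0 ^ 3 * x
  1 * y 1 * v 2 * w 2 - j.c0 ^ 3 * x 1 * y 3 * v 3 * w 1 - j.c0 ^ 3 * x 2 * y 2 * v 1 * w 1 -
  j.c0 ^ 3 * x 2 * y 2 * v 2 * w 2 + j.c0 ^ 3 * x 3 * y 1 * v 3 * w 1

theorem s6_eq (j : Jt) (k s : ℝ) (h : k ^ 2 + s ^ 2 = 1) (x y v w : Fin 4 → ℝ) :
    dt6 (cx6 (thv j k s v w) (ac k s x)) (K0c j.jet (zc k s) (Jv k s y)) = s6 j k s x y v w := by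
  simp only [s6, Jv, Zv, J1v, lv, mv, zc, ac, thv, cx6, cx, K0c, K1c, K2c, T1c, T2c, T3c, S3c, Bc, Jt.jet, dt, dt6]
  simp
  linear_combination (-(k ^ 4 * j.e0 ^ 3 * x 0 * y 3 * v 0 * w 3) + k ^ 4 * j.e0 ^ 2 * j.c0 * x 0 * y 3 * v 0 * w 3
    - k ^ 3 * j.a0 * j.e0 * j.e1 * x 0 * y 3 * v 3 * w 0 + k ^ 3 * j.e0 ^ 2 * j.c0 * x 0 * y 1 *
    v 0 * w 3 + k ^ 3 * j.e0 ^ 2 * j.c0 * x 0 * y 3 * v 0 * w 1 - k ^ 3 * j.e0 * j.c0 ^ 2 * x 0 *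
    y 1 * v 0 * w 3 - k ^ 3 * j.e0 * j.c0 ^ 2 * x 0 * y 3 * v 0 * w 1 + k ^ 2 * j.a0 ^ 2 * j.e0 *
    x 0 * y 0 * v 3 * w 3 + k ^ 2 * j.a0 ^ 2 * j.e0 * x 3 * y 3 * v 3 * w 3 + k ^ 2 * j.a0 * j.e0
    ^ 2 * x 0 * y 0 * v 3 * w 3 + k ^ 2 * j.a0 * j.e0 ^ 2 * x 0 * y 3 * v 0 * w 3 - 2 * k ^ 2 *
    j.a0 * j.e0 ^ 2 * x 0 * y 3 * v 3 * w 0 + 2 * k ^ 2 * j.a0 * j.e0 ^ 2 * x 3 * y 3 * v 3 * w 3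
    + k ^ 2 * j.a0 * j.e0 * j.c0 * x 0 * y 2 * v 3 * w 3 - k ^ 2 * j.a0 * j.e0 * j.c0 * x 0 * y 3
    * v 0 * w 3 + k ^ 2 * j.a0 * j.e0 * j.c0 * x 0 * y 3 * v 3 * w 0 + k ^ 2 * j.a0 * j.e0 * j.c1
    * x 0 * y 3 * v 1 * w 0 + k ^ 2 * j.a0 * j.e1 * j.c0 * x 0 * y 1 * v 3 * w 0 + k ^ 2 * j.e0 ^
    3 * x 0 * y 3 * v 0 * w 3 + k ^ 2 * j.e0 ^ 3 * x 3 * y 3 * v 3 * w 3 + k ^ 2 * j.e0 ^ 2 *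
    j.c0 * x 0 * y 2 * v 3 * w 3 - k ^ 2 * j.e0 ^ 2 * j.c0 * x 0 * y 3 * v 0 * w 3 - k ^ 2 * j.e0
    * j.c0 ^ 2 * x 0 * y 1 * v 0 * w 1 - k ^ 2 * j.e0 * j.c0 ^ 2 * x 0 * y 3 * v 0 * w 3 + k ^ 2
    * j.e0 * j.c0 ^ 2 * x 2 * y 3 * v 0 * w 3 + k ^ 2 * j.c0 ^ 3 * x 0 * y 1 * v 0 * w 1 - k *
    j.a0 ^ 2 * j.a1 * x 0 * y 0 * v 0 * w 0 - k * j.a0 ^ 2 * j.a1 * x 3 * y 3 * v 0 * w 0 - k *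
    j.a0 ^ 2 * j.c0 * x 0 * y 0 * v 3 * w 1 - k * j.a0 ^ 2 * j.c0 * x 3 * y 3 * v 3 * w 1 - k *
    j.a0 ^ 2 * j.c1 * x 0 * y 0 * v 2 * w 0 - k * j.a0 ^ 2 * j.c1 * x 3 * y 3 * v 2 * w 0 + k *
    j.a0 * j.a1 * j.e0 * x 0 * y 3 * v 3 * w 0 - k * j.a0 * j.a1 * j.e0 * x 3 * y 3 * v 0 * w 0 -
    k * j.a0 * j.a1 * j.c0 * x 0 * y 2 * v 0 * w 0 + k * j.a0 * j.e0 * j.e1 * x 0 * y 3 * v 3 * w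
    0 - k * j.a0 * j.e0 * j.c0 * x 0 * y 1 * v 0 * w 3 + 2 * k * j.a0 * j.e0 * j.c0 * x 0 * y 1 *
    v 3 * w 0 + k * j.a0 * j.e0 * j.c0 * x 0 * y 3 * v 1 * w 0 - k * j.a0 * j.e0 * j.c0 * x 3 * y
    3 * v 3 * w 1 - k * j.a0 * j.e0 * j.c1 * x 3 * y 3 * v 2 * w 0 - k * j.a0 * j.c0 ^ 2 * x 0 *
    y 0 * v 3 * w 1 + k * j.a0 * j.c0 ^ 2 * x 0 * y 1 * v 0 * w 3 - k * j.a0 * j.c0 ^ 2 * x 0 * y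
    1 * v 3 * w 0 - k * j.a0 * j.c0 ^ 2 * x 0 * y 2 * v 3 * w 1 - k * j.a0 * j.c0 ^ 2 * x 3 * y 3
    * v 3 * w 1 - k * j.a0 * j.c0 * j.c1 * x 0 * y 1 * v 1 * w 0 - k * j.a0 * j.c0 * j.c1 * x 0 *
    y 2 * v 2 * w 0 + k * j.a0 * j.c0 * j.c1 * x 3 * y 3 * v 2 * w 0 - k * j.e0 ^ 2 * j.c0 * x 0
    * y 1 * v 0 * w 3 - k * j.e0 ^ 2 * j.c0 * x 0 * y 3 * v 0 * w 1 + k * j.e0 * j.c0 ^ 2 * x 0 *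
    y 1 * v 0 * w 3 + k * j.e0 * j.c0 ^ 2 * x 0 * y 3 * v 2 * w 1 - k * j.e0 * j.c0 ^ 2 * x 3 * y
    3 * v 3 * w 1 - k * j.c0 ^ 3 * x 0 * y 2 * v 3 * w 1 + k * j.c0 ^ 3 * x 0 * y 3 * v 0 * w 1 -
    k * j.c0 ^ 3 * x 2 * y 3 * v 0 * w 1 + k * j.c0 ^ 3 * x 3 * y 3 * v 3 * w 1 - j.a0 ^ 3 * x 0
    * y 0 * v 0 * w 0 - j.a0 ^ 3 * x 0 * y 0 * v 3 * w 3 - j.a0 ^ 3 * x 3 * y 3 * v 0 * w 0 -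
    j.a0 ^ 3 * x 3 * y 3 * v 3 * w 3 - 2 * j.a0 ^ 2 * j.e0 * x 0 * y 0 * v 3 * w 3 - j.a0 ^ 2 *
    j.e0 * x 3 * y 3 * v 0 * w 0 - 3 * j.a0 ^ 2 * j.e0 * x 3 * y 3 * v 3 * w 3 - j.a0 ^ 2 * j.c0
    * x 0 * y 0 * v 0 * w 2 - j.a0 ^ 2 * j.c0 * x 0 * y 0 * v 2 * w 0 - j.a0 ^ 2 * j.c0 * x 0 * y
    2 * v 0 * w 0 - j.a0 ^ 2 * j.c0 * x 0 * y 2 * v 3 * w 3 - j.a0 ^ 2 * j.c0 * x 3 * y 3 * v 0 *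
    w 2 - j.a0 ^ 2 * j.c0 * x 3 * y 3 * v 2 * w 0 - j.a0 * j.a1 * j.c0 * x 0 * y 1 * v 3 * w 0 -
    j.a0 * j.e0 ^ 2 * x 0 * y 0 * v 3 * w 3 - 3 * j.a0 * j.e0 ^ 2 * x 3 * y 3 * v 3 * w 3 - 2 *
    j.a0 * j.e0 * j.c0 * x 0 * y 2 * v 3 * w 3 - j.a0 * j.e0 * j.c0 * x 3 * y 3 * v 0 * w 2 -
    j.a0 * j.e0 * j.c0 * x 3 * y 3 * v 2 * w 0 - j.a0 * j.e1 * j.c0 * x 0 * y 1 * v 3 * w 0 -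
    j.a0 * j.c0 ^ 2 * x 0 * y 0 * v 2 * w 2 - j.a0 * j.c0 ^ 2 * x 0 * y 1 * v 1 * w 0 - j.a0 *
    j.c0 ^ 2 * x 0 * y 2 * v 0 * w 2 - j.a0 * j.c0 ^ 2 * x 0 * y 2 * v 2 * w 0 + j.a0 * j.c0 ^ 2
    * x 0 * y 3 * v 0 * w 3 - j.a0 * j.c0 ^ 2 * x 0 * y 3 * v 3 * w 0 - j.a0 * j.c0 ^ 2 * x 2 * y
    3 * v 0 * w 3 + j.a0 * j.c0 ^ 2 * x 2 * y 3 * v 3 * w 0 - j.a0 * j.c0 ^ 2 * x 3 * y 3 * v 2 *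
    w 2 - j.a0 * j.c0 * j.c1 * x 0 * y 3 * v 1 * w 0 - j.a0 * j.c0 * j.c1 * x 1 * y 3 * v 2 * w 0
    + j.a0 * j.c0 * j.c1 * x 2 * y 3 * v 1 * w 0 - j.e0 ^ 3 * x 3 * y 3 * v 3 * w 3 - j.e0 ^ 2 *
    j.c0 * x 0 * y 2 * v 3 * w 3 + j.e0 * j.c0 ^ 2 * x 0 * y 1 * v 0 * w 1 + j.e0 * j.c0 ^ 2 * x
    0 * y 3 * v 0 * w 3 - j.e0 * j.c0 ^ 2 * x 2 * y 3 * v 0 * w 3 - j.e0 * j.c0 ^ 2 * x 3 * y 3 *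
    v 2 * w 2 - j.c0 ^ 3 * x 0 * y 1 * v 2 * w 1 - j.c0 ^ 3 * x 0 * y 2 * v 2 * w 2 - j.c0 ^ 3 *
    x 1 * y 3 * v 3 * w 1) * h

/-- scalar -/
def s7 (j : Jt) (k s : ℝ) (x y v w : Fin 4 → ℝ) : ℝ :=
  -(k ^ 5 * j.a0 * j.e0 * j.e1 * x 3 * y 3 * v 3 * w 3) + k ^ 4 * j.a0 * j.a1 * j.e1 * x 3 * y 3
  * v 0 * w 0 + k ^ 4 * j.a0 * j.e1 * j.c0 * x 3 * y 3 * v 3 * w 1 + k ^ 4 * j.e0 ^ 2 * j.c0 * x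
  0 * y 3 * v 0 * w 3 + k ^ 4 * j.e0 ^ 2 * j.c0 * x 3 * y 0 * v 0 * w 3 - k ^ 4 * j.e0 * j.e1 *
  j.c0 * x 3 * y 3 * v 1 * w 3 - k ^ 4 * j.e0 * j.e1 * j.c0 * x 3 * y 3 * v 3 * w 1 - k ^ 4 *
  j.e0 * j.c0 ^ 2 * x 0 * y 3 * v 0 * w 3 - k ^ 4 * j.e0 * j.c0 ^ 2 * x 3 * y 0 * v 0 * w 3 + k ^
  3 * j.a0 ^ 2 * j.e1 * x 3 * y 3 * v 0 * w 0 + k ^ 3 * j.a0 ^ 2 * j.e1 * x 3 * y 3 * v 3 * w 3 +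
  k ^ 3 * j.a0 * j.a1 * j.e0 * x 0 * y 0 * v 3 * w 3 + k ^ 3 * j.a0 * j.a1 * j.e0 * x 3 * y 3 * v
  3 * w 3 + 2 * k ^ 3 * j.a0 * j.e0 * j.e1 * x 3 * y 3 * v 3 * w 3 + k ^ 3 * j.a0 * j.e0 * j.c1 *
  x 1 * y 1 * v 3 * w 3 + k ^ 3 * j.a0 * j.e0 * j.c1 * x 2 * y 2 * v 3 * w 3 - 2 * k ^ 3 * j.a0 *
  j.e0 * j.c1 * x 3 * y 3 * v 2 * w 0 + k ^ 3 * j.a0 * j.e1 * j.c0 * x 3 * y 3 * v 0 * w 2 + k ^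
  3 * j.a0 * j.e1 * j.c0 * x 3 * y 3 * v 2 * w 0 + 2 * k ^ 3 * j.a0 * j.c0 * j.c1 * x 3 * y 3 * v
  2 * w 0 - k ^ 3 * j.e0 * j.c0 ^ 2 * x 0 * y 3 * v 0 * w 1 - k ^ 3 * j.e0 * j.c0 ^ 2 * x 3 * y 0
  * v 0 * w 1 - 2 * k ^ 3 * j.e0 * j.c0 ^ 2 * x 3 * y 3 * v 3 * w 1 + 2 * k ^ 3 * j.e1 * j.c0 ^ 2
  * x 3 * y 3 * v 1 * w 1 + 2 * k ^ 3 * j.e1 * j.c0 ^ 2 * x 3 * y 3 * v 2 * w 2 + k ^ 3 * j.c0 ^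
  3 * x 0 * y 3 * v 0 * w 1 + k ^ 3 * j.c0 ^ 3 * x 3 * y 0 * v 0 * w 1 + 2 * k ^ 3 * j.c0 ^ 3 * x
  3 * y 3 * v 3 * w 1 - k ^ 2 * j.a0 * j.a1 ^ 2 * x 0 * y 0 * v 0 * w 0 - k ^ 2 * j.a0 * j.a1 ^ 2
  * x 3 * y 3 * v 0 * w 0 - 2 * k ^ 2 * j.a0 * j.a1 * j.e1 * x 3 * y 3 * v 0 * w 0 - k ^ 2 * j.a0
  * j.a1 * j.c0 * x 0 * y 0 * v 3 * w 1 - k ^ 2 * j.a0 * j.a1 * j.c0 * x 3 * y 3 * v 3 * w 1 - k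
  ^ 2 * j.a0 * j.a1 * j.c1 * x 1 * y 1 * v 0 * w 0 - k ^ 2 * j.a0 * j.a1 * j.c1 * x 2 * y 2 * v 0
  * w 0 - k ^ 2 * j.a0 * j.e0 * j.c0 * x 0 * y 3 * v 0 * w 3 + k ^ 2 * j.a0 * j.e0 * j.c0 * x 0 *
  y 3 * v 3 * w 0 - k ^ 2 * j.a0 * j.e0 * j.c0 * x 3 * y 0 * v 0 * w 3 + k ^ 2 * j.a0 * j.e0 *
  j.c0 * x 3 * y 0 * v 3 * w 0 + k ^ 2 * j.a0 * j.e0 * j.c1 * x 0 * y 3 * v 1 * w 0 + k ^ 2 *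
  j.a0 * j.e0 * j.c1 * x 3 * y 0 * v 1 * w 0 + k ^ 2 * j.a0 * j.e1 * j.c0 * x 3 * y 3 * v 1 * w 3
  - k ^ 2 * j.a0 * j.e1 * j.c0 * x 3 * y 3 * v 3 * w 1 + k ^ 2 * j.a0 * j.c0 ^ 2 * x 0 * y 3 * v
  0 * w 3 - k ^ 2 * j.a0 * j.c0 ^ 2 * x 0 * y 3 * v 3 * w 0 + k ^ 2 * j.a0 * j.c0 ^ 2 * x 3 * y 0
  * v 0 * w 3 - k ^ 2 * j.a0 * j.c0 ^ 2 * x 3 * y 0 * v 3 * w 0 - k ^ 2 * j.a0 * j.c0 * j.c1 * x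
  0 * y 3 * v 1 * w 0 - k ^ 2 * j.a0 * j.c0 * j.c1 * x 1 * y 1 * v 3 * w 1 - k ^ 2 * j.a0 * j.c0
  * j.c1 * x 2 * y 2 * v 3 * w 1 - k ^ 2 * j.a0 * j.c0 * j.c1 * x 3 * y 0 * v 1 * w 0 + k ^ 2 *
  j.a1 * j.e0 * j.c0 * x 0 * y 0 * v 1 * w 3 + k ^ 2 * j.a1 * j.e0 * j.c0 * x 0 * y 0 * v 3 * w 1
  + k ^ 2 * j.a1 * j.e0 * j.c0 * x 3 * y 3 * v 1 * w 3 + k ^ 2 * j.a1 * j.e0 * j.c0 * x 3 * y 3 *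
  v 3 * w 1 - 2 * k ^ 2 * j.e0 ^ 2 * j.c0 * x 0 * y 3 * v 0 * w 3 - 2 * k ^ 2 * j.e0 ^ 2 * j.c0 *
  x 3 * y 0 * v 0 * w 3 + 2 * k ^ 2 * j.e0 * j.e1 * j.c0 * x 3 * y 3 * v 1 * w 3 + 2 * k ^ 2 *
  j.e0 * j.e1 * j.c0 * x 3 * y 3 * v 3 * w 1 + 2 * k ^ 2 * j.e0 * j.c0 ^ 2 * x 0 * y 3 * v 0 * w
  3 + 2 * k ^ 2 * j.e0 * j.c0 ^ 2 * x 3 * y 0 * v 0 * w 3 + 2 * k ^ 2 * j.e0 * j.c0 ^ 2 * x 3 * y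
  3 * v 1 * w 1 + 2 * k ^ 2 * j.e0 * j.c0 ^ 2 * x 3 * y 3 * v 2 * w 2 + k ^ 2 * j.e0 * j.c0 *
  j.c1 * x 1 * y 1 * v 1 * w 3 + k ^ 2 * j.e0 * j.c0 * j.c1 * x 1 * y 1 * v 3 * w 1 + k ^ 2 *
  j.e0 * j.c0 * j.c1 * x 2 * y 2 * v 1 * w 3 + k ^ 2 * j.e0 * j.c0 * j.c1 * x 2 * y 2 * v 3 * w 1
  - 2 * k ^ 2 * j.c0 ^ 3 * x 3 * y 3 * v 1 * w 1 - 2 * k ^ 2 * j.c0 ^ 3 * x 3 * y 3 * v 2 * w 2 -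
  k * j.a0 ^ 2 * j.a1 * x 0 * y 0 * v 0 * w 0 - k * j.a0 ^ 2 * j.a1 * x 0 * y 0 * v 3 * w 3 - k *
  j.a0 ^ 2 * j.a1 * x 3 * y 3 * v 0 * w 0 - k * j.a0 ^ 2 * j.a1 * x 3 * y 3 * v 3 * w 3 - k *
  j.a0 ^ 2 * j.e1 * x 3 * y 3 * v 0 * w 0 - k * j.a0 ^ 2 * j.e1 * x 3 * y 3 * v 3 * w 3 - k *
  j.a0 ^ 2 * j.c1 * x 1 * y 1 * v 0 * w 0 - k * j.a0 ^ 2 * j.c1 * x 1 * y 1 * v 3 * w 3 - k *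
  j.a0 ^ 2 * j.c1 * x 2 * y 2 * v 0 * w 0 - k * j.a0 ^ 2 * j.c1 * x 2 * y 2 * v 3 * w 3 - k *
  j.a0 * j.a1 * j.e0 * x 0 * y 0 * v 3 * w 3 - k * j.a0 * j.a1 * j.e0 * x 3 * y 3 * v 3 * w 3 - k
  * j.a0 * j.a1 * j.c0 * x 0 * y 0 * v 0 * w 2 - k * j.a0 * j.a1 * j.c0 * x 0 * y 0 * v 2 * w 0 -
  k * j.a0 * j.a1 * j.c0 * x 3 * y 3 * v 0 * w 2 - k * j.a0 * j.a1 * j.c0 * x 3 * y 3 * v 2 * w 0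
  - k * j.a0 * j.e0 * j.e1 * x 3 * y 3 * v 3 * w 3 - k * j.a0 * j.e0 * j.c1 * x 1 * y 1 * v 3 * w
  3 - k * j.a0 * j.e0 * j.c1 * x 2 * y 2 * v 3 * w 3 + 2 * k * j.a0 * j.e0 * j.c1 * x 3 * y 3 * v
  2 * w 0 - k * j.a0 * j.e1 * j.c0 * x 3 * y 3 * v 0 * w 2 - k * j.a0 * j.e1 * j.c0 * x 3 * y 3 *
  v 2 * w 0 - k * j.a0 * j.c0 * j.c1 * x 1 * y 1 * v 0 * w 2 - k * j.a0 * j.c0 * j.c1 * x 1 * y 1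
  * v 2 * w 0 - k * j.a0 * j.c0 * j.c1 * x 2 * y 2 * v 0 * w 2 - k * j.a0 * j.c0 * j.c1 * x 2 * y
  2 * v 2 * w 0 - 2 * k * j.a0 * j.c0 * j.c1 * x 3 * y 3 * v 2 * w 0 - 2 * k * j.a1 * j.c0 ^ 2 *
  x 0 * y 0 * v 1 * w 1 - 2 * k * j.a1 * j.c0 ^ 2 * x 0 * y 0 * v 2 * w 2 - 2 * k * j.a1 * j.c0 ^
  2 * x 3 * y 3 * v 1 * w 1 - 2 * k * j.a1 * j.c0 ^ 2 * x 3 * y 3 * v 2 * w 2 + k * j.e0 * j.c0 ^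
  2 * x 0 * y 3 * v 0 * w 1 + k * j.e0 * j.c0 ^ 2 * x 3 * y 0 * v 0 * w 1 + 2 * k * j.e0 * j.c0 ^
  2 * x 3 * y 3 * v 3 * w 1 - 2 * k * j.e1 * j.c0 ^ 2 * x 3 * y 3 * v 1 * w 1 - 2 * k * j.e1 *
  j.c0 ^ 2 * x 3 * y 3 * v 2 * w 2 - k * j.c0 ^ 3 * x 0 * y 3 * v 0 * w 1 - k * j.c0 ^ 3 * x 3 *
  y 0 * v 0 * w 1 - 2 * k * j.c0 ^ 3 * x 3 * y 3 * v 3 * w 1 - 2 * k * j.c0 ^ 2 * j.c1 * x 1 * y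
  1 * v 1 * w 1 - 2 * k * j.c0 ^ 2 * j.c1 * x 1 * y 1 * v 2 * w 2 - 2 * k * j.c0 ^ 2 * j.c1 * x 2
  * y 2 * v 1 * w 1 - 2 * k * j.c0 ^ 2 * j.c1 * x 2 * y 2 * v 2 * w 2 + j.a0 * j.a1 ^ 2 * x 0 * y
  0 * v 0 * w 0 + j.a0 * j.a1 ^ 2 * x 3 * y 3 * v 0 * w 0 + j.a0 * j.a1 * j.e1 * x 3 * y 3 * v 0
  * w 0 - j.a0 * j.a1 * j.c0 * x 0 * y 0 * v 1 * w 3 - j.a0 * j.a1 * j.c0 * x 3 * y 3 * v 1 * w 3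
  + j.a0 * j.a1 * j.c1 * x 1 * y 1 * v 0 * w 0 + j.a0 * j.a1 * j.c1 * x 2 * y 2 * v 0 * w 0 +
  j.a0 * j.e0 * j.c0 * x 0 * y 3 * v 0 * w 3 - j.a0 * j.e0 * j.c0 * x 0 * y 3 * v 3 * w 0 + j.a0
  * j.e0 * j.c0 * x 3 * y 0 * v 0 * w 3 - j.a0 * j.e0 * j.c0 * x 3 * y 0 * v 3 * w 0 - j.a0 *
  j.e0 * j.c1 * x 0 * y 3 * v 1 * w 0 - j.a0 * j.e0 * j.c1 * x 3 * y 0 * v 1 * w 0 - j.a0 * j.e1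
  * j.c0 * x 3 * y 3 * v 1 * w 3 - j.a0 * j.c0 ^ 2 * x 0 * y 3 * v 0 * w 3 + j.a0 * j.c0 ^ 2 * x
  0 * y 3 * v 3 * w 0 - j.a0 * j.c0 ^ 2 * x 3 * y 0 * v 0 * w 3 + j.a0 * j.c0 ^ 2 * x 3 * y 0 * v
  3 * w 0 + j.a0 * j.c0 * j.c1 * x 0 * y 3 * v 1 * w 0 - j.a0 * j.c0 * j.c1 * x 1 * y 1 * v 1 * w
  3 - j.a0 * j.c0 * j.c1 * x 2 * y 2 * v 1 * w 3 + j.a0 * j.c0 * j.c1 * x 3 * y 0 * v 1 * w 0 -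
  j.a1 * j.e0 * j.c0 * x 0 * y 0 * v 1 * w 3 - j.a1 * j.e0 * j.c0 * x 0 * y 0 * v 3 * w 1 - j.a1
  * j.e0 * j.c0 * x 3 * y 3 * v 1 * w 3 - j.a1 * j.e0 * j.c0 * x 3 * y 3 * v 3 * w 1 + j.e0 ^ 2 *
  j.c0 * x 0 * y 3 * v 0 * w 3 + j.e0 ^ 2 * j.c0 * x 3 * y 0 * v 0 * w 3 - j.e0 * j.e1 * j.c0 * x
  3 * y 3 * v 1 * w 3 - j.e0 * j.e1 * j.c0 * x 3 * y 3 * v 3 * w 1 - j.e0 * j.c0 ^ 2 * x 0 * y 3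
  * v 0 * w 3 - j.e0 * j.c0 ^ 2 * x 3 * y 0 * v 0 * w 3 - 2 * j.e0 * j.c0 ^ 2 * x 3 * y 3 * v 1 *
  w 1 - 2 * j.e0 * j.c0 ^ 2 * x 3 * y 3 * v 2 * w 2 - j.e0 * j.c0 * j.c1 * x 1 * y 1 * v 1 * w 3
  - j.e0 * j.c0 * j.c1 * x 1 * y 1 * v 3 * w 1 - j.e0 * j.c0 * j.c1 * x 2 * y 2 * v 1 * w 3 -
  j.e0 * j.c0 * j.c1 * x 2 * y 2 * v 3 * w 1 + 2 * j.c0 ^ 3 * x 3 * y 3 * v 1 * w 1 + 2 * j.c0 ^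
  3 * x 3 * y 3 * v 2 * w 2

theorem s7_eq (j : Jt) (k s : ℝ) (h : k ^ 2 + s ^ 2 = 1) (x y v w : Fin 4 → ℝ) :
    dt6 (Jv k s x) (K1c j.jet (zc k s) (thv j k s v w) (Jv k s y)) = s7 j k s x y v w := by
  simp only [s7, Jv, Zv, J1v, lv, mv, zc, ac, thv, cx6, cx, K0c, K1c, K2c, T1c, T2c, T3c, S3c, Bc, Jt.jet, dt, dt6]
  simp
  linear_combination (k ^ 3 * j.a0 * j.a1 * j.e0 * x 3 * y 3 * v 3 * w 3 + k ^ 3 * j.a0 * j.e0 * j.e1 * x 3 * y 3 *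
    v 3 * w 3 - k ^ 2 * j.a0 * j.a1 ^ 2 * x 3 * y 3 * v 0 * w 0 - k ^ 2 * j.a0 * j.a1 * j.e1 * x
    3 * y 3 * v 0 * w 0 - k ^ 2 * j.a0 * j.a1 * j.c0 * x 3 * y 3 * v 3 * w 1 - k ^ 2 * j.a0 *
    j.a1 * j.c1 * x 3 * y 3 * v 2 * w 0 - k ^ 2 * j.a0 * j.e1 * j.c0 * x 3 * y 3 * v 3 * w 1 + k
    ^ 2 * j.a1 * j.e0 * j.c0 * x 3 * y 3 * v 1 * w 3 + k ^ 2 * j.a1 * j.e0 * j.c0 * x 3 * y 3 * v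
    3 * w 1 - k ^ 2 * j.a1 * j.c0 ^ 2 * x 3 * y 3 * v 3 * w 1 - k ^ 2 * j.e0 ^ 2 * j.c0 * x 0 * y
    3 * v 0 * w 3 - k ^ 2 * j.e0 ^ 2 * j.c0 * x 3 * y 0 * v 0 * w 3 + k ^ 2 * j.e0 * j.e1 * j.c0
    * x 3 * y 3 * v 1 * w 3 + k ^ 2 * j.e0 * j.e1 * j.c0 * x 3 * y 3 * v 3 * w 1 + k ^ 2 * j.e0 *
    j.c0 ^ 2 * x 0 * y 3 * v 0 * w 3 + k ^ 2 * j.e0 * j.c0 ^ 2 * x 3 * y 0 * v 0 * w 3 - k * j.a0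
    ^ 2 * j.a1 * x 3 * y 3 * v 0 * w 0 - k * j.a0 ^ 2 * j.a1 * x 3 * y 3 * v 3 * w 3 - k * j.a0 ^
    2 * j.e1 * x 3 * y 3 * v 0 * w 0 - k * j.a0 ^ 2 * j.e1 * x 3 * y 3 * v 3 * w 3 - k * j.a0 *
    j.a1 * j.e0 * x 3 * y 3 * v 3 * w 3 - k * j.a0 * j.a1 * j.c0 * x 3 * y 3 * v 0 * w 2 - k *
    j.a0 * j.a1 * j.c0 * x 3 * y 3 * v 2 * w 0 - k * j.a0 * j.e0 * j.e1 * x 3 * y 3 * v 3 * w 3 +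
    2 * k * j.a0 * j.e0 * j.c1 * x 3 * y 3 * v 2 * w 0 - k * j.a0 * j.e1 * j.c0 * x 3 * y 3 * v 0
    * w 2 - k * j.a0 * j.e1 * j.c0 * x 3 * y 3 * v 2 * w 0 - 2 * k * j.a0 * j.c0 * j.c1 * x 3 * y
    3 * v 2 * w 0 - 2 * k * j.a1 * j.c0 ^ 2 * x 3 * y 3 * v 1 * w 1 - 2 * k * j.a1 * j.c0 ^ 2 * x
    3 * y 3 * v 2 * w 2 + k * j.e0 * j.c0 ^ 2 * x 0 * y 3 * v 0 * w 1 + k * j.e0 * j.c0 ^ 2 * x 3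
    * y 0 * v 0 * w 1 + 2 * k * j.e0 * j.c0 ^ 2 * x 3 * y 3 * v 3 * w 1 - 2 * k * j.e1 * j.c0 ^ 2
    * x 3 * y 3 * v 1 * w 1 - 2 * k * j.e1 * j.c0 ^ 2 * x 3 * y 3 * v 2 * w 2 - k * j.c0 ^ 3 * x
    0 * y 3 * v 0 * w 1 - k * j.c0 ^ 3 * x 3 * y 0 * v 0 * w 1 - 2 * k * j.c0 ^ 3 * x 3 * y 3 * v
    3 * w 1 - s ^ 2 * j.a0 * j.a1 * j.c1 * x 3 * y 3 * v 2 * w 0 - s ^ 2 * j.a0 * j.e1 * j.c1 * x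
    3 * y 3 * v 2 * w 0 - s ^ 2 * j.a1 * j.c0 ^ 2 * x 3 * y 3 * v 3 * w 1 - s ^ 2 * j.e1 * j.c0 ^
    2 * x 3 * y 3 * v 3 * w 1 + j.a0 * j.a1 ^ 2 * x 3 * y 3 * v 0 * w 0 + j.a0 * j.a1 * j.e1 * x
    3 * y 3 * v 0 * w 0 - j.a0 * j.a1 * j.c0 * x 3 * y 3 * v 1 * w 3 - j.a0 * j.a1 * j.c1 * x 0 *
    y 0 * v 2 * w 0 + j.a0 * j.e0 * j.c0 * x 0 * y 3 * v 0 * w 3 - j.a0 * j.e0 * j.c0 * x 0 * y 3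
    * v 3 * w 0 + j.a0 * j.e0 * j.c0 * x 3 * y 0 * v 0 * w 3 - j.a0 * j.e0 * j.c0 * x 3 * y 0 * v
    3 * w 0 - j.a0 * j.e0 * j.c1 * x 0 * y 3 * v 1 * w 0 - j.a0 * j.e0 * j.c1 * x 3 * y 0 * v 1 *
    w 0 - j.a0 * j.e1 * j.c0 * x 3 * y 3 * v 1 * w 3 - j.a0 * j.c0 ^ 2 * x 0 * y 3 * v 0 * w 3 +
    j.a0 * j.c0 ^ 2 * x 0 * y 3 * v 3 * w 0 - j.a0 * j.c0 ^ 2 * x 3 * y 0 * v 0 * w 3 + j.a0 *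
    j.c0 ^ 2 * x 3 * y 0 * v 3 * w 0 + j.a0 * j.c0 * j.c1 * x 0 * y 3 * v 1 * w 0 + j.a0 * j.c0 *
    j.c1 * x 3 * y 0 * v 1 * w 0 - j.a0 * j.c1 ^ 2 * x 1 * y 1 * v 2 * w 0 - j.a0 * j.c1 ^ 2 * x
    2 * y 2 * v 2 * w 0 - j.a1 * j.e0 * j.c0 * x 3 * y 3 * v 1 * w 3 - j.a1 * j.e0 * j.c0 * x 3 *
    y 3 * v 3 * w 1 - j.a1 * j.c0 ^ 2 * x 0 * y 0 * v 3 * w 1 + j.e0 ^ 2 * j.c0 * x 0 * y 3 * v 0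
    * w 3 + j.e0 ^ 2 * j.c0 * x 3 * y 0 * v 0 * w 3 - j.e0 * j.e1 * j.c0 * x 3 * y 3 * v 1 * w 3
    - j.e0 * j.e1 * j.c0 * x 3 * y 3 * v 3 * w 1 - j.e0 * j.c0 ^ 2 * x 0 * y 3 * v 0 * w 3 - j.e0
    * j.c0 ^ 2 * x 3 * y 0 * v 0 * w 3 - 2 * j.e0 * j.c0 ^ 2 * x 3 * y 3 * v 1 * w 1 - 2 * j.e0 *
    j.c0 ^ 2 * x 3 * y 3 * v 2 * w 2 + 2 * j.c0 ^ 3 * x 3 * y 3 * v 1 * w 1 + 2 * j.c0 ^ 3 * x 3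
    * y 3 * v 2 * w 2 - j.c0 ^ 2 * j.c1 * x 1 * y 1 * v 3 * w 1 - j.c0 ^ 2 * j.c1 * x 2 * y 2 * v
    3 * w 1) * h

theorem K0c_symm (j : Jet) (z a b : V6 ℝ) : dt6 a (K0c j z b) = dt6 b (K0c j z a) := by
  simp only [K0c, T1c, T2c, T3c, dt6, dt]
  simp
  ring

theorem K1c_symm (j : Jet) (z ζ a b : V6 ℝ) : dt6 a (K1c j z ζ b) = dt6 b (K1c j z ζ a) := by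
  simp only [K1c, T1c, T2c, T3c, S3c, dt6, dt]
  simp
  ring

end Pool.Agent.H781.S22
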