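import Pool.Agent.H781.S22.Kap

/-!
The explicit metric: `φ = (19+5u²)/28`, `Γ = (7+3u²+2u⁴+2u⁶+2u⁸+2u¹⁰)/18`.
-/

open Bundle Manifold ContDiff ContinuousLinearMap Filter VectorField Metric
open scoped Topology RealInnerProductSpace

set_option autoImplicit false
set_option synthInstance.maxHeartbeats 400000
set_option maxHeartbeats 4000000
set_option linter.unusedSectionVars false
set_option linter.unusedVariables false
set_option linter.unusedSimpArgs false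

noncomputable section

namespace Pool.Agent.H781.S22

open Pool.Agent.H893R5.HO Pool.Agent.H821R2 Pool.Agent.H821R3 HopfPP

/-- horizontal coefficient -/
def ph (u : ℝ) : ℝ := (19 + 5 * u ^ 2) / 28

/-- vertical coefficient -/
def Ga (u : ℝ) : ℝ := (7 + 3 * u ^ 2 + 2 * u ^ 4 + 2 * u ^ 6 + 2 * u ^ 8 + 2 * u ^ 10) / 18

/-- `(1 - Γ) / (1 - u²)` -/
def ka (u : ℝ) : ℝ := (11 + 8 * u ^ 2 + 6 * u ^ 4 + 4 * u ^ 6 + 2 * u ^ 8) / 18

/-- derivatives -/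
def ph1 (u : ℝ) : ℝ := 10 * u / 28
/-- derivatives -/
def ph2 (u : ℝ) : ℝ := 10 / 28
/-- derivatives -/
def Ga1 (u : ℝ) : ℝ := (6 * u + 8 * u ^ 3 + 12 * u ^ 5 + 16 * u ^ 7 + 20 * u ^ 9) / 18
/-- derivatives -/
def Ga2 (u : ℝ) : ℝ := (6 + 24 * u ^ 2 + 60 * u ^ 4 + 112 * u ^ 6 + 180 * u ^ 8) / 18
/-- derivatives -/
def ka1 (u : ℝ) : ℝ := (16 * u + 24 * u ^ 3 + 24 * u ^ 5 + 16 * u ^ 7) / 18
/-- derivatives -/
def ka2 (u : ℝ) : ℝ := (16 + 72 * u ^ 2 + 120 * u ^ 4 + 112 * u ^ 6) / 18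

theorem ph_pos (u : ℝ) : 0 < ph u := by unfold ph; positivity

theorem Ga_pos (u : ℝ) : 0 < Ga u := by unfold Ga; positivity

theorem ka_pos (u : ℝ) : 0 < ka u := by unfold ka; positivity

theorem Ga_ka (u : ℝ) : Ga u = 1 - ka u * (1 - u ^ 2) := by unfold Ga ka; ring

theorem Ga1_ka (u : ℝ) : Ga1 u = -ka1 u * (1 - u ^ 2) + 2 * u * ka u := by
  unfold Ga1 ka1 ka; ring

theorem Ga2_ka (u : ℝ) : Ga2 u = -ka2 u * (1 - u ^ 2) + 4 * u * ka1 u + 2 * ka u := by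
  unfold Ga2 ka2 ka1 ka; ring

theorem smooth_ph : ContDiff ℝ ∞ ph := by unfold ph; fun_prop

theorem smooth_Ga : ContDiff ℝ ∞ Ga := by unfold Ga; fun_prop

theorem smooth_ka : ContDiff ℝ ∞ ka := by unfold ka; fun_prop

theorem d_ph (u : ℝ) : HasDerivAt ph (ph1 u) u := by
  have h := (((hasDerivAt_id u).pow 2).const_mul 5).const_add (19 : ℝ) |>.div_const 28
  refine h.congr_deriv ?_
  simp [ph1]
  ring

theorem d_ph1 (u : ℝ) : HasDerivAt ph1 (ph2 u) u := by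
  have h := ((hasDerivAt_id u).const_mul 10).div_const (28 : ℝ)
  refine h.congr_deriv ?_
  simp [ph2]

theorem d_pow (c : ℝ) (n : ℕ) (u : ℝ) :
    HasDerivAt (fun u : ℝ => c * u ^ n) (c * (n * u ^ (n - 1))) u := (hasDerivAt_pow n u).const_mul c

theorem d_Ga (u : ℝ) : HasDerivAt Ga (Ga1 u) u := by
  have h := ((((((d_pow 3 2 u).const_add 7).add (d_pow 2 4 u)).add (d_pow 2 6 u)).add
    (d_pow 2 8 u)).add (d_pow 2 10 u)).div_const (18 : ℝ)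
  refine h.congr_deriv ?_
  simp [Ga1]
  ring

theorem d_Ga1 (u : ℝ) : HasDerivAt Ga1 (Ga2 u) u := by
  have h := ((((((hasDerivAt_id u).const_mul (6 : ℝ)).add (d_pow 8 3 u)).add (d_pow 12 5 u)).add
    (d_pow 16 7 u)).add (d_pow 20 9 u)).div_const (18 : ℝ)
  refine h.congr_deriv ?_
  simp [Ga2]
  ring

theorem d_ka (u : ℝ) : HasDerivAt ka (ka1 u) u := by
  have h := (((((d_pow 8 2 u).const_add 11).add (d_pow 6 4 u)).add (d_pow 4 6 u)).add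
    (d_pow 2 8 u)).div_const (18 : ℝ)
  refine h.congr_deriv ?_
  simp [ka1]
  ring

theorem d_ka1 (u : ℝ) : HasDerivAt ka1 (ka2 u) u := by
  have h := (((((hasDerivAt_id u).const_mul (16 : ℝ)).add (d_pow 24 3 u)).add (d_pow 24 5 u)).add
    (d_pow 16 7 u)).div_const (18 : ℝ)
  refine h.congr_deriv ?_
  simp [ka2]
  ring

/-- the data -/
def SD : Dat where
  a := Ga
  a1 := Ga1
  a2 := Ga2
  e := fun u => ka u * ((Ga u)⁻¹ + 1)
  e1 := fun u => ka1 u * ((Ga u)⁻¹ + 1) + ka u * (-Ga1 u / Ga u ^ 2)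
  e2 := fun u => ka2 u * ((Ga u)⁻¹ + 1) + ka1 u * (-Ga1 u / Ga u ^ 2) +
    (ka1 u * (-Ga1 u / Ga u ^ 2) +
      ka u * ((-Ga2 u * Ga u ^ 2 - -Ga1 u * (2 * Ga u * Ga1 u)) / (Ga u ^ 2) ^ 2))
  c := fun u => (ph u)⁻¹
  c1 := fun u => -ph1 u / ph u ^ 2
  c2 := fun u => (-ph2 u * ph u ^ 2 - -ph1 u * (2 * ph u * ph1 u)) / (ph u ^ 2) ^ 2
  sa := smooth_Ga
  se := smooth_ka.mul ((smooth_Ga.inv fun u => (Ga_pos u).ne').add contDiff_const)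
  sc := smooth_ph.inv fun u => (ph_pos u).ne'
  ha := d_Ga
  ha' := d_Ga1
  he u := (d_ka u).mul (((d_Ga u).inv (Ga_pos u).ne').add_const 1)
  he' u := by
    have h1 : HasDerivAt (fun u => Ga u ^ 2) (2 * Ga u * Ga1 u) u := by
      exact ((d_Ga u).pow 2).congr_deriv (by simp)
    have h2 : HasDerivAt (fun u => -Ga1 u / Ga u ^ 2)
      ((-Ga2 u * Ga u ^ 2 - -Ga1 u * (2 * Ga u * Ga1 u)) / (Ga u ^ 2) ^ 2) u :=
      (d_Ga1 u).neg.div h1 (pow_ne_zero 2 (Ga_pos u).ne')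
    exact ((d_ka1 u).mul (((d_Ga u).inv (Ga_pos u).ne').add_const 1)).add ((d_ka u).mul h2)
  hc u := (d_ph u).inv (ph_pos u).ne'
  hc' u := by
    have h1 : HasDerivAt (fun u => ph u ^ 2) (2 * ph u * ph1 u) u := by
      exact ((d_ph u).pow 2).congr_deriv (by simp)
    exact (d_ph1 u).neg.div h1 (pow_ne_zero 2 (ph_pos u).ne')

theorem SD_a (u : ℝ) : SD.a u = Ga u := rfl

theorem SD_c (u : ℝ) : SD.c u = (ph u)⁻¹ := rfl

theorem SD_DD (u : ℝ) : DD (SD.jt u) u = (Ga u)⁻¹ := by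
  have hG := (Ga_pos u).ne'
  have h1 : DD (SD.jt u) u = Ga u + ka u * ((Ga u)⁻¹ + 1) * (1 - u ^ 2) := rfl
  have h2 := Ga_ka u
  have h3 : ka u * (1 - u ^ 2) = 1 - Ga u := by linarith
  rw [h1]
  have : Ga u + ka u * ((Ga u)⁻¹ + 1) * (1 - u ^ 2) = Ga u +
      (ka u * (1 - u ^ 2)) * ((Ga u)⁻¹ + 1) := by ring
  rw [this, h3]
  field_simp
  ring

theorem SD_D1 (u : ℝ) : D1 (SD.jt u) u = -Ga1 u / Ga u ^ 2 := by
  have hG := (Ga_pos u).ne'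
  have h1 : D1 (SD.jt u) u = Ga1 u + (ka1 u * ((Ga u)⁻¹ + 1) + ka u * (-Ga1 u / Ga u ^ 2)) *
    (1 - u ^ 2) - 2 * u * (ka u * ((Ga u)⁻¹ + 1)) := rfl
  have h2 := Ga_ka u
  have h3 := Ga1_ka u
  have h4 : ka u * (1 - u ^ 2) = 1 - Ga u := by linarith
  have h5 : ka1 u * (1 - u ^ 2) = 2 * u * ka u - Ga1 u := by linarith
  rw [h1]
  have : Ga1 u + (ka1 u * ((Ga u)⁻¹ + 1) + ka u * (-Ga1 u / Ga u ^ 2)) *
    (1 - u ^ 2) - 2 * u * (ka u * ((Ga u)⁻¹ + 1)) = Ga1 u + (ka1 u * (1 - u ^ 2)) * ((Ga u)⁻¹ + 1) +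
      (ka u * (1 - u ^ 2)) * (-Ga1 u / Ga u ^ 2) - 2 * u * (ka u * ((Ga u)⁻¹ + 1)) := by ring
  rw [this, h4, h5]
  field_simp
  ring

end Pool.Agent.H781.S22
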